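import Mathlib

set_option autoImplicit false

namespace Pool.Agent.Q299.ClosedMonoids

open Topology

/-- The topology of pointwise convergence on `Ω^Ω`, i.e. the product topology with `Ω` discrete. -/
@[reducible] def pwTop (Ω : Type) : TopologicalSpace (Ω → Ω) :=
  @Pi.topologicalSpace Ω (fun _ => Ω) (fun _ => ⊥)

/-- `S` is closed in `Ω^Ω`. -/
def ClosedIn {Ω : Type} (S : Submonoid (Function.End Ω)) : Prop :=
  IsClosed[pwTop Ω] {f : Ω → Ω | (f : Function.End Ω) ∈ S}

/-- The subspace topology of a submonoid of `Ω^Ω`. -/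
@[reducible] def subTop {Ω : Type} (S : Submonoid (Function.End Ω)) : TopologicalSpace S :=
  TopologicalSpace.induced (fun f : S => ((f : Function.End Ω) : Ω → Ω)) (pwTop Ω)

/-- Automatic continuity with respect to the class of closed submonoids of `Ω^Ω`: every semigroup
homomorphism from `S` to a closed submonoid of `Ω^Ω` is continuous. -/
def AutomaticContinuity {Ω : Type} (S : Submonoid (Function.End Ω)) : Prop :=
  ∀ T : Submonoid (Function.End Ω), ClosedIn T → ∀ φ : S →ₙ* T,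
    @Continuous S T (subTop S) (subTop T) φ

/-- Automatic homeomorphicity with respect to the class of closed submonoids of `Ω^Ω`: every
semigroup isomorphism from `S` onto a closed submonoid of `Ω^Ω` is a homeomorphism. -/
def AutomaticHomeomorphicity {Ω : Type} (S : Submonoid (Function.End Ω)) : Prop :=
  ∀ T : Submonoid (Function.End Ω), ClosedIn T → ∀ φ : S ≃* T,
    @Continuous S T (subTop S) (subTop T) φ ∧ @Continuous T S (subTop T) (subTop S) φ.symm

/-- The group of invertible elements of `S` has finitely many orbits on `Ω^n`, for each `n`. -/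
def Oligomorphic {Ω : Type} (S : Submonoid (Function.End Ω)) : Prop :=
  ∀ n : ℕ, ∃ R : Set (Fin n → Ω), R.Finite ∧
    ∀ x : Fin n → Ω, ∃ r ∈ R, ∃ g : Sˣ, ∀ i, ((g : S) : Function.End Ω) (x i) = r i

theorem isOpen_pw {Ω : Type} (V : Set (Ω → Ω)) :
    IsOpen[pwTop Ω] V ↔ ∀ f ∈ V, ∃ F : Finset Ω, ∀ g : Ω → Ω, (∀ x ∈ F, g x = f x) → g ∈ V := by
  classical
  let _ : TopologicalSpace Ω := ⊥
  have : DiscreteTopology Ω := ⟨rfl⟩
  constructor
  · intro hW f hf
    obtain ⟨I, u, hu1, hu2⟩ := isOpen_pi_iff.1 hW f hf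
    refine ⟨I, fun g hg => hu2 ?_⟩
    intro x hx
    have := (hu1 x hx).2
    rw [hg x hx]
    exact this
  · intro h
    change IsOpen V
    rw [isOpen_iff_forall_mem_open]
    intro f hf
    obtain ⟨F, hF⟩ := h f hf
    refine ⟨⋂ x ∈ F, (fun y : Ω → Ω => y x) ⁻¹' {f x}, ?_, ?_, ?_⟩
    · intro w hw
      exact hF w fun x hx => Set.mem_iInter₂.1 hw x hx
    · apply isOpen_biInter_finset
      intro x _
      exact (isOpen_discrete _).preimage (continuous_apply x)
    · simp only [Set.mem_iInter]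
      intro x _
      rfl

theorem isOpen_sub {Ω : Type} {S : Submonoid (Function.End Ω)} (V : Set S) :
    IsOpen[subTop S] V ↔ ∀ f ∈ V, ∃ F : Finset Ω, ∀ g : S, (∀ x ∈ F, g.1 x = f.1 x) → g ∈ V := by
  constructor
  · rintro ⟨W, hW, rfl⟩ f hf
    obtain ⟨F, hF⟩ := (isOpen_pw W).1 hW _ hf
    exact ⟨F, fun g hg => hF _ hg⟩
  · intro h
    refine ⟨{w | ∃ f ∈ V, ∃ F : Finset Ω, (∀ g : S, (∀ x ∈ F, g.1 x = f.1 x) → g ∈ V) ∧
      ∀ x ∈ F, w x = f.1 x}, ?_, ?_⟩
    · apply (isOpen_pw _).2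
      rintro w ⟨f, hf, F, hF, hw⟩
      exact ⟨F, fun g hg => ⟨f, hf, F, hF, fun x hx => (hg x hx).trans (hw x hx)⟩⟩
    · ext g
      constructor
      · rintro ⟨f, hf, F, hF, hg⟩
        exact hF g hg
      · intro hg
        obtain ⟨F, hF⟩ := h g hg
        exact ⟨g, hg, F, hF, fun x _ => rfl⟩

theorem closedIn_iff {Ω : Type} {S : Submonoid (Function.End Ω)} :
    ClosedIn S ↔ ∀ f : Function.End Ω, (∀ F : Finset Ω, ∃ g ∈ S, ∀ x ∈ F, g x = f x) → f ∈ S := by
  unfold ClosedIn
  rw [← @isOpen_compl_iff _ _ (pwTop Ω), isOpen_pw]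
  constructor
  · intro h f hf
    by_contra hfS
    obtain ⟨F, hF⟩ := h f hfS
    obtain ⟨g, hg, hgF⟩ := hf F
    exact hF g hgF hg
  · intro h f hf
    by_contra hcon
    push Not at hcon
    apply hf
    apply h
    intro F
    obtain ⟨g, hg, hgF⟩ := hcon F
    refine ⟨g, ?_, hg⟩
    by_contra hgS
    exact hgF hgS

end Pool.Agent.Q299.ClosedMonoids
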