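import Mathlib

set_option autoImplicit false

namespace Pool.Agent.Q299.DenseUnits

open Function Classical

/-- Every sequence `e 0, e 1, …` of elements of `S` has a colimit in the one-object category `S`. -/
def HasSeqColimits (S : Type*) [Monoid S] : Prop :=
  ∀ e : ℕ → S, ∃ j : ℕ → S, (∀ n, j n = j (n + 1) * e n) ∧
    (∀ t t' : S, (∀ n, t * j n = t' * j n) → t = t') ∧
    ∀ f : ℕ → S, (∀ n, f n = f (n + 1) * e n) → ∃ θ : S, ∀ n, θ * j n = f n

theorem HasSeqColimits.of_mulEquiv {S S' : Type*} [Monoid S] [Monoid S'] (φ : S ≃* S')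
    (h : HasSeqColimits S) : HasSeqColimits S' := by
  intro e
  obtain ⟨j, hj, hu, hl⟩ := h (fun n => φ.symm (e n))
  refine ⟨fun n => φ (j n), ?_, ?_, ?_⟩
  · intro n
    have := congrArg φ (hj n)
    rw [map_mul, φ.apply_symm_apply] at this
    exact this
  · intro t t' htt
    apply φ.symm.injective
    apply hu
    intro n
    have := congrArg φ.symm (htt n)
    rw [map_mul, map_mul, φ.symm_apply_apply] at this
    exact this
  · intro f hf
    obtain ⟨θ, hθ⟩ := hl (fun n => φ.symm (f n)) (by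
      intro n
      have := congrArg φ.symm (hf n)
      rw [map_mul] at this
      exact this)
    refine ⟨φ θ, fun n => ?_⟩
    have := congrArg φ (hθ n)
    rw [map_mul, φ.apply_symm_apply] at this
    exact this

section

variable {N : Type*} {T : Submonoid (Function.End N)}

/-- A finite set is recurrent if whatever element of `T` moves it, it can be moved back. -/
def Rec (T : Submonoid (Function.End N)) (F : Finset N) : Prop :=
  ∀ f : T, ∃ k : T, ∀ x ∈ F, k.1 (f.1 x) = x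

theorem Rec.image {F : Finset N} (h : Rec T F) (f : T) : Rec T (F.image f.1) := by
  intro g
  obtain ⟨k, hk⟩ := h (g * f)
  refine ⟨f * k, ?_⟩
  intro y hy
  obtain ⟨x, hx, rfl⟩ := Finset.mem_image.1 hy
  exact congrArg f.1 (hk x hx)

theorem Rec.injOn {F : Finset N} (h : Rec T F) (f : T) {x y : N} (hx : x ∈ F) (hy : y ∈ F)
    (hxy : f.1 x = f.1 y) : x = y := by
  obtain ⟨k, hk⟩ := h f
  rw [← hk x hx, ← hk y hy, hxy]

theorem exists_enum [Countable N] {A : Type*} [Nonempty A] (ρ : A → Function.End N)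
    (F : Finset N) : ∃ c : ℕ → A, ∀ a : A, ∃ i, ∀ x ∈ F, ρ (c i) x = ρ a x := by
  let res : A → (F → N) := fun a x => ρ a x.1
  have h1 : Countable (Set.range res) := inferInstance
  have h2 : Nonempty (Set.range res) := ⟨⟨res (Classical.arbitrary A), _, rfl⟩⟩
  obtain ⟨s, hs⟩ := exists_surjective_nat (Set.range res)
  have h3 : ∀ i, ∃ a, res a = (s i).1 := fun i => (s i).2
  choose c hc using h3
  refine ⟨c, fun a => ?_⟩
  obtain ⟨i, hi⟩ := hs ⟨res a, a, rfl⟩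
  refine ⟨i, fun x hx => ?_⟩
  have h4 : res (c i) = res a := by rw [hc, hi]
  exact congrFun h4 ⟨x, hx⟩

theorem exists_rec [Countable N] (h : HasSeqColimits T) (F : Finset N) :
    ∃ u : T, Rec T (F.image u.1) := by
  by_contra hcon
  push Not at hcon
  obtain ⟨c, hc⟩ := exists_enum (fun t : T => t.1) F
  have step : ∀ (n : ℕ) (E : T), ∃ e : T, ∀ k : T, ∃ x ∈ F, k.1 (e.1 (E.1 x)) ≠ (c n).1 x := by
    intro n E
    by_cases hr : ∃ s : T, ∀ x ∈ F, s.1 (E.1 x) = (c n).1 x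
    · obtain ⟨s, hs⟩ := hr
      have h1 := hcon (c n)
      unfold Rec at h1
      push Not at h1
      obtain ⟨s', hs'⟩ := h1
      refine ⟨s' * s, fun k => ?_⟩
      obtain ⟨y, hy, hky⟩ := hs' k
      obtain ⟨x, hx, rfl⟩ := Finset.mem_image.1 hy
      refine ⟨x, hx, ?_⟩
      intro h2
      apply hky
      rw [← hs x hx]
      rw [← hs x hx] at h2
      exact h2
    · push Not at hr
      exact ⟨1, fun k => hr k⟩
  choose e he using step
  let E : ℕ → T := fun n => Nat.rec 1 (fun n E => e n E * E) n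
  obtain ⟨j, hj, -, -⟩ := h (fun n => e n (E n))
  have hj0 : ∀ n, j 0 = j n * E n := by
    intro n
    induction n with
    | zero => exact (mul_one _).symm
    | succ n ih =>
      rw [ih, hj n, mul_assoc]
  obtain ⟨i, hi⟩ := hc (j 0)
  obtain ⟨x, hx, hne⟩ := he i (E i) (j (i + 1))
  apply hne
  rw [hi x hx, hj0 (i + 1)]
  rfl

theorem exists_W [Countable N] (h : HasSeqColimits T) :
    ∃ w : T, ∀ F : Finset N, Rec T (F.image w.1) := by
  have step : ∀ (F : Finset N) (E : T), ∃ e : T, Rec T (F.image (e * E).1) := by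
    intro F E
    obtain ⟨u, hu⟩ := exists_rec h (F.image E.1)
    refine ⟨u, ?_⟩
    rw [Finset.image_image] at hu
    exact hu
  choose e he using step
  obtain ⟨s, hs⟩ := exists_surjective_nat (Finset N)
  let E : ℕ → T := fun n => Nat.rec 1 (fun n E => e (s n) E * E) n
  obtain ⟨j, hj, -, -⟩ := h (fun n => e (s n) (E n))
  have hj0 : ∀ n, j 0 = j n * E n := by
    intro n
    induction n with
    | zero => exact (mul_one _).symm
    | succ n ih =>
      rw [ih, hj n, mul_assoc]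
  refine ⟨j 0, fun F => ?_⟩
  obtain ⟨n, rfl⟩ := hs F
  have h1 := (he (s n) (E n)).image (j (n + 1))
  rw [Finset.image_image] at h1
  rw [hj0 (n + 1)]
  exact h1

/-- A set on which the restriction of `T` behaves well. -/
structure Good (T : Submonoid (Function.End N)) (U : Set N) : Prop where
  recc : ∀ F : Finset N, (∀ x ∈ F, x ∈ U) → Rec T F
  ext : ∀ (F : Finset N) (r : T), (∀ x ∈ F, x ∈ U) → (∀ x ∈ F, r.1 x ∈ U) →
    ∃ r' : T, (∀ x ∈ F, r'.1 x = r.1 x) ∧ ∀ x, r'.1 x ∈ U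
  uniq : ∀ t t' : T, (∀ x ∈ U, t.1 x = t'.1 x) → t = t'
  lim : ∀ φ : N → N, (∀ F : Finset N, (∀ x ∈ F, x ∈ U) → ∃ g : T, ∀ x ∈ F, g.1 x = φ x) →
    ∃ θ : T, ∀ x ∈ U, θ.1 x = φ x

/-- Units preserving `U`. -/
def InL (U : Set N) (h : Tˣ) : Prop :=
  (∀ x ∈ U, h.1.1 x ∈ U) ∧ ∀ x ∈ U, (h⁻¹).1.1 x ∈ U

theorem inv_apply (h : Tˣ) (x : N) : (h⁻¹).1.1 (h.1.1 x) = x := by
  have : (h⁻¹).1 * h.1 = 1 := Units.inv_mul h
  exact congrFun (congrArg Subtype.val this) x

theorem apply_inv (h : Tˣ) (x : N) : h.1.1 ((h⁻¹).1.1 x) = x := by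
  have : h.1 * (h⁻¹).1 = 1 := Units.mul_inv h
  exact congrFun (congrArg Subtype.val this) x

theorem InL.mul {U : Set N} {h h' : Tˣ} (hh : InL U h) (hh' : InL U h') : InL U (h * h') := by
  refine ⟨fun x hx => hh.1 _ (hh'.1 x hx), fun x hx => ?_⟩
  rw [mul_inv_rev]
  exact hh'.2 _ (hh.2 x hx)

theorem InL.inv {U : Set N} {h : Tˣ} (hh : InL U h) : InL U h⁻¹ := by
  refine ⟨hh.2, fun x hx => ?_⟩
  rw [inv_inv]
  exact hh.1 x hx

theorem InL.one {U : Set N} : InL U (1 : Tˣ) := by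
  refine ⟨fun x hx => hx, fun x hx => ?_⟩
  rw [inv_one]
  exact hx

/-- The back step. -/
theorem Good.back {U : Set N} (hU : Good T U) (F : Finset N) (r : T) (hF : ∀ x ∈ F, x ∈ U)
    (hr : ∀ x, r.1 x ∈ U) (y : N) (hy : y ∈ U) :
    ∃ (x : N) (r' : T), x ∈ U ∧ (∀ x ∈ F, r'.1 x = r.1 x) ∧ (∀ x, r'.1 x ∈ U) ∧ r'.1 x = y := by
  obtain ⟨k, hk⟩ := hU.recc F hF r
  obtain ⟨k', hk', hk'U⟩ := hU.ext (F.image r.1) k (by
    intro z hz
    obtain ⟨x, hx, rfl⟩ := Finset.mem_image.1 hz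
    exact hr x) (by
    intro z hz
    obtain ⟨x, hx, rfl⟩ := Finset.mem_image.1 hz
    rw [hk x hx]
    exact hF x hx)
  have hk2 : ∀ x ∈ F, k'.1 (r.1 x) = x := by
    intro x hx
    rw [hk' _ (Finset.mem_image_of_mem _ hx), hk x hx]
  obtain ⟨s, hs⟩ := hU.recc (insert y (F.image r.1)) (by
    intro z hz
    rcases Finset.mem_insert.1 hz with rfl | hz
    · exact hy
    · obtain ⟨x, hx, rfl⟩ := Finset.mem_image.1 hz
      exact hr x) k'
  have hs1 : s.1 (k'.1 y) = y := hs y (Finset.mem_insert_self _ _)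
  have hs2 : ∀ x ∈ F, s.1 x = r.1 x := by
    intro x hx
    have := hs (r.1 x) (Finset.mem_insert_of_mem (Finset.mem_image_of_mem _ hx))
    rw [hk2 x hx] at this
    exact this
  obtain ⟨s', hs', hs'U⟩ := hU.ext (insert (k'.1 y) F) s (by
    intro z hz
    rcases Finset.mem_insert.1 hz with rfl | hz
    · exact hk'U y
    · exact hF z hz) (by
    intro z hz
    rcases Finset.mem_insert.1 hz with rfl | hz
    · rw [hs1]; exact hy
    · rw [hs2 z hz]; exact hr z)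
  refine ⟨k'.1 y, s', hk'U y, ?_, hs'U, ?_⟩
  · intro x hx
    rw [hs' x (Finset.mem_insert_of_mem hx), hs2 x hx]
  · rw [hs' _ (Finset.mem_insert_self _ _), hs1]

/-- Generic units by back and forth. -/
theorem Good.generic [Countable N] [Nonempty N] {U : Set N} (hU : Good T U)
    (Q : ℕ → Finset N → T → Prop)
    (hQ : ∀ n F (r : T), (∀ x ∈ F, x ∈ U) → (∀ x, r.1 x ∈ U) → ∃ F₁ r₁, F ⊆ F₁ ∧
      (∀ x ∈ F₁, x ∈ U) ∧ (∀ x, r₁.1 x ∈ U) ∧ (∀ x ∈ F, r₁.1 x = r.1 x) ∧ Q n F₁ r₁)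
    (F : Finset N) (r : T) (hF : ∀ x ∈ F, x ∈ U) (hr : ∀ x, r.1 x ∈ U) :
    ∃ h : Tˣ, InL U h ∧ (∀ x ∈ F, h.1.1 x = r.1 x) ∧
      ∀ n, ∃ F₁ r₁, Q n F₁ r₁ ∧ ∀ x ∈ F₁, h.1.1 x = r₁.1 x := by
  obtain ⟨e, he⟩ := exists_surjective_nat N
  let St := {p : Finset N × T // (∀ x ∈ p.1, x ∈ U) ∧ ∀ x, p.2.1 x ∈ U}
  have step : ∀ (n : ℕ) (p : St), ∃ q : St, p.1.1 ⊆ q.1.1 ∧ (∀ x ∈ p.1.1, q.1.2.1 x = p.1.2.1 x) ∧
      (∃ F₁ r₁, Q n F₁ r₁ ∧ F₁ ⊆ q.1.1 ∧ ∀ x ∈ F₁, q.1.2.1 x = r₁.1 x) ∧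
      (e n ∈ U → e n ∈ q.1.1) ∧ (e n ∈ U → ∃ x ∈ q.1.1, q.1.2.1 x = e n) := by
    rintro n ⟨⟨F, r⟩, hF, hr⟩
    obtain ⟨F₁, r₁, h1, h2, h3, h4, h5⟩ := hQ n F r hF hr
    by_cases hen : e n ∈ U
    · obtain ⟨x, r₂, hx, h6, h7, h8⟩ := hU.back (insert (e n) F₁) r₁ (by
        intro z hz
        rcases Finset.mem_insert.1 hz with rfl | hz
        · exact hen
        · exact h2 z hz) h3 (e n) hen
      refine ⟨⟨⟨insert x (insert (e n) F₁), r₂⟩, ?_, h7⟩, ?_, ?_, ⟨F₁, r₁, h5, ?_, ?_⟩, ?_, ?_⟩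
      · intro z hz
        rcases Finset.mem_insert.1 hz with rfl | hz
        · exact hx
        rcases Finset.mem_insert.1 hz with rfl | hz
        · exact hen
        · exact h2 z hz
      · exact fun z hz => Finset.mem_insert_of_mem (Finset.mem_insert_of_mem (h1 hz))
      · intro z hz
        change r₂.1 z = r.1 z
        rw [h6 z (Finset.mem_insert_of_mem (h1 hz)), h4 z hz]
      · exact fun z hz => Finset.mem_insert_of_mem (Finset.mem_insert_of_mem hz)
      · exact fun z hz => h6 z (Finset.mem_insert_of_mem hz)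
      · exact fun _ => Finset.mem_insert_of_mem (Finset.mem_insert_self _ _)
      · exact fun _ => ⟨x, Finset.mem_insert_self _ _, h8⟩
    · exact ⟨⟨⟨F₁, r₁⟩, h2, h3⟩, h1, h4, ⟨F₁, r₁, h5, Finset.Subset.refl _, fun _ _ => rfl⟩,
        fun h => absurd h hen, fun h => absurd h hen⟩
  choose nx hnx using step
  let σ : ℕ → St := fun n => Nat.rec ⟨⟨F, r⟩, hF, hr⟩ (fun n p => nx n p) n
  have hmono : ∀ n m, n ≤ m → (σ n).1.1 ⊆ (σ m).1.1 ∧
      ∀ x ∈ (σ n).1.1, (σ m).1.2.1 x = (σ n).1.2.1 x := by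
    intro n m hnm
    induction m, hnm using Nat.le_induction with
    | base => exact ⟨Finset.Subset.refl _, fun _ _ => rfl⟩
    | succ m _ ih =>
      obtain ⟨h1, h2, -⟩ := hnx m (σ m)
      refine ⟨ih.1.trans h1, fun x hx => ?_⟩
      rw [← ih.2 x hx]
      exact h2 x (ih.1 hx)
  have hcov : ∀ x ∈ U, ∃ n, x ∈ (σ n).1.1 := by
    intro x hx
    obtain ⟨n, rfl⟩ := he x
    exact ⟨n + 1, (hnx n (σ n)).2.2.2.1 hx⟩
  have hran : ∀ y ∈ U, ∃ n, ∃ x ∈ (σ n).1.1, (σ n).1.2.1 x = y := by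
    intro y hy
    obtain ⟨n, rfl⟩ := he y
    exact ⟨n + 1, (hnx n (σ n)).2.2.2.2 hy⟩
  -- the limit map
  let φ : N → N := fun x => if h : ∃ n, x ∈ (σ n).1.1 then (σ h.choose).1.2.1 x else x
  have hφ : ∀ n, ∀ x ∈ (σ n).1.1, φ x = (σ n).1.2.1 x := by
    intro n x hx
    have h : ∃ n, x ∈ (σ n).1.1 := ⟨n, hx⟩
    have h1 : φ x = (σ h.choose).1.2.1 x := dif_pos h
    rw [h1]
    rcases le_total h.choose n with h2 | h2
    · exact ((hmono _ _ h2).2 x h.choose_spec).symm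
    · exact (hmono _ _ h2).2 x hx
  have hφU : ∀ x ∈ U, φ x ∈ U := by
    intro x hx
    obtain ⟨n, hn⟩ := hcov x hx
    rw [hφ n x hn]
    exact (σ n).2.2 x
  have hφinj : ∀ x ∈ U, ∀ y ∈ U, φ x = φ y → x = y := by
    intro x hx y hy hxy
    obtain ⟨n, hn⟩ := hcov x hx
    obtain ⟨m, hm⟩ := hcov y hy
    have h1 := (hmono n _ (le_max_left n m)).1 hn
    have h2 := (hmono m _ (le_max_right n m)).1 hm
    rw [hφ _ x h1, hφ _ y h2] at hxy
    exact (hU.recc _ (σ (max n m)).2.1).injOn _ h1 h2 hxy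
  have hφsur : ∀ y ∈ U, ∃ x ∈ U, φ x = y := by
    intro y hy
    obtain ⟨n, x, hx, hxy⟩ := hran y hy
    exact ⟨x, (σ n).2.1 x hx, (hφ n x hx).trans hxy⟩
  let φ' : N → N := fun y => if h : ∃ x ∈ U, φ x = y then h.choose else y
  have hφ'1 : ∀ y ∈ U, φ' y ∈ U ∧ φ (φ' y) = y := by
    intro y hy
    have h := hφsur y hy
    have h1 : φ' y = h.choose := dif_pos h
    rw [h1]
    exact h.choose_spec
  have hφ'2 : ∀ x ∈ U, φ' (φ x) = x := by
    intro x hx
    obtain ⟨h1, h2⟩ := hφ'1 (φ x) (hφU x hx)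
    exact hφinj _ h1 _ hx h2
  -- finite subsets of `U` are covered
  have hfin : ∀ F' : Finset N, (∀ x ∈ F', x ∈ U) → ∃ n, ∀ x ∈ F', x ∈ (σ n).1.1 := by
    intro F'
    induction F' using Finset.induction_on with
    | empty => exact fun _ => ⟨0, fun x hx => absurd hx (Finset.notMem_empty x)⟩
    | insert a s _ ih =>
      intro h
      obtain ⟨n, hn⟩ := ih fun x hx => h x (Finset.mem_insert_of_mem hx)
      obtain ⟨m, hm⟩ := hcov a (h a (Finset.mem_insert_self _ _))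
      refine ⟨max n m, fun x hx => ?_⟩
      rcases Finset.mem_insert.1 hx with rfl | hx
      · exact (hmono m _ (le_max_right n m)).1 hm
      · exact (hmono n _ (le_max_left n m)).1 (hn x hx)
  obtain ⟨θ, hθ⟩ := hU.lim φ (by
    intro F' hF'
    obtain ⟨n, hn⟩ := hfin F' hF'
    exact ⟨(σ n).1.2, fun x hx => (hφ n x (hn x hx)).symm⟩)
  obtain ⟨θ', hθ'⟩ := hU.lim φ' (by
    intro F' hF'
    obtain ⟨n, hn⟩ := hfin (F'.image φ') (by
      intro z hz
      obtain ⟨y, hy, rfl⟩ := Finset.mem_image.1 hz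
      exact (hφ'1 y (hF' y hy)).1)
    obtain ⟨k, hk⟩ := hU.recc _ (σ n).2.1 (σ n).1.2
    refine ⟨k, fun y hy => ?_⟩
    have h1 := hn (φ' y) (Finset.mem_image_of_mem _ hy)
    have h2 := hk _ h1
    rw [← hφ n _ h1, (hφ'1 y (hF' y hy)).2] at h2
    exact h2)
  have h1 : θ * θ' = 1 := by
    apply hU.uniq
    intro x hx
    change θ.1 (θ'.1 x) = x
    rw [hθ' x hx, hθ _ (hφ'1 x hx).1]
    exact (hφ'1 x hx).2
  have h2 : θ' * θ = 1 := by
    apply hU.uniq
    intro x hx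
    change θ'.1 (θ.1 x) = x
    rw [hθ x hx, hθ' _ (hφU x hx)]
    exact hφ'2 x hx
  refine ⟨⟨θ, θ', h1, h2⟩, ⟨?_, ?_⟩, ?_, ?_⟩
  · intro x hx
    change θ.1 x ∈ U
    rw [hθ x hx]
    exact hφU x hx
  · intro x hx
    change θ'.1 x ∈ U
    rw [hθ' x hx]
    exact (hφ'1 x hx).1
  · intro x hx
    change θ.1 x = r.1 x
    rw [hθ x (hF x hx)]
    exact hφ 0 x hx
  · intro n
    obtain ⟨F₁, r₁, h3, h4, h5⟩ := (hnx n (σ n)).2.2.1
    refine ⟨F₁, r₁, h3, fun x hx => ?_⟩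
    change θ.1 x = r₁.1 x
    rw [hθ x ((nx n (σ n)).2.1 x (h4 hx)), ← h5 x hx]
    exact hφ (n + 1) x (h4 hx)

/-- Units are dense in the submonoid of elements preserving `U`, for the topology of `U`. -/
theorem Good.unit_of_map [Countable N] [Nonempty N] {U : Set N} (hU : Good T U) (F : Finset N)
    (r : T) (hF : ∀ x ∈ F, x ∈ U) (hr : ∀ x ∈ F, r.1 x ∈ U) :
    ∃ h : Tˣ, InL U h ∧ ∀ x ∈ F, h.1.1 x = r.1 x := by
  obtain ⟨r', hr', hr'U⟩ := hU.ext F r hF hr
  obtain ⟨h, h1, h2, -⟩ := hU.generic (fun _ _ _ => True)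
    (fun n F r hF hr => ⟨F, r, Finset.Subset.refl _, hF, hr, fun _ _ => rfl, trivial⟩) F r' hF hr'U
  exact ⟨h, h1, fun x hx => (h2 x hx).trans (hr' x hx)⟩

theorem Good.dense_fix [Countable N] [Nonempty N] {U : Set N} (hU : Good T U) (B : Finset N) :
    ∃ F : Finset N, (∀ x ∈ F, x ∈ U) ∧ ∀ t : T, (∀ x ∈ U, t.1 x ∈ U) → (∀ x ∈ F, t.1 x = x) →
      ∀ F' : Finset N, (∀ x ∈ F', x ∈ U) →
        ∃ v : Tˣ, InL U v ∧ (∀ x ∈ F', v.1.1 x = t.1 x) ∧ ∀ x ∈ B, v.1.1 x = x := by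
  by_contra hcon
  push Not at hcon
  have hne : Nonempty {h : Tˣ // InL U h} := ⟨⟨1, InL.one⟩⟩
  obtain ⟨c, hc⟩ := exists_enum (fun h : {h : Tˣ // InL U h} => h.1.1.1) B
  obtain ⟨r₀, -, hr₀⟩ := hU.ext ∅ 1 (by simp) (by simp)
  have hQ : ∀ n F (r : T), (∀ x ∈ F, x ∈ U) → (∀ x, r.1 x ∈ U) → ∃ (F₁ : Finset N) (r₁ : T),
      F ⊆ F₁ ∧ (∀ x ∈ F₁, x ∈ U) ∧ (∀ x, r₁.1 x ∈ U) ∧ (∀ x ∈ F, r₁.1 x = r.1 x) ∧
      ∀ v : Tˣ, InL U v → (∀ x ∈ F₁, v.1.1 x = r₁.1 x) → ∃ x ∈ B, v.1.1 x ≠ (c n).1.1.1 x := by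
    intro n F r hF hr
    by_cases hv : ∃ v : Tˣ, InL U v ∧ (∀ x ∈ F, v.1.1 x = r.1 x) ∧
        ∀ x ∈ B, v.1.1 x = (c n).1.1.1 x
    · obtain ⟨v, hvL, hv1, hv2⟩ := hv
      obtain ⟨t, ht1, ht2, F', hF', ht3⟩ := hcon F hF
      have hFF : ∀ x ∈ F ∪ F', x ∈ U := by
        intro x hx
        rcases Finset.mem_union.1 hx with hx | hx
        · exact hF x hx
        · exact hF' x hx
      obtain ⟨r₁, hr₁, hr₁U⟩ := hU.ext (F ∪ F') (v.1 * t) hFF
        (fun x hx => hvL.1 _ (ht1 _ (hFF x hx)))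
      refine ⟨F ∪ F', r₁, Finset.subset_union_left, hFF, hr₁U, ?_, ?_⟩
      · intro x hx
        rw [hr₁ x (Finset.mem_union_left _ hx)]
        change v.1.1 (t.1 x) = r.1 x
        rw [ht2 x hx, hv1 x hx]
      · intro v' hv'L hv'
        have h1 : ∀ x ∈ F', (v⁻¹ * v').1.1 x = t.1 x := by
          intro x hx
          change (v⁻¹).1.1 (v'.1.1 x) = t.1 x
          rw [hv' x (Finset.mem_union_right _ hx), hr₁ x (Finset.mem_union_right _ hx)]
          exact inv_apply v _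
        obtain ⟨x, hx, hx1⟩ := ht3 (v⁻¹ * v') (hvL.inv.mul hv'L) h1
        refine ⟨x, hx, fun h2 => hx1 ?_⟩
        change (v⁻¹).1.1 (v'.1.1 x) = x
        rw [h2, ← hv2 x hx]
        exact inv_apply v x
    · push Not at hv
      exact ⟨F, r, Finset.Subset.refl _, hF, hr, fun _ _ => rfl, hv⟩
  obtain ⟨h, hL, -, hh⟩ := hU.generic
    (fun n (F₁ : Finset N) (r₁ : T) => ∀ v : Tˣ, InL U v → (∀ x ∈ F₁, v.1.1 x = r₁.1 x) →
      ∃ x ∈ B, v.1.1 x ≠ (c n).1.1.1 x) hQ ∅ r₀ (by simp) hr₀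
  obtain ⟨i, hi⟩ := hc ⟨h, hL⟩
  obtain ⟨F₁, r₁, h1, h2⟩ := hh i
  obtain ⟨x, hx, hx1⟩ := h1 h hL h2
  exact hx1 (hi x hx).symm

/-- Every element preserving `U` is a limit of units. -/
theorem Good.approx [Countable N] [Nonempty N] (hT : ∀ f : Function.End N,
      (∀ F : Finset N, ∃ g ∈ T, ∀ x ∈ F, g x = f x) → f ∈ T)
    {U : Set N} (hU : Good T U) (t : T) (ht : ∀ x ∈ U, t.1 x ∈ U) (B : Finset N) :
    ∃ h : Tˣ, ∀ x ∈ B, h.1.1 x = t.1 x := by
  choose fn hfn1 hfn2 using fun B => hU.dense_fix B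
  obtain ⟨h₀, h₀L, h₀t⟩ := hU.unit_of_map (fn B) t (hfn1 B) (fun x hx => ht x (hfn1 B x hx))
  refine ⟨h₀, fun x hx => ?_⟩
  -- the element `t' = h₀⁻¹ t`
  let t' : T := h₀⁻¹.1 * t
  have ht'U : ∀ x ∈ U, t'.1 x ∈ U := fun x hx => h₀L.2 _ (ht x hx)
  have ht' : ∀ x ∈ fn B, t'.1 x = x := by
    intro x hx
    change (h₀⁻¹).1.1 (t.1 x) = x
    rw [← h₀t x hx]
    exact inv_apply h₀ x
  obtain ⟨e, he⟩ := exists_surjective_nat N
  let Bn : ℕ → Finset N := fun n => B ∪ (Finset.range n).image e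
  let Gn : ℕ → Finset N := fun n => (Finset.range (n + 1)).biUnion (fun i => fn (Bn i)) ∪
    ((Finset.range n).image e).filter (· ∈ U)
  have hGU : ∀ n, ∀ x ∈ Gn n, x ∈ U := by
    intro n x hx
    rcases Finset.mem_union.1 hx with hx | hx
    · obtain ⟨i, -, hi⟩ := Finset.mem_biUnion.1 hx
      exact hfn1 _ x hi
    · exact (Finset.mem_filter.1 hx).2
  have hfnG : ∀ n, fn (Bn n) ⊆ Gn n := by
    intro n x hx
    exact Finset.mem_union_left _ (Finset.mem_biUnion.2 ⟨n, Finset.mem_range.2 (Nat.lt_succ_self n), hx⟩)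
  have hGmono : ∀ n, Gn n ⊆ Gn (n + 1) := by
    intro n x hx
    rcases Finset.mem_union.1 hx with hx | hx
    · obtain ⟨i, hi, hi'⟩ := Finset.mem_biUnion.1 hx
      exact Finset.mem_union_left _ (Finset.mem_biUnion.2
        ⟨i, Finset.mem_range.2 (by have := Finset.mem_range.1 hi; omega), hi'⟩)
    · obtain ⟨h1, h2⟩ := Finset.mem_filter.1 hx
      obtain ⟨i, hi, rfl⟩ := Finset.mem_image.1 h1
      exact Finset.mem_union_right _ (Finset.mem_filter.2 ⟨Finset.mem_image_of_mem _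
        (Finset.mem_range.2 (by have := Finset.mem_range.1 hi; omega)), h2⟩)
  have step : ∀ (n : ℕ) (P : {P : Tˣ // InL U P ∧ ∀ x ∈ Gn n, P.1.1 x = t'.1 x}),
      ∃ P' : {P : Tˣ // InL U P ∧ ∀ x ∈ Gn (n + 1), P.1.1 x = t'.1 x},
        ∀ x ∈ Bn n, P'.1.1.1 x = P.1.1.1 x := by
    rintro n ⟨P, hPL, hP⟩
    obtain ⟨v, hvL, hv1, hv2⟩ := hfn2 (Bn n) (P⁻¹.1 * t') (fun x hx => hPL.2 _ (ht'U x hx)) (by
      intro x hx
      change (P⁻¹).1.1 (t'.1 x) = x
      rw [← hP x (hfnG n hx)]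
      exact inv_apply P x) (Gn (n + 1)) (hGU _)
    refine ⟨⟨P * v, hPL.mul hvL, ?_⟩, ?_⟩
    · intro x hx
      change P.1.1 (v.1.1 x) = t'.1 x
      rw [hv1 x hx]
      exact apply_inv P _
    · intro x hx
      change P.1.1 (v.1.1 x) = P.1.1 x
      rw [hv2 x hx]
  choose nx hnx using step
  have hG0 : ∀ x ∈ Gn 0, (1 : Tˣ).1.1 x = t'.1 x := by
    intro x hx
    rcases Finset.mem_union.1 hx with hx | hx
    · obtain ⟨i, hi, hi'⟩ := Finset.mem_biUnion.1 hx
      have : i = 0 := by have := Finset.mem_range.1 hi; omega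
      subst this
      have h1 : Bn 0 = B := by simp [Bn]
      rw [h1] at hi'
      exact (ht' x hi').symm
    · simp at hx
  let P : ∀ n, {P : Tˣ // InL U P ∧ ∀ x ∈ Gn n, P.1.1 x = t'.1 x} :=
    fun n => Nat.rec ⟨1, InL.one, hG0⟩ (fun n p => nx n p) n
  have hBmono : ∀ n m, n ≤ m → Bn n ⊆ Bn m := by
    intro n m hnm x hx
    rcases Finset.mem_union.1 hx with hx | hx
    · exact Finset.mem_union_left _ hx
    · obtain ⟨i, hi, rfl⟩ := Finset.mem_image.1 hx
      exact Finset.mem_union_right _ (Finset.mem_image_of_mem _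
        (Finset.mem_range.2 (by have := Finset.mem_range.1 hi; omega)))
  have hstab : ∀ n m, n ≤ m → ∀ x ∈ Bn n, (P m).1.1.1 x = (P n).1.1.1 x := by
    intro n m hnm
    induction m, hnm using Nat.le_induction with
    | base => exact fun _ _ => rfl
    | succ m hm ih =>
      intro x hx
      rw [← ih x hx]
      exact hnx m (P m) x (hBmono n m hm hx)
  have hcov : ∀ x : N, ∃ n, x ∈ Bn n := by
    intro x
    obtain ⟨n, rfl⟩ := he x
    exact ⟨n + 1, Finset.mem_union_right _ (Finset.mem_image_of_mem _ (Finset.mem_range.2 (Nat.lt_succ_self n)))⟩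
  choose ix hix using hcov
  let q : Function.End N := fun x => (P (ix x)).1.1.1 x
  have hq : ∀ n, ∀ x ∈ Bn n, q x = (P n).1.1.1 x := by
    intro n x hx
    change (P (ix x)).1.1.1 x = _
    rcases le_total (ix x) n with h1 | h1
    · exact (hstab _ _ h1 x (hix x)).symm
    · exact hstab _ _ h1 x hx
  have hfin : ∀ F : Finset N, ∃ n, F ⊆ Bn n := by
    intro F
    refine ⟨F.sup ix, fun x hx => hBmono _ _ (Finset.le_sup (f := ix) hx) (hix x)⟩
  have hqT : q ∈ T := by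
    apply hT
    intro F
    obtain ⟨n, hn⟩ := hfin F
    exact ⟨(P n).1.1.1, (P n).1.1.2, fun x hx => (hq n x (hn hx)).symm⟩
  have hqt : (⟨q, hqT⟩ : T) = t' := by
    apply hU.uniq
    intro x hx
    obtain ⟨i, rfl⟩ := he x
    have h1 : e i ∈ Bn (i + 1) :=
      Finset.mem_union_right _ (Finset.mem_image_of_mem _ (Finset.mem_range.2 (Nat.lt_succ_self i)))
    have h2 : e i ∈ Gn (i + 1) :=
      Finset.mem_union_right _ (Finset.mem_filter.2 ⟨Finset.mem_image_of_mem _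
        (Finset.mem_range.2 (Nat.lt_succ_self i)), hx⟩)
    change q (e i) = t'.1 (e i)
    rw [hq _ _ h1]
    exact (P (i + 1)).2.2 _ h2
  have h3 : t'.1 x = x := by
    rw [← hqt]
    change q x = x
    have h4 : x ∈ Bn 0 := Finset.mem_union_left _ hx
    rw [hq 0 x h4]
    rfl
  have h5 : (h₀⁻¹).1.1 (t.1 x) = x := h3
  rw [← h5]
  have h6 : (h₀⁻¹).1.1 (t.1 ((h₀⁻¹).1.1 (t.1 x))) = (h₀⁻¹).1.1 (t.1 x) := by rw [h5, h5]
  rw [h5]
  have h7 := congrArg h₀.1.1 h5
  rw [apply_inv] at h7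
  exact h7.symm

/-- **Main theorem.** A closed submonoid `T` of `N^N`, `N` countable, which has colimits of
sequences (as a one-object category) has a dense set of units. -/
theorem dense_units [Countable N] (hT : ∀ f : Function.End N,
      (∀ F : Finset N, ∃ g ∈ T, ∀ x ∈ F, g x = f x) → f ∈ T)
    (h : HasSeqColimits T) (t : T) (F : Finset N) : ∃ u : Tˣ, ∀ x ∈ F, u.1.1 x = t.1 x := by
  rcases isEmpty_or_nonempty N with hN | hN
  · exact ⟨1, fun x _ => hN.elim x⟩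
  obtain ⟨w, hw⟩ := exists_W h
  obtain ⟨j, hj, hju, hjl⟩ := h (fun _ => w)
  let U : Set N := {y | ∃ n x, (j n).1 x = y}
  have hjmono : ∀ n m, n ≤ m → ∃ s : T, j n = j m * s := by
    intro n m hnm
    induction m, hnm using Nat.le_induction with
    | base => exact ⟨1, (mul_one _).symm⟩
    | succ m _ ih =>
      obtain ⟨s, hs⟩ := ih
      exact ⟨w * s, by rw [hs, hj m, mul_assoc]⟩
  have hcov : ∀ F : Finset N, (∀ x ∈ F, x ∈ U) → ∃ n, ∀ x ∈ F, ∃ z, (j n).1 z = x := by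
    intro F
    induction F using Finset.induction_on with
    | empty => exact fun _ => ⟨0, fun x hx => absurd hx (Finset.notMem_empty x)⟩
    | insert a s _ ih =>
      intro hF
      obtain ⟨n, hn⟩ := ih fun x hx => hF x (Finset.mem_insert_of_mem hx)
      obtain ⟨m, z, hz⟩ := hF a (Finset.mem_insert_self _ _)
      refine ⟨max n m, fun x hx => ?_⟩
      rcases Finset.mem_insert.1 hx with rfl | hx
      · obtain ⟨s', hs'⟩ := hjmono m (max n m) (le_max_right n m)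
        exact ⟨s'.1 z, by rw [← hz, hs']; rfl⟩
      · obtain ⟨z', hz'⟩ := hn x hx
        obtain ⟨s', hs'⟩ := hjmono n (max n m) (le_max_left n m)
        exact ⟨s'.1 z', by rw [← hz', hs']; rfl⟩
  -- every finite set in `U` is the image of a recurrent set
  have hrec : ∀ F : Finset N, (∀ x ∈ F, x ∈ U) → ∃ (n : ℕ) (z : N → N),
      (∀ x ∈ F, (j n).1 (z x) = x) ∧ Rec T (F.image z) := by
    intro F hF
    obtain ⟨n, hn⟩ := hcov F hF
    choose! z hz using hn
    refine ⟨n + 1, fun x => w.1 (z x), ?_, ?_⟩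
    · intro x hx
      have h1 := hz x hx
      rw [hj n] at h1
      exact h1
    · have := hw (F.image z)
      rw [Finset.image_image] at this
      exact this
  have hU : Good T U := by
    refine ⟨?_, ?_, ?_, ?_⟩
    · intro F hF
      obtain ⟨n, z, hz, hR⟩ := hrec F hF
      have h1 := hR.image (j n)
      rw [Finset.image_image] at h1
      have h2 : F.image ((j n).1 ∘ z) = F := by
        apply Finset.Subset.antisymm
        · intro y hy
          obtain ⟨x, hx, rfl⟩ := Finset.mem_image.1 hy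
          change (j n).1 (z x) ∈ F
          rw [hz x hx]
          exact hx
        · intro x hx
          exact Finset.mem_image.2 ⟨x, hx, hz x hx⟩
      rw [h2] at h1
      exact h1
    · intro F r hF hr
      obtain ⟨n, z, hz, hR⟩ := hrec (F.image r.1) (by
        intro y hy
        obtain ⟨x, hx, rfl⟩ := Finset.mem_image.1 hy
        exact hr x hx)
      obtain ⟨k, hk⟩ := hR (j n)
      refine ⟨j n * (k * r), ?_, fun x => ⟨n, _, rfl⟩⟩
      intro x hx
      change (j n).1 (k.1 (r.1 x)) = r.1 x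
      have h1 := hz (r.1 x) (Finset.mem_image_of_mem _ hx)
      have h2 := hk (z (r.1 x)) (Finset.mem_image_of_mem _ (Finset.mem_image_of_mem _ hx))
      rw [h1] at h2
      rw [h2, h1]
    · intro t t' htt
      apply hju
      intro n
      apply Subtype.ext
      funext x
      exact htt _ ⟨n, x, rfl⟩
    · intro φ hφ
      have h1 : ∀ n, (fun x => φ ((j n).1 x) : Function.End N) ∈ T := by
        intro n
        apply hT
        intro F
        obtain ⟨g, hg⟩ := hφ (F.image (j n).1) (by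
          intro y hy
          obtain ⟨x, hx, rfl⟩ := Finset.mem_image.1 hy
          exact ⟨n, x, rfl⟩)
        exact ⟨(g * j n).1, (g * j n).2, fun x hx => hg _ (Finset.mem_image_of_mem _ hx)⟩
      obtain ⟨θ, hθ⟩ := hjl (fun n => ⟨_, h1 n⟩) (by
        intro n
        apply Subtype.ext
        funext x
        change φ ((j n).1 x) = φ ((j (n + 1)).1 (w.1 x))
        rw [hj n]
        rfl)
      refine ⟨θ, ?_⟩
      rintro _ ⟨n, x, rfl⟩
      exact congrFun (congrArg Subtype.val (hθ n)) x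
  -- every finite set is recurrent
  have hall : ∀ F : Finset N, Rec T F := by
    intro F
    obtain ⟨h₀, hh⟩ := hU.approx hT (j 0) (fun x _ => ⟨0, x, rfl⟩) F
    have h1 : Rec T (F.image (j 0).1) := by
      have h2 := (hw F).image (j 1)
      rw [Finset.image_image] at h2
      rw [hj 0]
      exact h2
    have h3 : F.image (j 0).1 = F.image h₀.1.1 := by
      apply Finset.image_congr
      intro x hx
      exact (hh x hx).symm
    rw [h3] at h1
    have h4 := h1.image h₀⁻¹.1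
    rw [Finset.image_image] at h4
    have h5 : F.image ((h₀⁻¹.1).1 ∘ h₀.1.1) = F := by
      have : ((h₀⁻¹.1).1 ∘ h₀.1.1 : N → N) = id := by
        funext x
        exact inv_apply h₀ x
      rw [this, Finset.image_id]
    rw [h5] at h4
    exact h4
  have hUniv : Good T (Set.univ : Set N) := by
    refine ⟨fun F _ => hall F, fun F r _ _ => ⟨r, fun _ _ => rfl, fun _ => trivial⟩, ?_, ?_⟩
    · intro t t' htt
      apply Subtype.ext
      funext x
      exact htt x trivial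
    · intro φ hφ
      have h1 : (φ : Function.End N) ∈ T := by
        apply hT
        intro F
        obtain ⟨g, hg⟩ := hφ F (fun _ _ => trivial)
        exact ⟨g.1, g.2, hg⟩
      exact ⟨⟨φ, h1⟩, fun _ _ => rfl⟩
  obtain ⟨u, -, hu⟩ := hUniv.unit_of_map F t (fun _ _ => trivial) (fun _ _ => trivial)
  exact ⟨u, hu⟩

end

end Pool.Agent.Q299.DenseUnits
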