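import Mathlib
import Pool.Agent.Q299.DenseUnits

set_option autoImplicit false

namespace Pool.Agent.Q299.DenseUnits

open Function Classical

variable {M : Type*}

/-- The closure in `M^M` of a set of permutations closed under composition and inverse has colimits
of sequences. -/
theorem exists_colimit [Countable M] (G : Subgroup (Equiv.Perm M)) (S : Submonoid (Function.End M))
    (hS : ∀ f : Function.End M, f ∈ S ↔ ∀ F : Finset M, ∃ g ∈ G, ∀ x ∈ F, g x = f x) :
    HasSeqColimits S := by
  classical
  rcases isEmpty_or_nonempty M with hM | hM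
  · intro e
    have hsub : ∀ a b : S, a = b := fun a b => Subtype.ext (funext fun x => hM.elim x)
    exact ⟨fun _ => 1, fun n => hsub _ _, fun t t' _ => hsub _ _, fun f _ => ⟨1, fun n => hsub _ _⟩⟩
  intro e
  obtain ⟨u, hu⟩ := exists_surjective_nat M
  have hinj : ∀ (s : S) (x y : M), s.1 x = s.1 y → x = y := by
    intro s x y hxy
    obtain ⟨g, hg, h⟩ := (hS s.1).1 s.2 {x, y}
    have h1 := h x (by simp)
    have h2 := h y (by simp)
    exact g.injective (by rw [h1, h2, hxy])
  -- `comp n m = e (m-1) ⋯ e n`
  let comp : ℕ → ℕ → S := fun n k => Nat.rec 1 (fun k E => e (n + k) * E) k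
  have hcomp0 : ∀ n, comp n 0 = 1 := fun n => rfl
  have hcompS : ∀ n k, comp n (k + 1) = e (n + k) * comp n k := fun n k => rfl
  have hcompL : ∀ n k, comp n (k + 1) = comp (n + 1) k * e n := by
    intro n k
    induction k with
    | zero =>
      rw [hcompS, hcomp0, hcomp0]
      simp
    | succ k ih =>
      rw [hcompS, ih, hcompS, mul_assoc]
      congr 2
      omega
  -- approximations: the state at stage `m` is a product of group elements `c = g (m-1) ⋯ g 0`
  -- together with a finite set
  let Fset : ℕ → Equiv.Perm M → Finset M := fun m c =>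
    (Finset.range (m + 1)).biUnion (fun i => (Finset.range (m + 1)).image
      (fun k => (comp i (m - i)).1 (u k))) ∪ (Finset.range (m + 1)).image (fun k => c (u k))
  have step : ∀ (m : ℕ) (A : Finset M), ∃ g : G, ∀ x ∈ A, g.1 x = (e m).1 x := by
    intro m A
    obtain ⟨g, hg, h⟩ := (hS (e m).1).1 (e m).2 A
    exact ⟨⟨g, hg⟩, h⟩
  choose g hg using step
  let σ : ℕ → G × Finset M := fun m => Nat.rec (1, Fset 0 1)
    (fun m p => (g m p.2 * p.1, p.2.image (e m).1 ∪ Fset (m + 1) (g m p.2 * p.1).1)) m
  let c : ℕ → G := fun m => (σ m).1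
  let F : ℕ → Finset M := fun m => (σ m).2
  have hcS : ∀ m, c (m + 1) = g m (F m) * c m := fun m => rfl
  have hFS : ∀ m, F (m + 1) = (F m).image (e m).1 ∪ Fset (m + 1) (c (m + 1)).1 := fun m => rfl
  have hFF : ∀ m, Fset m (c m).1 ⊆ F m := by
    intro m
    cases m with
    | zero => exact Finset.Subset.refl _
    | succ m => rw [hFS]; exact Finset.subset_union_right
  -- `jj n k` is the approximation to `j n` at stage `m = n + k`
  let jj : ℕ → ℕ → M → M := fun n k x => (c (n + k)).1.symm ((comp n k).1 x)
  have hstep : ∀ n k x, (comp n k).1 x ∈ F (n + k) → jj n (k + 1) x = jj n k x := by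
    intro n k x hx
    change (c (n + k + 1)).1.symm ((comp n (k + 1)).1 x) = (c (n + k)).1.symm ((comp n k).1 x)
    rw [Equiv.symm_apply_eq, hcS, hcompS]
    change (e (n + k)).1 ((comp n k).1 x) =
      (g (n + k) (F (n + k))).1 ((c (n + k)).1 ((c (n + k)).1.symm ((comp n k).1 x)))
    rw [Equiv.apply_symm_apply]
    exact (hg (n + k) (F (n + k)) _ hx).symm
  have hmem : ∀ n k i, i ≤ n + k → (comp n k).1 (u i) ∈ F (n + k) := by
    intro n k i hi
    apply hFF
    apply Finset.mem_union_left
    refine Finset.mem_biUnion.2 ⟨n, Finset.mem_range.2 (by omega), ?_⟩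
    refine Finset.mem_image.2 ⟨i, Finset.mem_range.2 (by omega), ?_⟩
    have : n + k - n = k := by omega
    rw [this]
  have hmem' : ∀ n k x, x ∈ F n → (comp n k).1 x ∈ F (n + k) := by
    intro n k x hx
    induction k with
    | zero => exact hx
    | succ k ih =>
      change (comp n (k + 1)).1 x ∈ F (n + k + 1)
      rw [hFS, hcompS]
      exact Finset.mem_union_left _ (Finset.mem_image_of_mem _ ih)
  have hstab : ∀ n i k, i ≤ n + k → jj n k (u i) = jj n (i) (u i) ∨ k < i := by
    intro n i k hk
    rcases lt_or_ge k i with h | h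
    · exact Or.inr h
    · left
      induction k, h using Nat.le_induction with
      | base => rfl
      | succ k hk2 ih =>
        rw [hstep n k (u i) (hmem n k i (by omega)), ih (by omega)]
  choose ix hix using hu
  let j₀ : ℕ → M → M := fun n x => jj n (ix x) x
  have hj₀ : ∀ n k x, ix x ≤ k → j₀ n x = jj n k x := by
    intro n k x hk
    rcases hstab n (ix x) k (by omega) with h | h
    · rw [hix x] at h
      exact h.symm
    · omega
  have hj₀S : ∀ n, (j₀ n : Function.End M) ∈ S := by
    intro n
    refine (hS _).2 ?_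
    intro A
    let k := A.sup ix
    obtain ⟨γ, hγ, h⟩ := (hS (comp n k).1).1 (comp n k).2 A
    refine ⟨(c (n + k)).1⁻¹ * γ, G.mul_mem (G.inv_mem (c (n + k)).2) hγ, ?_⟩
    intro x hx
    rw [hj₀ n k x (Finset.le_sup (f := ix) hx)]
    change (c (n + k)).1.symm (γ x) = (c (n + k)).1.symm ((comp n k).1 x)
    rw [h x hx]
  let j : ℕ → S := fun n => ⟨j₀ n, hj₀S n⟩
  have hj : ∀ n, j n = j (n + 1) * e n := by
    intro n
    apply Subtype.ext
    funext x
    change j₀ n x = j₀ (n + 1) ((e n).1 x)
    let k := max (ix x) (ix ((e n).1 x))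
    rw [hj₀ n (k + 1) x ((le_max_left _ _).trans (Nat.le_succ _)),
      hj₀ (n + 1) k ((e n).1 x) (le_max_right _ _)]
    change (c (n + (k + 1))).1.symm ((comp n (k + 1)).1 x) =
      (c (n + 1 + k)).1.symm ((comp (n + 1) k).1 ((e n).1 x))
    rw [hcompL]
    have : n + (k + 1) = n + 1 + k := by omega
    rw [this]
    rfl
  have hmono : ∀ n m, n ≤ m → ∃ s : S, j n = j m * s ∧ ∀ f : ℕ → S,
      (∀ n, f n = f (n + 1) * e n) → f n = f m * s := by
    intro n m hnm
    induction m, hnm using Nat.le_induction with
    | base => exact ⟨1, (mul_one _).symm, fun f _ => (mul_one _).symm⟩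
    | succ m _ ih =>
      obtain ⟨s, hs, hs'⟩ := ih
      exact ⟨e m * s, by rw [hs, hj m, mul_assoc], fun f hf => by
        rw [hs' f hf, hf m, mul_assoc]⟩
  -- the images of the `j n` cover `M`
  have hcov : ∀ y : M, ∃ n x, (j n).1 x = y := by
    intro y
    let m := ix y
    let x := (c m).1 y
    have hx : x ∈ F m := by
      apply hFF
      apply Finset.mem_union_right
      refine Finset.mem_image.2 ⟨ix y, Finset.mem_range.2 (by omega), ?_⟩
      rw [hix y]
    refine ⟨m, x, ?_⟩
    -- the approximations to `j m x` are constant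
    have h1 : ∀ k, jj m k x = y := by
      intro k
      induction k with
      | zero =>
        change (c (m + 0)).1.symm ((1 : S).1 x) = y
        change (c m).1.symm ((c m).1 y) = y
        rw [Equiv.symm_apply_apply]
      | succ k ih =>
        rw [hstep m k x (hmem' m k x hx), ih]
    change j₀ m x = y
    exact h1 _
  refine ⟨j, hj, ?_, ?_⟩
  · intro t t' htt
    apply Subtype.ext
    funext y
    obtain ⟨n, x, rfl⟩ := hcov y
    exact congrFun (congrArg Subtype.val (htt n)) x
  · intro f hf
    choose ni xi hxi using hcov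
    have hwd : ∀ n x n' x', (j n).1 x = (j n').1 x' → (f n).1 x = (f n').1 x' := by
      intro n x n' x' hxx
      obtain ⟨s, hs, hs'⟩ := hmono n (max n n') (le_max_left _ _)
      obtain ⟨s', hs2, hs2'⟩ := hmono n' (max n n') (le_max_right _ _)
      rw [hs, hs2] at hxx
      have h1 : s.1 x = s'.1 x' := hinj (j (max n n')) _ _ hxx
      rw [hs' f hf, hs2' f hf]
      exact congrArg (f (max n n')).1 h1
    let θ : Function.End M := fun y => (f (ni y)).1 (xi y)
    have hθ : ∀ n x, θ ((j n).1 x) = (f n).1 x := by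
      intro n x
      exact hwd _ _ _ _ (hxi _)
    have hθS : θ ∈ S := by
      rw [hS]
      intro A
      let n := A.sup ni
      have h1 : ∀ y ∈ A, ∃ x, (j n).1 x = y := by
        intro y hy
        obtain ⟨s, hs, -⟩ := hmono (ni y) n (Finset.le_sup (f := ni) hy)
        refine ⟨s.1 (xi y), ?_⟩
        have := hxi y
        rw [hs] at this
        exact this
      choose! z hz using h1
      obtain ⟨a, ha, h2⟩ := (hS (j n).1).1 (j n).2 (A.image z)
      obtain ⟨b, hb, h3⟩ := (hS (f n).1).1 (f n).2 (A.image z)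
      refine ⟨b * a⁻¹, G.mul_mem hb (G.inv_mem ha), ?_⟩
      intro y hy
      have h4 : a.symm y = z y := by
        rw [Equiv.symm_apply_eq, h2 _ (Finset.mem_image_of_mem _ hy), hz y hy]
      change b (a.symm y) = θ y
      rw [h4, h3 _ (Finset.mem_image_of_mem _ hy), ← hθ n (z y), hz y hy]
    refine ⟨⟨θ, hθS⟩, fun n => ?_⟩
    apply Subtype.ext
    funext x
    exact hθ n x

end Pool.Agent.Q299.DenseUnits
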