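import Mathlib

set_option autoImplicit false

namespace Pool.Agent.Q299.EDR

open FirstOrder

/-- A colouring `χ` with `k` colours of the copies of the finite structure `A` in `M` (a copy of `A`,
with its enumeration, is given by an embedding `f : A ↪[L] M`) is externally definable: for some
elementary extension `N` of `M`, a finite tuple `e` in `N` and formulas `φ i`, the colour of the
copy `f` is `i` if and only if `N ⊨ φ i (e, f)`. -/
def ExtDef (L : FirstOrder.Language.{0, 0}) {A M : Type} [L.Structure A] [L.Structure M] {k : ℕ}
    (χ : (A ↪[L] M) → Fin k) : Prop :=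
  ∃ (N : Type) (_ : L.Structure N) (j : M ↪ₑ[L] N) (m : ℕ) (e : Fin m → N)
    (φ : Fin k → L.Formula (Fin m ⊕ A)), ∀ (f : A ↪[L] M) (i : Fin k),
      χ f = i ↔ (φ i).Realize (Sum.elim e (fun a => j (f a)))

end Pool.Agent.Q299.EDR
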