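import Mathlib

set_option autoImplicit false

namespace Pool.Agent.Q299.MUlt

open Filter

/-- The extension of multiplication to ultrafilters on the positive integers:
`A ∈ mul F G` iff `{n | {m | n * m ∈ A} ∈ G} ∈ F`. -/
def mul (F G : Ultrafilter ℕ+) : Ultrafilter ℕ+ := F.bind (fun n => G.map (fun m => n * m))

/-- `F ∣_M G`: `G = H₁ · F · H₂` for some ultrafilters `H₁`, `H₂`. -/
def mdvd (F G : Ultrafilter ℕ+) : Prop := ∃ H₁ H₂ : Ultrafilter ℕ+, G = mul (mul H₁ F) H₂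

/-- `A ≤_fe B`: for every finite subset of `A` some multiple of it is contained in `B`. -/
def feSet (A B : Set ℕ+) : Prop :=
  ∀ S : Finset ℕ+, (∀ a ∈ S, a ∈ A) → ∃ k : ℕ+, ∀ a ∈ S, k * a ∈ B

/-- `F ≤_fe G`: for every `B ∈ G` there is `A ∈ F` with `A ≤_fe B`. -/
def fe (F G : Ultrafilter ℕ+) : Prop := ∀ B ∈ G, ∃ A ∈ F, feSet A B

theorem mem_mul {F G : Ultrafilter ℕ+} {A : Set ℕ+} :
    A ∈ mul F G ↔ {n | {m | n * m ∈ A} ∈ G} ∈ F := Iff.rfl

/-- the number of prime factors, with multiplicity -/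
noncomputable def Om (n : ℕ+) : ℕ := ArithmeticFunction.cardFactors (n : ℕ)

theorem Om_mul (m n : ℕ+) : Om (m * n) = Om m + Om n := by
  unfold Om
  rw [PNat.mul_coe]
  exact ArithmeticFunction.cardFactors_mul m.ne_zero n.ne_zero

theorem Om_eq_zero (m : ℕ+) : Om m = 0 ↔ m = 1 := by
  unfold Om
  rw [ArithmeticFunction.cardFactors_eq_zero_iff_eq_zero_or_one]
  constructor
  · rintro (h | h)
    · exact absurd h m.ne_zero
    · exact PNat.coe_eq_one_iff.1 h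
  · rintro rfl
    exact Or.inr rfl

theorem Om_eq_one (m : ℕ+) : Om m = 1 ↔ (m : ℕ).Prime := by
  unfold Om
  exact ArithmeticFunction.cardFactors_eq_one_iff_prime

/-- the level sets -/
def Lev (n : ℕ) : Set ℕ+ := {m | Om m = n}

theorem mul_pure_one (X : Ultrafilter ℕ+) : mul X (pure 1) = X := by
  apply Ultrafilter.coe_injective
  ext A
  change {n | n * 1 ∈ A} ∈ X ↔ A ∈ X
  simp only [mul_one]
  rfl

theorem pure_one_mul (X : Ultrafilter ℕ+) : mul (pure 1) X = X := by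
  apply Ultrafilter.coe_injective
  ext A
  change {m | 1 * m ∈ A} ∈ X ↔ A ∈ X
  simp only [one_mul]
  rfl

theorem mul_assoc' (X Y Z : Ultrafilter ℕ+) : mul (mul X Y) Z = mul X (mul Y Z) := by
  apply Ultrafilter.coe_injective
  ext A
  change {a | {b | {c | a * b * c ∈ A} ∈ Z} ∈ Y} ∈ X ↔ {a | {b | {c | a * (b * c) ∈ A} ∈ Z} ∈ Y} ∈ X
  simp only [mul_assoc]

theorem lev_zero {X : Ultrafilter ℕ+} (h : Lev 0 ∈ X) : X = pure 1 := by
  have h1 : Lev 0 = {1} := by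
    ext m
    exact Om_eq_zero m
  rw [h1] at h
  obtain ⟨x, hx, rfl⟩ := Ultrafilter.eq_pure_of_finite_mem (Set.finite_singleton _) h
  rw [Set.mem_singleton_iff.1 hx]

theorem lev_mul {X Y : Ultrafilter ℕ+} {k : ℕ} (h : Lev k ∈ mul X Y) :
    ∃ i j, i + j = k ∧ Lev i ∈ X ∧ Lev j ∈ Y := by
  rw [mem_mul] at h
  have h1 : ∀ᶠ a in (X : Filter ℕ+), ∃ i ∈ Set.Iic k, a ∈ Lev i ∧ {m | a * m ∈ Lev k} ∈ Y := by
    filter_upwards [h] with a ha
    obtain ⟨b, hb⟩ := Y.nonempty_of_mem ha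
    have : Om (a * b) = k := hb
    rw [Om_mul] at this
    exact ⟨Om a, by simp only [Set.mem_Iic]; omega, rfl, ha⟩
  rw [Ultrafilter.eventually_exists_mem_iff (Set.finite_Iic k)] at h1
  obtain ⟨i, hi, h2⟩ := h1
  obtain ⟨a, ha1, ha2⟩ := h2.exists
  refine ⟨i, k - i, by have : i ≤ k := hi; omega, ?_, ?_⟩
  · filter_upwards [h2] with a ha
    exact ha.1
  · filter_upwards [ha2] with b hb
    have h3 : Om (a * b) = k := hb
    rw [Om_mul] at h3
    have h4 : Om a = i := ha1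
    change Om b = k - i
    omega

/-- the primes -/
noncomputable def pr (i : ℕ) : ℕ+ := ⟨Nat.nth Nat.Prime i, (Nat.prime_nth_prime i).pos⟩

theorem pr_prime (i : ℕ) : (pr i : ℕ).Prime := Nat.prime_nth_prime i

theorem pr_lt {i j : ℕ} (h : i < j) : (pr i : ℕ) < pr j :=
  Nat.nth_strictMono Nat.infinite_setOfPred_prime h

theorem pr_lt_iff {i j : ℕ} : (pr i : ℕ) < pr j ↔ i < j := by
  constructor
  · intro h
    by_contra h1
    rcases Nat.lt_or_ge j i with h2 | h2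
    · have := pr_lt h2
      omega
    · have : i = j := by omega
      subst this
      omega
  · exact pr_lt

theorem pr_inj {i j : ℕ} (h : pr i = pr j) : i = j := by
  rcases Nat.lt_trichotomy i j with h1 | h1 | h1
  · have := pr_lt h1
    rw [h] at this
    omega
  · exact h1
  · have := pr_lt h1
    rw [h] at this
    omega

theorem exists_pr {m : ℕ+} (h : (m : ℕ).Prime) : ∃ i, m = pr i := by
  refine ⟨Nat.count Nat.Prime m, ?_⟩
  apply PNat.eq
  change (m : ℕ) = Nat.nth Nat.Prime (Nat.count Nat.Prime m)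
  rw [Nat.nth_count h]

theorem uniq {i j i' j' : ℕ} (hij : i < j) (hij' : i' < j') (h : pr i * pr j = pr i' * pr j') :
    i = i' ∧ j = j' := by
  have h1 : (pr i : ℕ) * pr j = pr i' * pr j' := by
    rw [← PNat.mul_coe, ← PNat.mul_coe, h]
  have h2 : (pr i : ℕ) ∣ pr i' * pr j' := ⟨pr j, h1.symm⟩
  have h3 : i = i' := by
    rcases (Nat.Prime.dvd_mul (pr_prime i)).1 h2 with h4 | h4
    · rw [Nat.prime_dvd_prime_iff_eq (pr_prime i) (pr_prime i')] at h4
      exact pr_inj (PNat.eq h4)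
    · rw [Nat.prime_dvd_prime_iff_eq (pr_prime i) (pr_prime j')] at h4
      have h5 : i = j' := pr_inj (PNat.eq h4)
      subst h5
      have h6 : (pr j : ℕ) = pr i' := by
        have : (pr i : ℕ) * pr j = pr i * pr i' := by rw [h1, mul_comm]
        exact Nat.eq_of_mul_eq_mul_left (pr i).pos this
      have h7 : j = i' := pr_inj (PNat.eq h6)
      omega
  subst h3
  refine ⟨rfl, ?_⟩
  exact pr_inj (PNat.eq (Nat.eq_of_mul_eq_mul_left (pr i).pos h1))

/-- a nonprincipal ultrafilter on `ℕ` -/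
noncomputable def H : Ultrafilter ℕ := hyperfilter ℕ

theorem H_gt (n : ℕ) : ∀ᶠ k in (H : Filter ℕ), n < k := by
  have h2 : (H : Filter ℕ) ≤ atTop := by
    change (hyperfilter ℕ : Filter ℕ) ≤ atTop
    rw [← Nat.cofinite_eq_atTop]
    exact hyperfilter_le_cofinite
  exact h2 (eventually_gt_atTop n)

/-- a nonprincipal prime ultrafilter -/
noncomputable def G : Ultrafilter ℕ+ := H.map pr

/-- the limit of `G · Hₙ` with `Hₙ` prime ultrafilters on pairwise disjoint sets -/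
noncomputable def FF : Ultrafilter ℕ+ :=
  H.bind (fun n => H.bind (fun k => H.map (fun l => pr k * pr (Nat.pair n l))))

theorem mem_FF {A : Set ℕ+} : A ∈ FF ↔ ∀ᶠ n in (H : Filter ℕ), ∀ᶠ k in (H : Filter ℕ),
    ∀ᶠ l in (H : Filter ℕ), pr k * pr (Nat.pair n l) ∈ A := Iff.rfl

theorem mem_G {A : Set ℕ+} : A ∈ G ↔ ∀ᶠ n in (H : Filter ℕ), pr n ∈ A := Iff.rfl

theorem FF_lev : Lev 2 ∈ FF := by
  rw [mem_FF]
  refine Filter.Eventually.of_forall fun n => Filter.Eventually.of_forall fun k =>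
    Filter.Eventually.of_forall fun l => ?_
  change Om _ = 2
  rw [Om_mul, (Om_eq_one _).2 (pr_prime _), (Om_eq_one _).2 (pr_prime _)]

theorem G_lev : Lev 1 ∈ G := by
  rw [mem_G]
  exact Filter.Eventually.of_forall fun n => (Om_eq_one _).2 (pr_prime _)

theorem fe_G_FF : fe G FF := by
  intro B hB
  rw [mem_FF] at hB
  obtain ⟨n, hn⟩ := hB.exists
  refine ⟨{m | ∃ k, m = pr k ∧ ∀ᶠ l in (H : Filter ℕ), pr k * pr (Nat.pair n l) ∈ B}, ?_, ?_⟩
  · rw [mem_G]
    filter_upwards [hn] with k hk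
    exact ⟨k, rfl, hk⟩
  · intro S hS
    have h1 : ∀ᶠ l in (H : Filter ℕ), ∀ a ∈ S, a * pr (Nat.pair n l) ∈ B := by
      rw [Filter.eventually_all_finset]
      intro a ha
      obtain ⟨k, rfl, hk⟩ := hS a ha
      exact hk
    obtain ⟨l, hl⟩ := h1.exists
    exact ⟨pr (Nat.pair n l), fun a ha => by
      rw [mul_comm]
      exact hl a ha⟩

theorem not_fe_FF_G : ¬ fe FF G := by
  intro h
  obtain ⟨A, hA, hfe⟩ := h (Lev 1) G_lev
  obtain ⟨a, ha1, ha2⟩ := FF.nonempty_of_mem (Filter.inter_mem hA FF_lev)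
  obtain ⟨k, hk⟩ := hfe {a} (by
    intro b hb
    rw [Finset.mem_singleton.1 hb]
    exact ha1)
  have h1 : Om (k * a) = 1 := hk a (Finset.mem_singleton_self _)
  rw [Om_mul] at h1
  have h2 : Om a = 2 := ha2
  omega

theorem FF_not_dvd (p : ℕ+) (hp : (p : ℕ).Prime) : {m : ℕ+ | (p : ℕ) ∣ m} ∉ FF := by
  intro h
  obtain ⟨i, rfl⟩ := exists_pr hp
  rw [mem_FF] at h
  obtain ⟨n, hn⟩ := h.exists
  obtain ⟨k, hk1, hk2⟩ := (hn.and (H_gt i)).exists
  obtain ⟨l, hl1, hl2⟩ := (hk1.and (H_gt i)).exists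
  have hl3 : (pr i : ℕ) ∣ pr k * pr (Nat.pair n l) := hl1
  have h5 : l ≤ Nat.pair n l := Nat.right_le_pair n l
  rcases (Nat.Prime.dvd_mul (pr_prime i)).1 hl3 with h4 | h4
  · rw [Nat.prime_dvd_prime_iff_eq (pr_prime i) (pr_prime k)] at h4
    have := pr_inj (PNat.eq h4)
    omega
  · rw [Nat.prime_dvd_prime_iff_eq (pr_prime i) (pr_prime _)] at h4
    have := pr_inj (PNat.eq h4)
    omega

theorem gt_mem {Y : Ultrafilter ℕ+} (hY : Lev 1 ∈ Y) (h : ∀ q : ℕ+, (q : ℕ).Prime → Y ≠ pure q)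
    (i : ℕ) : {m : ℕ+ | ∃ j, i < j ∧ m = pr j} ∈ Y := by
  have h1 : {m : ℕ+ | ∃ j, j ≤ i ∧ m = pr j} ∉ Y := by
    intro h2
    have hfin : {m : ℕ+ | ∃ j, j ≤ i ∧ m = pr j}.Finite := by
      refine ((Set.finite_Iic i).image pr).subset ?_
      rintro m ⟨j, hj, rfl⟩
      exact ⟨j, hj, rfl⟩
    obtain ⟨q, ⟨j, -, hj⟩, hq⟩ := Ultrafilter.eq_pure_of_finite_mem hfin h2
    exact h q (by rw [hj]; exact pr_prime j) hq
  rw [← Ultrafilter.compl_mem_iff_notMem] at h1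
  filter_upwards [h1, hY] with m hm1 hm2
  obtain ⟨j, rfl⟩ := exists_pr ((Om_eq_one m).1 hm2)
  refine ⟨j, ?_, rfl⟩
  by_contra h3
  exact hm1 ⟨j, by omega, rfl⟩

theorem FF_not_prod (X Y : Ultrafilter ℕ+) (hX : Lev 1 ∈ X) (hY : Lev 1 ∈ Y) : FF ≠ mul X Y := by
  intro hF
  have hXn : ∀ q : ℕ+, (q : ℕ).Prime → X ≠ pure q := by
    rintro q hq rfl
    apply FF_not_dvd q hq
    rw [hF]
    change {m : ℕ+ | (q : ℕ) ∣ (q * m : ℕ+)} ∈ Y
    refine Filter.mem_of_superset Filter.univ_mem ?_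
    intro m _
    change (q : ℕ) ∣ ((q * m : ℕ+) : ℕ)
    rw [PNat.mul_coe]
    exact dvd_mul_right _ _
  have hYn : ∀ q : ℕ+, (q : ℕ).Prime → Y ≠ pure q := by
    rintro q hq rfl
    apply FF_not_dvd q hq
    rw [hF]
    change {m : ℕ+ | (q : ℕ) ∣ (m * q : ℕ+)} ∈ X
    refine Filter.mem_of_superset Filter.univ_mem ?_
    intro m _
    change (q : ℕ) ∣ ((m * q : ℕ+) : ℕ)
    rw [PNat.mul_coe]
    exact dvd_mul_left _ _
  have hA : {m : ℕ+ | ∃ i j, i < j ∧ m = pr i * pr j ∧ (Nat.unpair j).1 < i} ∈ FF := by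
    rw [mem_FF]
    refine Filter.Eventually.of_forall fun n => ?_
    filter_upwards [H_gt n] with k hk
    filter_upwards [H_gt k] with l hl
    refine ⟨k, Nat.pair n l, ?_, rfl, ?_⟩
    · have := Nat.right_le_pair n l
      omega
    · rw [Nat.unpair_pair]
      exact hk
  have hB : ∀ m₀ : ℕ, {m : ℕ+ | ∃ i j, i < j ∧ m = pr i * pr j ∧ (Nat.unpair j).1 = m₀} ∉ FF := by
    intro m₀ h
    rw [mem_FF] at h
    obtain ⟨n, hn1, hn2⟩ := (h.and (H_gt m₀)).exists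
    obtain ⟨k, hk⟩ := hn1.exists
    obtain ⟨l, hl1, hl2⟩ := (hk.and (H_gt k)).exists
    obtain ⟨i, j, hij, h1, h2⟩ := hl1
    have h3 := Nat.right_le_pair n l
    obtain ⟨h4, h5⟩ := uniq (by omega) hij h1
    rw [← h5, Nat.unpair_pair] at h2
    change n = m₀ at h2
    omega
  rw [hF, mem_mul] at hA
  obtain ⟨a, ha1, ha2⟩ := X.nonempty_of_mem (Filter.inter_mem hA hX)
  obtain ⟨i₀, rfl⟩ := exists_pr ((Om_eq_one a).1 ha2)
  have h1 : ∀ᶠ b in (Y : Filter ℕ+), ∃ m₀ ∈ Set.Iio i₀, ∃ j, b = pr j ∧ (Nat.unpair j).1 = m₀ := by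
    filter_upwards [ha1, gt_mem hY hYn i₀] with b hb1 hb2
    obtain ⟨j, hj, rfl⟩ := hb2
    obtain ⟨i', j', hij', h3, h4⟩ := hb1
    obtain ⟨h5, h6⟩ := uniq hj hij' h3
    subst h5
    subst h6
    exact ⟨_, h4, j, rfl, rfl⟩
  rw [Ultrafilter.eventually_exists_mem_iff (Set.finite_Iio i₀)] at h1
  obtain ⟨m₀, -, h2⟩ := h1
  apply hB m₀
  rw [hF, mem_mul]
  filter_upwards [hX] with a ha
  obtain ⟨i, rfl⟩ := exists_pr ((Om_eq_one a).1 ha)
  filter_upwards [h2, gt_mem hY hYn i] with b hb1 hb2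
  obtain ⟨j, rfl, hj⟩ := hb1
  obtain ⟨j', hj', h3⟩ := hb2
  have h4 := pr_inj h3
  subst h4
  exact ⟨i, j, hj', rfl, hj⟩

/-- the only `∣_M`-divisors of `FF` are `1` and `FF` -/
theorem FF_minimal (K : Ultrafilter ℕ+) (h : mdvd K FF) : K = pure 1 ∨ K = FF := by
  obtain ⟨X, Z, h⟩ := h
  have h1 := FF_lev
  rw [h] at h1
  obtain ⟨a, c, hac, h2, h3⟩ := lev_mul h1
  obtain ⟨i, j, hij, h4, h5⟩ := lev_mul h2
  by_cases hj : j = 0
  · subst hj
    exact Or.inl (lev_zero h5)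
  right
  by_cases hj1 : j = 1
  · subst hj1
    exfalso
    by_cases hi : i = 0
    · subst hi
      have hc : c = 1 := by omega
      subst hc
      rw [lev_zero h4, pure_one_mul] at h
      exact FF_not_prod K Z h5 h3 h
    · have hi : i = 1 := by omega
      have hc : c = 0 := by omega
      subst hi
      subst hc
      rw [lev_zero h3, mul_pure_one] at h
      exact FF_not_prod X K h4 h5 h
  · have hj : j = 2 := by omega
    have hi : i = 0 := by omega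
    have hc : c = 0 := by omega
    subst hj
    subst hi
    subst hc
    rw [lev_zero h3, lev_zero h4, mul_pure_one, pure_one_mul] at h
    exact h.symm

theorem G_ne_one : G ≠ pure 1 := by
  intro h
  have h1 := G_lev
  rw [h] at h1
  have h2 : Om 1 = 1 := h1
  rw [(Om_eq_zero 1).2 rfl] at h2
  omega

theorem FF_ne_one : FF ≠ pure 1 := by
  intro h
  have h1 := FF_lev
  rw [h] at h1
  have h2 : Om 1 = 2 := h1
  rw [(Om_eq_zero 1).2 rfl] at h2
  omega

theorem G_ne_FF : G ≠ FF := by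
  intro h
  apply not_fe_FF_G
  rw [h]
  intro B hB
  exact ⟨B, hB, fun S hS => ⟨1, fun a ha => by rw [one_mul]; exact hS a ha⟩⟩

end Pool.Agent.Q299.MUlt
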