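import Mathlib
import Pool.Agent.Q299.MUlt

set_option autoImplicit false

namespace Pool.Agent.Q299.Enl

open Filter Pool.Agent.Q299.MUlt

/-- The levels `ℕ, 𝒫(ℕ), 𝒫(𝒫(ℕ)), ...` of the superstructure over the positive integers. -/
def Super : ℕ → Type
  | 0 => ℕ+
  | n + 1 => Set (Super n)

/-- The ultrapower given by `W` is an enlargement: every ultrafilter on a level of the superstructure
is realised. -/
def Enlargement {I : Type} (W : Ultrafilter I) : Prop :=
  ∀ (n : ℕ) (F : Ultrafilter (Super n)), ∃ f : I → Super n, W.map f = F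

/-- The ultrapower `ℕ^I / W` of the positive integers. -/
abbrev Star {I : Type} (W : Ultrafilter I) : Type := Filter.Germ (W : Filter I) ℕ+

/-- The ultrafilter `v x = {A | x ∈ *A}` of an element of the ultrapower. -/
def v {I : Type} {W : Ultrafilter I} (x : Star W) : Ultrafilter ℕ+ :=
  Filter.Germ.liftOn x (fun f => W.map f) (fun f g h => by
    apply Ultrafilter.coe_injective
    exact Filter.map_congr h)

/-- Nonstandard divisibility: `y = x z` for some `z`. -/
def sdvd {I : Type} {W : Ultrafilter I} (x y : Star W) : Prop := ∃ z : Star W, y = x * z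

/-- The divisibility of ultrafilters: for all `A ∈ F`, the set of all multiples of elements of `A`
belongs to `G`. -/
def tdvd (F G : Ultrafilter ℕ+) : Prop := ∀ A ∈ F, {n : ℕ+ | ∃ a ∈ A, a ∣ n} ∈ G

theorem v_coe {I : Type} {W : Ultrafilter I} (f : I → ℕ+) : v (f : Star W) = W.map f := rfl

theorem mem_v {I : Type} {W : Ultrafilter I} (f : I → ℕ+) (A : Set ℕ+) :
    A ∈ v (f : Star W) ↔ ∀ᶠ i in (W : Filter I), f i ∈ A := Iff.rfl

theorem sdvd_coe {I : Type} {W : Ultrafilter I} (f g : I → ℕ+) (h : sdvd (f : Star W) (g : Star W)) :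
    ∀ᶠ i in (W : Filter I), f i ∣ g i := by
  obtain ⟨z, hz⟩ := h
  induction z using Filter.Germ.inductionOn with
  | h z =>
  rw [← Filter.Germ.coe_mul, Filter.Germ.coe_eq] at hz
  filter_upwards [hz] with i hi
  exact ⟨z i, hi⟩

/-- an index set and an ultrafilter realising everything -/
theorem exists_enlargement : ∃ (J : Type) (W : Ultrafilter J), Enlargement W := by
  classical
  let K := Σ n, Ultrafilter (Super n)
  let J := ∀ a : K, Super a.1
  let Lf : Filter J := Filter.pi (fun a : K => (a.2 : Filter (Super a.1)))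
  have hL : Lf.NeBot := inferInstance
  refine ⟨J, Ultrafilter.of Lf, fun n F => ⟨fun j => j ⟨n, F⟩, ?_⟩⟩
  apply Ultrafilter.eq_of_le
  have h1 : Filter.Tendsto (fun j : J => j ⟨n, F⟩) Lf F :=
    Filter.tendsto_eval_pi (fun a : K => (a.2 : Filter (Super a.1))) ⟨n, F⟩
  exact (Filter.map_mono (Ultrafilter.of_le Lf)).trans h1

/-- The tensor product of two ultrafilters. -/
def tensor {α β : Type} (U : Ultrafilter α) (V : Ultrafilter β) : Ultrafilter (α × β) :=
  U.bind (fun a => V.map (Prod.mk a))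

theorem mem_tensor {α β : Type} {U : Ultrafilter α} {V : Ultrafilter β} {A : Set (α × β)} :
    A ∈ tensor U V ↔ ∀ᶠ a in (U : Filter α), ∀ᶠ b in (V : Filter β), (a, b) ∈ A := Iff.rfl

theorem eventually_tensor {α β : Type} {U : Ultrafilter α} {V : Ultrafilter β} {p : α × β → Prop} :
    (∀ᶠ x in (tensor U V : Filter (α × β)), p x) ↔
      ∀ᶠ a in (U : Filter α), ∀ᶠ b in (V : Filter β), p (a, b) := Iff.rfl

theorem enlargement_tensor {α J : Type} (U : Ultrafilter α) (V : Ultrafilter J)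
    (h : Enlargement V) : Enlargement (tensor U V) := by
  intro n F
  obtain ⟨f, hf⟩ := h n F
  refine ⟨fun x => f x.2, ?_⟩
  rw [← hf]
  apply Ultrafilter.coe_injective
  ext A
  change (∀ᶠ a in (U : Filter α), ∀ᶠ b in (V : Filter J), f b ∈ A) ↔ _
  rw [Filter.eventually_const]
  rfl

/-- the filter of sets of pairs `(k, i)`, `i ≤ k`, with boundedly many missing in each fibre -/
def fib : Filter (ℕ × ℕ) where
  sets := {A | ∃ m : ℕ, ∀ k, ∀ s : Finset ℕ, (∀ i ∈ s, i ≤ k ∧ (k, i) ∉ A) → s.card ≤ m}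
  univ_sets := ⟨0, fun k s hs => by
    rw [Nat.le_zero, Finset.card_eq_zero]
    by_contra h
    obtain ⟨i, hi⟩ := Finset.nonempty_iff_ne_empty.2 h
    exact (hs i hi).2 (Set.mem_univ _)⟩
  sets_of_superset := by
    rintro A B ⟨m, hm⟩ hAB
    exact ⟨m, fun k s hs => hm k s fun i hi => ⟨(hs i hi).1, fun h => (hs i hi).2 (hAB h)⟩⟩
  inter_sets := by
    classical
    rintro A B ⟨m, hm⟩ ⟨m', hm'⟩
    refine ⟨m + m', fun k s hs => ?_⟩
    have h1 := hm k (s.filter (fun i => (k, i) ∉ A)) (by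
      intro i hi
      rw [Finset.mem_filter] at hi
      exact ⟨(hs i hi.1).1, hi.2⟩)
    have h2 := hm' k (s.filter (fun i => ¬ (k, i) ∉ A)) (by
      intro i hi
      rw [Finset.mem_filter, not_not] at hi
      exact ⟨(hs i hi.1).1, fun h => (hs i hi.1).2 ⟨hi.2, h⟩⟩)
    have h3 := Finset.card_filter_add_card_filter_not (s := s) (fun i => (k, i) ∉ A)
    omega

instance : fib.NeBot := by
  rw [Filter.neBot_iff]
  intro h
  have h1 : (∅ : Set (ℕ × ℕ)) ∈ fib := by
    rw [h]
    exact Filter.mem_bot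
  obtain ⟨m, hm⟩ := h1
  have := hm m (Finset.range (m + 1)) (by
    intro i hi
    rw [Finset.mem_range] at hi
    exact ⟨by omega, fun h => h⟩)
  rw [Finset.card_range] at this
  omega

/-- an ultrafilter on pairs without small fibres -/
noncomputable def E : Ultrafilter (ℕ × ℕ) := Ultrafilter.of fib

theorem E_le : {x : ℕ × ℕ | x.2 ≤ x.1} ∈ E := by
  apply Ultrafilter.of_le fib
  refine ⟨0, fun k s hs => ?_⟩
  rw [Nat.le_zero, Finset.card_eq_zero]
  by_contra h
  obtain ⟨i, hi⟩ := Finset.nonempty_iff_ne_empty.2 h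
  exact (hs i hi).2 (hs i hi).1

theorem E_ne (s : ℕ → ℕ) : {x : ℕ × ℕ | x.2 ≠ s x.1} ∈ E := by
  apply Ultrafilter.of_le fib
  refine ⟨1, fun k t ht => ?_⟩
  rw [Finset.card_le_one]
  intro a ha b hb
  have h1 := (ht a ha).2
  have h2 := (ht b hb).2
  have h3 : a = s k := by
    by_contra h
    exact h1 h
  have h4 : b = s k := by
    by_contra h
    exact h2 h
  rw [h3, h4]

/-- the projection to the first coordinate -/
noncomputable def E1 : Ultrafilter ℕ := E.map Prod.fst

/-- the main combinatorial lemma: with the index set `ℕ × J`, every sequence with values `c k i`,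
`i ≤ k`, at the index `(k, j)`, whose ultrafilter is the image of `E`, gives a contradiction. -/
theorem main {J : Type} (V : Ultrafilter J) (c : ℕ → ℕ → ℕ+)
    (hc : ∀ k i k' i', c k i = c k' i' → k = k' ∧ i = i') (f : ℕ × J → ℕ+)
    (hf : (tensor E1 V).map f = E.map (fun x => c x.1 x.2))
    (hfk : ∀ᶠ x in (tensor E1 V : Filter (ℕ × J)), ∀ k i, f x = c k i → k = x.1) : False := by
  classical
  have h1 : {m : ℕ+ | ∃ k i, i ≤ k ∧ m = c k i} ∈ (tensor E1 V).map f := by
    rw [hf]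
    change ∀ᶠ x in (E : Filter (ℕ × ℕ)), ∃ k i, i ≤ k ∧ c x.1 x.2 = c k i
    have := E_le
    filter_upwards [this] with x hx
    exact ⟨x.1, x.2, hx, rfl⟩
  have h2 : ∀ᶠ x in (tensor E1 V : Filter (ℕ × J)), ∃ i ∈ Set.Iic x.1, f x = c x.1 i := by
    have h1' : ∀ᶠ x in (tensor E1 V : Filter (ℕ × J)), ∃ k i, i ≤ k ∧ f x = c k i := h1
    filter_upwards [h1', hfk] with x hx1 hx2
    obtain ⟨k, i, hki, hx⟩ := hx1
    have := hx2 k i hx
    subst this
    exact ⟨i, hki, hx⟩
  rw [eventually_tensor] at h2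
  have h3 : ∀ k : ℕ, ∃ i, (∀ᶠ j in (V : Filter J), ∃ i ∈ Set.Iic k, f (k, j) = c k i) →
      ∀ᶠ j in (V : Filter J), f (k, j) = c k i := by
    intro k
    by_cases h : ∀ᶠ j in (V : Filter J), ∃ i ∈ Set.Iic k, f (k, j) = c k i
    · have h' := h
      rw [Ultrafilter.eventually_exists_mem_iff (Set.finite_Iic k)] at h'
      obtain ⟨i, -, hi⟩ := h'
      exact ⟨i, fun _ => hi⟩
    · exact ⟨0, fun h' => absurd h' h⟩
  choose s hs using h3
  have h4 : {m : ℕ+ | ∃ k i, i ≠ s k ∧ m = c k i} ∈ (tensor E1 V).map f := by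
    rw [hf]
    change ∀ᶠ x in (E : Filter (ℕ × ℕ)), ∃ k i, i ≠ s k ∧ c x.1 x.2 = c k i
    have := E_ne s
    filter_upwards [this] with x hx
    exact ⟨x.1, x.2, hx, rfl⟩
  have h5 : ∀ᶠ k in (E1 : Filter ℕ), ∀ᶠ j in (V : Filter J), ∃ k' i, i ≠ s k' ∧ f (k, j) = c k' i := h4
  obtain ⟨k, hk1, hk2⟩ := (h2.and h5).exists
  obtain ⟨j, hj1, k', i, hj2, hj3⟩ := ((hs k hk1).and hk2).exists
  rw [hj1] at hj3
  obtain ⟨h6, h7⟩ := hc _ _ _ _ hj3
  subst h6
  exact hj2 h7.symm

end Pool.Agent.Q299.Enl
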