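import Mathlib

set_option autoImplicit false

namespace Pool.Agent.Q299.MinTop

open Filter Topology

/-- `G` has finitely many orbits on `n`-tuples for every `n`. -/
def Olig {Ω : Type} (G : Subgroup (Equiv.Perm Ω)) : Prop :=
  ∀ n : ℕ, ∃ R : Set (Fin n → Ω), R.Finite ∧
    ∀ x : Fin n → Ω, ∃ r ∈ R, ∃ g ∈ G, ∀ i, g (x i) = r i

theorem olig_pairs {Ω : Type} [Nonempty Ω] {G : Subgroup (Equiv.Perm Ω)} (hG : Olig G) (n : ℕ) :
    ∃ R : Set ((ℕ → Ω) × (ℕ → Ω)), R.Finite ∧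
      ∀ x : (ℕ → Ω) × (ℕ → Ω), ∃ r ∈ R, ∃ g ∈ G, ∀ i < n, g (x.1 i) = r.1 i ∧ g (x.2 i) = r.2 i := by
  obtain ⟨R, hR, h⟩ := hG (2 * n)
  classical
  let o : Ω := Classical.arbitrary Ω
  refine ⟨(fun r : Fin (2 * n) → Ω =>
    ((fun i => if h : i < n then r ⟨2 * i, by omega⟩ else o),
     (fun i => if h : i < n then r ⟨2 * i + 1, by omega⟩ else o))) '' R, hR.image _, ?_⟩
  intro x
  obtain ⟨r, hr, g, hg, hgr⟩ := h (fun i => if i.1 % 2 = 0 then x.1 (i.1 / 2) else x.2 (i.1 / 2))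
  refine ⟨_, ⟨r, hr, rfl⟩, g, hg, ?_⟩
  intro i hi
  constructor
  · simp only [hi, dif_pos]
    rw [← hgr ⟨2 * i, by omega⟩]
    have h1 : (2 * i) % 2 = 0 := by omega
    have h2 : (2 * i) / 2 = i := by omega
    simp only [h1, h2, if_true]
  · simp only [hi, dif_pos]
    rw [← hgr ⟨2 * i + 1, by omega⟩]
    have h1 : ¬ ((2 * i + 1) % 2 = 0) := by omega
    have h2 : (2 * i + 1) / 2 = i := by omega
    simp only [h1, h2, if_false]

/-- The diagonal lemma: along an ultrafilter, pairs `(id, s i)` can be moved by elements of an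
oligomorphic group so that they converge. -/
theorem diag {Ω : Type} [Countable Ω] {G : Subgroup (Equiv.Perm Ω)} (hG : Olig G)
    {ι : Type*} (U : Ultrafilter ι) (s : ι → Ω → Ω) :
    ∃ t r : Ω → Ω, ∀ F : Finset Ω, ∀ᶠ i in (U : Filter ι), ∃ g ∈ G, ∀ x ∈ F,
      g x = t x ∧ g (s i x) = r x := by
  classical
  rcases isEmpty_or_nonempty Ω with hΩ | hΩ
  · refine ⟨id, id, fun F => Filter.Eventually.of_forall fun i => ⟨1, G.one_mem, ?_⟩⟩
    intro x
    exact (hΩ.false x).elim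
  obtain ⟨e, he⟩ := exists_surjective_nat Ω
  let P : ℕ → (ℕ → Ω) × (ℕ → Ω) → Prop := fun n q =>
    ∀ᶠ i in (U : Filter ι), ∃ g ∈ G, ∀ k < n, g (e k) = q.1 k ∧ g (s i (e k)) = q.2 k
  have hex : ∀ n, ∃ q, P n q := by
    intro n
    obtain ⟨R, hR, h⟩ := olig_pairs hG n
    have h1 : ∀ᶠ i in (U : Filter ι), ∃ q ∈ R, ∃ g ∈ G, ∀ k < n,
        g (e k) = q.1 k ∧ g (s i (e k)) = q.2 k :=
      Filter.Eventually.of_forall fun i => h (e, fun k => s i (e k))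
    rw [Ultrafilter.eventually_exists_mem_iff hR] at h1
    obtain ⟨q, -, hq⟩ := h1
    exact ⟨q, hq⟩
  have hstep : ∀ n (q : (ℕ → Ω) × (ℕ → Ω)), P n q → ∃ q', P (n + 1) q' ∧
      ∀ k < n, q'.1 k = q.1 k ∧ q'.2 k = q.2 k := by
    intro n q hq
    obtain ⟨q'', hq''⟩ := hex (n + 1)
    obtain ⟨i, ⟨g, hg, hgq⟩, ⟨g', hg', hgq'⟩⟩ := (hq.and hq'').exists
    refine ⟨(fun k => g (g'.symm (q''.1 k)), fun k => g (g'.symm (q''.2 k))), ?_, ?_⟩
    · filter_upwards [hq''] with j hj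
      obtain ⟨g₂, hg₂, h₂⟩ := hj
      refine ⟨g * g'⁻¹ * g₂, G.mul_mem (G.mul_mem hg (G.inv_mem hg')) hg₂, ?_⟩
      intro k hk
      obtain ⟨ha, hb⟩ := h₂ k hk
      constructor
      · change g (g'.symm (g₂ (e k))) = _
        rw [ha]
      · change g (g'.symm (g₂ (s j (e k)))) = _
        rw [hb]
    · intro k hk
      obtain ⟨ha, hb⟩ := hgq k hk
      obtain ⟨ha', hb'⟩ := hgq' k (by omega)
      constructor
      · change g (g'.symm (q''.1 k)) = _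
        rw [← ha', Equiv.symm_apply_apply, ha]
      · change g (g'.symm (q''.2 k)) = _
        rw [← hb', Equiv.symm_apply_apply, hb]
  choose! nx hnx using hstep
  obtain ⟨q0, hq0⟩ := hex 0
  let σ : ℕ → (ℕ → Ω) × (ℕ → Ω) := fun n => Nat.rec q0 (fun n q => nx n q) n
  have hσ : ∀ n, P n (σ n) := by
    intro n
    induction n with
    | zero => exact hq0
    | succ n ih => exact (hnx n (σ n) ih).1
  have hσ1 : ∀ n, ∀ k < n, (σ (n + 1)).1 k = (σ n).1 k ∧ (σ (n + 1)).2 k = (σ n).2 k :=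
    fun n => (hnx n (σ n) (hσ n)).2
  have hσ2 : ∀ m k, k < m → (σ m).1 k = (σ (k + 1)).1 k ∧ (σ m).2 k = (σ (k + 1)).2 k := by
    intro m
    induction m with
    | zero => intro k hk; omega
    | succ m ih =>
      intro k hk
      rcases Nat.lt_succ_iff_lt_or_eq.1 hk with h | h
      · obtain ⟨h1, h2⟩ := hσ1 m k h
        obtain ⟨h3, h4⟩ := ih k h
        exact ⟨h1.trans h3, h2.trans h4⟩
      · subst h
        exact ⟨rfl, rfl⟩
  choose idx hidx using he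
  refine ⟨fun x => (σ (idx x + 1)).1 (idx x), fun x => (σ (idx x + 1)).2 (idx x), ?_⟩
  intro F
  have hb : ∃ N, ∀ x ∈ F, idx x < N := by
    refine ⟨F.sup idx + 1, fun x hx => ?_⟩
    have := Finset.le_sup (f := idx) hx
    omega
  obtain ⟨N, hN⟩ := hb
  filter_upwards [hσ N] with i hi
  obtain ⟨g, hg, h⟩ := hi
  refine ⟨g, hg, fun x hx => ?_⟩
  obtain ⟨h1, h2⟩ := h (idx x) (hN x hx)
  obtain ⟨h3, h4⟩ := hσ2 N (idx x) (hN x hx)
  rw [hidx] at h1 h2
  exact ⟨h1.trans h3, h2.trans h4⟩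

/-- A set of self-maps is closed in the topology of pointwise convergence iff it contains every map
that it approximates on finite sets. -/
def FinClosed {Ω : Type} (S : Set (Ω → Ω)) : Prop :=
  ∀ f : Ω → Ω, (∀ F : Finset Ω, ∃ g ∈ S, ∀ x ∈ F, g x = f x) → f ∈ S

/-- Core theorem: let `S` be a closed submonoid of `Ω^Ω`, with `Ω` countable, containing an
oligomorphic permutation group. Suppose `op : Set S → Prop` is the family of open sets of a Hausdorff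
semigroup topology coarser than the pointwise one. Then evaluations are open. -/
theorem core {Ω : Type} [Countable Ω] {G : Subgroup (Equiv.Perm Ω)} (hG : Olig G)
    (S : Set (Ω → Ω)) (hS : FinClosed S) (hGS : ∀ g ∈ G, (g : Ω → Ω) ∈ S)
    (hmul : ∀ f ∈ S, ∀ g ∈ S, f ∘ g ∈ S)
    (τ : TopologicalSpace S) (hT2 : @T2Space S τ)
    (hle : ∀ (V : Set S), @IsOpen S τ V → ∀ f ∈ V, ∃ F : Finset Ω, ∀ g : S,
      (∀ x ∈ F, g.1 x = f.1 x) → g ∈ V)
    (hcont : ∀ (f g : S) (V : Set S), @IsOpen S τ V →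
      (⟨f.1 ∘ g.1, hmul _ f.2 _ g.2⟩ : S) ∈ V →
      ∃ A B : Set S, @IsOpen S τ A ∧ @IsOpen S τ B ∧ f ∈ A ∧ g ∈ B ∧
        ∀ f' ∈ A, ∀ g' ∈ B, (⟨f'.1 ∘ g'.1, hmul _ f'.2 _ g'.2⟩ : S) ∈ V)
    (a b : Ω) : @IsOpen S τ {f : S | f.1 a = b} := by
  classical
  rw [@isOpen_iff_mem_nhds S τ]
  intro s hs
  by_contra hn
  have hNe : (@nhds S τ s ⊓ 𝓟 {f : S | f.1 a = b}ᶜ).NeBot := by
    rw [Filter.inf_principal_neBot_iff]
    intro U hU
    by_contra hemp
    rw [Set.not_nonempty_iff_eq_empty] at hemp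
    apply hn
    refine Filter.mem_of_superset hU ?_
    intro f hf
    by_contra hfn
    have : f ∈ U ∩ {f : S | f.1 a = b}ᶜ := ⟨hf, hfn⟩
    rw [hemp] at this
    exact this
  let U : Ultrafilter S := @Ultrafilter.of S _ hNe
  have hU : (U : Filter S) ≤ @nhds S τ s ⊓ 𝓟 {f : S | f.1 a = b}ᶜ := Ultrafilter.of_le _
  have hU1 : (U : Filter S) ≤ @nhds S τ s := hU.trans inf_le_left
  have hU2 : {f : S | f.1 a = b}ᶜ ∈ (U : Filter S) :=
    hU (Filter.mem_inf_of_right (Filter.mem_principal_self _))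
  obtain ⟨t, r, htr⟩ := diag hG U (fun f => f.1)
  have htS : t ∈ S := by
    apply hS
    intro F
    obtain ⟨i, g, hg, h⟩ := (htr F).exists
    exact ⟨g, hGS g hg, fun x hx => (h x hx).1⟩
  have hrS : r ∈ S := by
    apply hS
    intro F
    obtain ⟨i, g, hg, h⟩ := (htr F).exists
    exact ⟨g ∘ i.1, hmul _ (hGS g hg) _ i.2, fun x hx => (h x hx).2⟩
  have hrts : r = t ∘ s.1 := by
    by_contra hne
    have hne' : (⟨r, hrS⟩ : S) ≠ ⟨t ∘ s.1, hmul _ htS _ s.2⟩ := by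
      intro h
      exact hne (congrArg Subtype.val h)
    obtain ⟨A, B, hA, hB, hrA, htB, hAB⟩ := @T2Space.t2 S τ hT2 _ _ hne'
    obtain ⟨V, W, hV, hW, htV, hsW, hVW⟩ := hcont ⟨t, htS⟩ s B hB htB
    obtain ⟨F1, hF1⟩ := hle V hV _ htV
    obtain ⟨F2, hF2⟩ := hle A hA _ hrA
    have hWU : W ∈ (U : Filter S) := hU1 (by let _ := τ; exact IsOpen.mem_nhds hW hsW)
    obtain ⟨f, ⟨g, hg, h⟩, hfW⟩ := ((htr (F1 ∪ F2)).and hWU).exists
    have h1 : (⟨g, hGS g hg⟩ : S) ∈ V := hF1 _ fun x hx => (h x (Finset.mem_union_left _ hx)).1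
    have h2 : (⟨(g : Ω → Ω) ∘ f.1, hmul _ (hGS g hg) _ f.2⟩ : S) ∈ A :=
      hF2 _ fun x hx => (h x (Finset.mem_union_right _ hx)).2
    have h3 := hVW _ h1 f hfW
    exact Set.disjoint_left.1 hAB h2 h3
  obtain ⟨f, ⟨g, hg, h⟩, hf⟩ := ((htr {a, s.1 a}).and hU2).exists
  apply hf
  have h1 := (h (s.1 a) (by simp)).1
  have h2 := (h a (by simp)).2
  rw [hrts] at h2
  have h3 : g (f.1 a) = g (s.1 a) := by rw [h1, h2]; rfl
  have h4 := g.injective h3
  change f.1 a = b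
  rw [h4]
  exact hs

end Pool.Agent.Q299.MinTop
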