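import Mathlib

/-!
# Actions of the symmetric group of `ℕ` on countable sets have finite supports

(The small index property of the symmetric group of `ℕ`, for subgroups of countable index.)
-/

set_option autoImplicit false

namespace Pool.Agent.Q299.SmallIndex

open Equiv

theorem apply_inv {A : Type*} (f : Perm A) (x : A) : f (f⁻¹ x) = x := f.apply_symm_apply x

theorem inv_apply {A : Type*} (f : Perm A) (x : A) : f⁻¹ (f x) = x := f.symm_apply_apply x

/-- Extension of a partial injection of `ℕ` to a permutation. -/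
theorem exists_perm (Z : Set ℕ) (f : ℕ → ℕ) (hf : Set.InjOn f Z) (hZ : Zᶜ.Infinite)
    (hf' : (f '' Z)ᶜ.Infinite) : ∃ β : Perm ℕ, ∀ z ∈ Z, β z = f z := by
  classical
  have e1 : {x // x ∈ Z} ≃ {x // x ∈ f '' Z} := Set.BijOn.equiv f ⟨Set.mapsTo_image f Z, hf, Set.surjOn_image f Z⟩
  have he1 : ∃ e1 : {x // x ∈ Z} ≃ {x // x ∈ f '' Z}, ∀ x, (e1 x : ℕ) = f x :=
    ⟨Set.BijOn.equiv f ⟨Set.mapsTo_image f Z, hf, Set.surjOn_image f Z⟩, fun x => rfl⟩
  obtain ⟨e, he⟩ := he1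
  have i1 : Infinite {x // x ∉ Z} := hZ.to_subtype
  have i2 : Infinite {x // x ∉ f '' Z} := hf'.to_subtype
  have e2 : {x // ¬ x ∈ Z} ≃ {x // ¬ x ∈ f '' Z} := by
    have := nonempty_denumerable {x // x ∉ Z}
    have := nonempty_denumerable {x // x ∉ f '' Z}
    exact Classical.choice (by
      obtain ⟨d1⟩ := nonempty_denumerable {x // x ∉ Z}
      obtain ⟨d2⟩ := nonempty_denumerable {x // x ∉ f '' Z}
      exact ⟨(Denumerable.eqv _).trans (Denumerable.eqv _).symm⟩)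
  refine ⟨Equiv.subtypeCongr e e2, fun z hz => ?_⟩
  rw [← he ⟨z, hz⟩]
  simp [Equiv.subtypeCongr, Equiv.sumCompl_symm_apply_of_pos, hz]

section full

variable {Z : Type} (ρ : Perm (ℕ × Z) → ℕ → ℕ) (h1 : ∀ y, ρ 1 y = y)
  (hm : ∀ a b y, ρ (a * b) y = ρ a (ρ b y)) (y : ℕ)

include h1 hm in
theorem full : ∃ i : ℕ, ∀ p : Perm Z, ∃ h : Perm (ℕ × Z), ρ h y = y ∧
    ∀ x, h (i, x) = (i, p x) := by
  have key : ∃ i : ℕ, ∀ p : Perm Z, ∃ h : Perm (ℕ × Z), ρ h y = i ∧ ∀ x, h (i, x) = (i, p x) := by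
    by_contra hcon
    push Not at hcon
    choose p hp using hcon
    let π : Perm (ℕ × Z) :=
      { toFun := fun x => (x.1, p x.1 x.2)
        invFun := fun x => (x.1, (p x.1).symm x.2)
        left_inv := fun x => by simp
        right_inv := fun x => by simp }
    obtain ⟨x, hx⟩ := hp (ρ π y) π rfl
    exact hx rfl
  obtain ⟨i, hi⟩ := key
  refine ⟨i, fun p => ?_⟩
  obtain ⟨u, hu, hu'⟩ := hi 1
  obtain ⟨v, hv, hv'⟩ := hi p
  refine ⟨u⁻¹ * v, ?_, ?_⟩
  · rw [hm, hv, ← hu, ← hm, inv_mul_cancel, h1]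
  · intro x
    rw [Perm.mul_apply, hv', Perm.inv_eq_iff_eq, hu']
    rfl

end full

/-- The embedding of a slice. -/
def sl {Z : Type} (i : ℕ) : Z ↪ ℕ × Z := ⟨fun x => (i, x), fun x y h => (Prod.mk.inj h).2⟩

theorem via_apply {A B : Type} (e : Perm A) (ι : A ↪ B) (x : A) :
    Perm.viaEmbeddingHom ι e (ι x) = ι (e x) := Perm.viaEmbedding_apply e ι x

theorem via_not {A B : Type} (e : Perm A) (ι : A ↪ B) (x : B) (hx : x ∉ Set.range ι) :
    Perm.viaEmbeddingHom ι e x = x := Perm.viaEmbedding_apply_of_notMem e ι x hx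

/-- Conjugation of a lifted permutation. -/
theorem conj_via {A B : Type} (ι : A ↪ B) (h : Perm B) (p k : Perm A)
    (hp : ∀ x, h (ι x) = ι (p x)) :
    h * Perm.viaEmbeddingHom ι k * h⁻¹ = Perm.viaEmbeddingHom ι (p * k * p⁻¹) := by
  ext x
  have hp' : ∀ x, h⁻¹ (ι x) = ι (p⁻¹ x) := by
    intro x
    rw [Perm.inv_eq_iff_eq, hp, apply_inv]
  by_cases hx : x ∈ Set.range ι
  · obtain ⟨z, rfl⟩ := hx
    rw [via_apply, Perm.mul_apply, Perm.mul_apply, hp', via_apply, hp]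
    rfl
  · rw [via_not _ _ _ hx, Perm.mul_apply, Perm.mul_apply, via_not, apply_inv]
    rintro ⟨z, hz⟩
    apply hx
    refine ⟨p z, ?_⟩
    rw [← hp, hz, apply_inv]

theorem via_comp {A B C : Type} (ι : A ↪ B) (κ : B ↪ C) (e : Perm A) :
    Perm.viaEmbeddingHom κ (Perm.viaEmbeddingHom ι e) = Perm.viaEmbeddingHom (ι.trans κ) e := by
  ext x
  by_cases hx : x ∈ Set.range κ
  · obtain ⟨z, rfl⟩ := hx
    rw [via_apply]
    by_cases hz : z ∈ Set.range ι
    · obtain ⟨w, rfl⟩ := hz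
      rw [via_apply]
      exact (via_apply e (ι.trans κ) w).symm
    · rw [via_not _ _ _ hz, via_not]
      rintro ⟨w, hw⟩
      exact hz ⟨w, κ.injective hw⟩
  · rw [via_not _ _ _ hx, via_not]
    rintro ⟨w, hw⟩
    exact hx ⟨ι w, hw⟩

/-- The swindle: every permutation supported in the slice `{0} × ℕ` of `ℤ × ℕ` is a commutator. -/
theorem swindle (σ : Perm ℕ) : ∃ b a : Perm (ℤ × ℕ), ∀ κ : ℕ ↪ ℤ × ℕ, (∀ n, κ n = (0, n)) →
    b * a * b⁻¹ * a⁻¹ = Perm.viaEmbeddingHom κ σ := by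
  classical
  let b : Perm (ℤ × ℕ) :=
    { toFun := fun x => if 0 ≤ x.1 then (x.1, σ x.2) else x
      invFun := fun x => if 0 ≤ x.1 then (x.1, σ.symm x.2) else x
      left_inv := fun x => by by_cases h : 0 ≤ x.1 <;> simp [h]
      right_inv := fun x => by by_cases h : 0 ≤ x.1 <;> simp [h] }
  let a : Perm (ℤ × ℕ) :=
    { toFun := fun x => (x.1 + 1, x.2)
      invFun := fun x => (x.1 - 1, x.2)
      left_inv := fun x => by simp
      right_inv := fun x => by simp }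
  refine ⟨b, a, fun κ hκ => ?_⟩
  ext1 ⟨z, n⟩
  have ha : a⁻¹ (z, n) = (z - 1, n) := rfl
  have hb : b⁻¹ (z - 1, n) = if 0 ≤ z - 1 then (z - 1, σ.symm n) else (z - 1, n) := rfl
  have hrhs : Perm.viaEmbeddingHom κ σ (z, n) = if z = 0 then (0, σ n) else (z, n) := by
    by_cases hz : z = 0
    · subst hz
      rw [if_pos rfl, ← hκ, via_apply, hκ]
    · rw [if_neg hz, via_not]
      rintro ⟨m, hm⟩
      rw [hκ] at hm
      exact hz (Prod.mk.inj hm).1.symm
  rw [hrhs, Perm.mul_apply, Perm.mul_apply, Perm.mul_apply, ha, hb]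
  by_cases h1 : 0 ≤ z - 1
  · rw [if_pos h1, if_neg (by omega)]
    change b (z - 1 + 1, σ.symm n) = _
    change (if 0 ≤ z - 1 + 1 then (z - 1 + 1, σ (σ.symm n)) else _) = _
    rw [if_pos (by omega)]
    simp
  · rw [if_neg h1]
    change b (z - 1 + 1, n) = _
    change (if 0 ≤ z - 1 + 1 then (z - 1 + 1, σ n) else (z - 1 + 1, n)) = _
    by_cases h2 : z = 0
    · subst h2
      simp
    · rw [if_neg (by omega), if_neg h2]
      simp

/-- Some infinite set supports only permutations fixing `y`. -/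
theorem exists_slice (ρ : Perm (ℕ × ℕ × ℤ × ℕ) → ℕ → ℕ) (h1 : ∀ y, ρ 1 y = y)
    (hm : ∀ a b y, ρ (a * b) y = ρ a (ρ b y)) (y : ℕ) :
    ∃ i j : ℕ, ∀ κ : ℕ ↪ ℕ × ℕ × ℤ × ℕ, (∀ n, κ n = (i, j, 0, n)) →
      ∀ σ : Perm ℕ, ρ (Perm.viaEmbeddingHom κ σ) y = y := by
  obtain ⟨i, hi⟩ := full ρ h1 hm y
  let ρ' : Perm (ℕ × ℤ × ℕ) → ℕ → ℕ := fun q => ρ (Perm.viaEmbeddingHom (sl i) q)
  have h1' : ∀ y, ρ' 1 y = y := by
    intro y
    change ρ (Perm.viaEmbeddingHom (sl i) 1) y = y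
    rw [map_one, h1]
  have hm' : ∀ a b y, ρ' (a * b) y = ρ' a (ρ' b y) := by
    intro a b y
    change ρ (Perm.viaEmbeddingHom (sl i) (a * b)) y = _
    rw [map_mul, hm]
  obtain ⟨j, hj⟩ := full ρ' h1' hm' y
  have inv_fix : ∀ g, ρ g y = y → ρ g⁻¹ y = y := by
    intro g hg
    conv_lhs => rw [← hg]
    rw [← hm, inv_mul_cancel, h1]
  have hcomm : ∀ a b : Perm (ℤ × ℕ),
      ρ (Perm.viaEmbeddingHom (sl i) (Perm.viaEmbeddingHom (sl j) (b * a * b⁻¹ * a⁻¹))) y = y := by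
    intro a b
    obtain ⟨k, hk, hka⟩ := hj a
    obtain ⟨h, hh, hhb⟩ := hi (Perm.viaEmbeddingHom (sl j) b)
    have e1 := conj_via (sl i) h (Perm.viaEmbeddingHom (sl j) b) k hhb
    have e2 := conj_via (sl j) k a b⁻¹ hka
    have e3 : Perm.viaEmbeddingHom (sl i) (Perm.viaEmbeddingHom (sl j) (b * a * b⁻¹ * a⁻¹)) =
        h * Perm.viaEmbeddingHom (sl i) k * h⁻¹ * (Perm.viaEmbeddingHom (sl i) k)⁻¹ := by
      rw [e1, ← map_inv (Perm.viaEmbeddingHom (sl i)), ← map_mul (Perm.viaEmbeddingHom (sl i))]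
      congr 1
      rw [show b * a * b⁻¹ * a⁻¹ = b * (a * b⁻¹ * a⁻¹) by group,
        map_mul (Perm.viaEmbeddingHom (sl j)) b, ← e2, map_inv (Perm.viaEmbeddingHom (sl j))]
      group
    rw [e3, hm, hm, hm]
    have hk' : ρ (Perm.viaEmbeddingHom (sl i) k) y = y := hk
    rw [inv_fix _ hk', inv_fix _ hh, hk', hh]
  refine ⟨i, j, fun κ hκ σ => ?_⟩
  obtain ⟨b, a, hba⟩ := swindle σ
  let κ0 : ℕ ↪ ℤ × ℕ := ⟨fun n => (0, n), fun x y h => (Prod.mk.inj h).2⟩
  have hκ0 : κ = κ0.trans ((sl j).trans (sl i)) := by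
    ext1 n
    rw [hκ]
    rfl
  have := hcomm a b
  rw [hba κ0 (fun n => rfl), via_comp, via_comp, ← hκ0] at this
  exact this

variable (ρ : Perm ℕ → ℕ → ℕ)

/-- `Z` supports `y`. -/
def Supp (Z : Set ℕ) (y : ℕ) : Prop := ∀ α : Perm ℕ, (∀ z ∈ Z, α z = z) → ρ α y = y

variable {ρ} (h1 : ∀ y, ρ 1 y = y) (hm : ∀ a b y, ρ (a * b) y = ρ a (ρ b y))

include h1 hm in
theorem Supp.eq {Z : Set ℕ} {y : ℕ} (h : Supp ρ Z y) {α β : Perm ℕ} (hab : ∀ z ∈ Z, α z = β z) :
    ρ α y = ρ β y := by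
  have h2 : ρ (β⁻¹ * α) y = y := by
    apply h
    intro z hz
    rw [Perm.mul_apply, hab z hz, inv_apply]
  have h3 : ρ (β * (β⁻¹ * α)) y = ρ β y := by rw [hm, h2]
  rwa [mul_inv_cancel_left] at h3

include h1 hm in
theorem Supp.map {Z : Set ℕ} {y : ℕ} (h : Supp ρ Z y) (β : Perm ℕ) :
    Supp ρ (β '' Z) (ρ β y) := by
  intro α hα
  rw [← hm]
  apply h.eq h1 hm
  intro z hz
  exact hα _ ⟨z, hz, rfl⟩

include h1 hm in
/-- Every point has an infinite co-infinite support. -/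
theorem exists_coinfinite (y : ℕ) : ∃ Z : Set ℕ, Zᶜ.Infinite ∧ Supp ρ Z y := by
  classical
  obtain ⟨φ⟩ : Nonempty (ℕ ≃ ℕ × ℕ × ℤ × ℕ) := by
    obtain ⟨d⟩ := nonempty_denumerable (ℕ × ℕ × ℤ × ℕ)
    exact ⟨(Denumerable.eqv _).symm⟩
  let c : Perm (ℕ × ℕ × ℤ × ℕ) → Perm ℕ := fun q => (φ.trans q).trans φ.symm
  obtain ⟨i, j, hij⟩ := exists_slice (fun q => ρ (c q))
    (by
      intro y
      have : c 1 = 1 := by ext x; simp [c]
      change ρ (c 1) y = y
      rw [this, h1])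
    (by
      intro a b y
      have : c (a * b) = c a * c b := by ext x; simp [c]
      change ρ (c (a * b)) y = _
      rw [this, hm]) y
  let κ : ℕ ↪ ℕ × ℕ × ℤ × ℕ := ⟨fun n => (i, j, 0, n), fun x y h => by simpa using h⟩
  refine ⟨{x | φ x ∉ Set.range κ}, ?_, ?_⟩
  · have hinj : Function.Injective (fun n => φ.symm (κ n)) := φ.symm.injective.comp κ.injective
    refine (Set.infinite_range_of_injective hinj).mono ?_
    rintro _ ⟨n, rfl⟩
    simp
  · intro α hα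
    have hα1 : ∀ n, ∃ m, φ (α (φ.symm (κ n))) = κ m := by
      intro n
      by_contra hcon
      have h2 : α (φ.symm (κ n)) ∈ {x | φ x ∉ Set.range κ} := by
        rintro ⟨m, hm⟩
        exact hcon ⟨m, hm.symm⟩
      have h3 := hα _ h2
      have h4 := α.injective h3
      rw [h4] at h2
      exact h2 ⟨n, by simp⟩
    have hα2 : ∀ n, ∃ m, φ (α.symm (φ.symm (κ n))) = κ m := by
      intro n
      by_contra hcon
      have h2 : α.symm (φ.symm (κ n)) ∈ {x | φ x ∉ Set.range κ} := by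
        rintro ⟨m, hm⟩
        exact hcon ⟨m, hm.symm⟩
      have h3 := hα _ h2
      rw [Equiv.apply_symm_apply] at h3
      rw [← h3] at h2
      exact h2 ⟨n, by simp⟩
    choose f hf using hα1
    choose g hg using hα2
    let σ : Perm ℕ :=
      { toFun := f
        invFun := g
        left_inv := fun n => by
          apply κ.injective
          rw [← hg, ← hf]
          simp
        right_inv := fun n => by
          apply κ.injective
          rw [← hf, ← hg]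
          simp }
    have := hij κ (fun n => rfl) σ
    have hc : c (Perm.viaEmbeddingHom κ σ) = α := by
      ext x
      change φ.symm (Perm.viaEmbeddingHom κ σ (φ x)) = α x
      by_cases hx : φ x ∈ Set.range κ
      · obtain ⟨n, hn⟩ := hx
        rw [← hn, via_apply]
        change φ.symm (κ (f n)) = α x
        rw [← hf, hn]
        simp
      · rw [via_not _ _ _ hx, Equiv.symm_apply_apply]
        exact (hα x hx).symm
    change ρ (c (Perm.viaEmbeddingHom κ σ)) y = y at this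
    rwa [hc] at this

include h1 hm in
/-- Intersections of supports, if the union is co-infinite. -/
theorem Supp.inter {Z₁ Z₂ : Set ℕ} {y : ℕ} (hs1 : Supp ρ Z₁ y) (hs2 : Supp ρ Z₂ y)
    (hco : (Z₁ ∪ Z₂)ᶜ.Infinite) : Supp ρ (Z₁ ∩ Z₂) y := by
  classical
  -- moving the part outside `Z₁`
  have key : ∀ f : ℕ → ℕ, Function.Injective f → (∀ v, f v ∉ Z₁) →
      (Z₁ ∪ f '' (Z₂ \ Z₁))ᶜ.Infinite → Supp ρ ((Z₁ ∩ Z₂) ∪ f '' (Z₂ \ Z₁)) y := by
    intro f hf hfZ hinf
    obtain ⟨π, hπ⟩ := exists_perm (Z₁ ∪ Z₂) (fun z => if z ∈ Z₁ then z else f z)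
      (by
        intro a ha b hb hab
        by_cases h1 : a ∈ Z₁ <;> by_cases h2 : b ∈ Z₁ <;> simp only [h1, h2, if_true, if_false] at hab
        · exact hab
        · exact (hfZ b (hab ▸ h1)).elim
        · exact (hfZ a (hab.symm ▸ h2)).elim
        · exact hf hab) hco
      (by
        refine hinf.mono ?_
        intro x hx hx'
        apply hx
        obtain ⟨z, hz, rfl⟩ := hx'
        by_cases h1 : z ∈ Z₁
        · left; simpa [h1] using h1
        · right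
          simp only [h1, if_false]
          exact ⟨z, ⟨hz.resolve_left h1, h1⟩, rfl⟩)
    have hπ1 : ∀ z ∈ Z₁, π z = z := by
      intro z hz
      rw [hπ z (Or.inl hz)]
      simp [hz]
    have hπ2 : ∀ z ∈ Z₂ \ Z₁, π z = f z := by
      intro z hz
      rw [hπ z (Or.inr hz.1)]
      simp [hz.2]
    have h2 := hs2.map h1 hm π
    rw [hs1 π hπ1] at h2
    intro α hα
    apply h2
    rintro _ ⟨z, hz, rfl⟩
    by_cases hz1 : z ∈ Z₁
    · rw [hπ1 z hz1]
      exact hα z (Or.inl ⟨hz1, hz⟩)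
    · rw [hπ2 z ⟨hz, hz1⟩]
      exact hα _ (Or.inr ⟨z, ⟨hz, hz1⟩, rfl⟩)
  intro α hα
  have hN : Z₁ᶜ.Infinite := hco.mono (Set.compl_subset_compl.2 Set.subset_union_left)
  let ν := hN.natEmbedding
  have hν : ∀ k, (ν k : ℕ) ∉ Z₁ := fun k => (ν k).2
  have hνi : ∀ k l, (ν k : ℕ) = ν l → k = l := fun k l h => ν.injective (Subtype.ext h)
  let M : Set ℕ := Set.range fun k => (ν (3 * k + 2) : ℕ)
  have hM : M.Infinite := Set.infinite_range_of_injective fun k l h => by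
    have := hνi _ _ h; omega
  have hcase : ∃ f : ℕ → ℕ, Function.Injective f ∧ (∀ v, f v ∉ Z₁) ∧ (∀ v, f v ∉ M) ∧
      (M \ (α '' (f '' (Z₂ \ Z₁)))).Infinite := by
    by_contra hcon
    push Not at hcon
    have hf1 := hcon (fun v => (ν (3 * v) : ℕ)) (fun k l h => by have := hνi _ _ h; omega)
      (fun v => hν _) (fun v ⟨k, hk⟩ => by have := hνi _ _ hk; omega)
    have hf2 := hcon (fun v => (ν (3 * v + 1) : ℕ)) (fun k l h => by have := hνi _ _ h; omega)
      (fun v => hν _) (fun v ⟨k, hk⟩ => by have := hνi _ _ hk; omega)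
    apply hM
    refine (hf1.union hf2).subset ?_
    intro x hx
    by_contra hx'
    rw [Set.mem_union, not_or] at hx'
    have h3 : x ∈ α '' ((fun v => (ν (3 * v) : ℕ)) '' (Z₂ \ Z₁)) := by
      by_contra h; exact hx'.1 ⟨hx, h⟩
    have h4 : x ∈ α '' ((fun v => (ν (3 * v + 1) : ℕ)) '' (Z₂ \ Z₁)) := by
      by_contra h; exact hx'.2 ⟨hx, h⟩
    obtain ⟨_, ⟨v, -, rfl⟩, hv⟩ := h3
    obtain ⟨_, ⟨w, -, rfl⟩, hw⟩ := h4
    have := hνi _ _ (α.injective (hv.trans hw.symm))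
    omega
  obtain ⟨f, hf, hfZ, hfM, hinf⟩ := hcase
  let μ := hinf.natEmbedding
  have hμM : ∀ k, (μ k : ℕ) ∈ M := fun k => (μ k).2.1
  have hμα : ∀ k, (μ k : ℕ) ∉ α '' (f '' (Z₂ \ Z₁)) := fun k => (μ k).2.2
  have hμi : ∀ k l, (μ k : ℕ) = μ l → k = l := fun k l h => μ.injective (Subtype.ext h)
  have hMZ : ∀ x ∈ M, x ∉ Z₁ := by rintro _ ⟨k, rfl⟩; exact hν _
  let g : ℕ → ℕ := fun v => μ (2 * v)
  have hg : Function.Injective g := fun k l h => by have := hμi _ _ h; omega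
  have hsf := key f hf hfZ (by
    refine hM.mono ?_
    rintro x hx (h | ⟨v, -, rfl⟩)
    · exact hMZ x hx h
    · exact hfM v hx)
  have hodd : (Set.range fun k => (μ (2 * k + 1) : ℕ)).Infinite :=
    Set.infinite_range_of_injective fun k l h => by have := hμi _ _ h; omega
  have hsg := key g hg (fun v => hMZ _ (hμM _)) (by
    refine hodd.mono ?_
    rintro _ ⟨k, rfl⟩ (h | ⟨v, -, hv⟩)
    · exact hMZ _ (hμM _) h
    · have := hμi _ _ hv; omega)
  obtain ⟨β, hβ⟩ := exists_perm (((Z₁ ∩ Z₂) ∪ f '' (Z₂ \ Z₁)) ∪ g '' (Z₂ \ Z₁))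
    (fun x => if x ∈ M then x else α x)
    (by
      have hno : ∀ a b, a ∈ ((Z₁ ∩ Z₂) ∪ f '' (Z₂ \ Z₁)) ∪ g '' (Z₂ \ Z₁) →
          b ∈ ((Z₁ ∩ Z₂) ∪ f '' (Z₂ \ Z₁)) ∪ g '' (Z₂ \ Z₁) → a ∈ M → b ∉ M → a ≠ α b := by
        rintro a b ha hb h1 h2 rfl
        rcases hb with (hb | hb) | ⟨v, -, rfl⟩
        · rw [hα b hb] at h1; exact h2 h1
        · rcases ha with (ha | ⟨v, -, hv⟩) | ⟨v, -, hv⟩
          · exact hMZ _ h1 ha.1
          · exact hfM v (hv ▸ h1)
          · exact hμα (2 * v) (by rw [show ((μ (2 * v) : ℕ)) = α b from hv]; exact ⟨b, hb, rfl⟩)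
        · exact h2 (hμM _)
      intro a ha b hb hab
      by_cases h1 : a ∈ M <;> by_cases h2 : b ∈ M <;> simp only [h1, h2, if_true, if_false] at hab
      · exact hab
      · exact (hno a b ha hb h1 h2 hab).elim
      · exact (hno b a hb ha h2 h1 hab.symm).elim
      · exact α.injective hab)
    (by
      refine hodd.mono ?_
      rintro _ ⟨k, rfl⟩ ((h | ⟨v, -, hv⟩) | ⟨v, -, hv⟩)
      · exact hMZ _ (hμM _) h.1
      · exact hfM v (hv ▸ hμM _)
      · have := hμi _ _ hv; omega)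
    (by
      refine hodd.mono ?_
      rintro _ ⟨k, rfl⟩ ⟨x, hx, hxk⟩
      by_cases h1 : x ∈ M
      · simp only [h1, if_true] at hxk
        rcases hx with (h | ⟨v, -, hv⟩) | ⟨v, -, hv⟩
        · exact hMZ _ h1 h.1
        · exact hfM v (hv ▸ h1)
        · rw [← hv] at hxk
          have := hμi _ _ hxk; omega
      · simp only [h1, if_false] at hxk
        rcases hx with (h | h) | ⟨v, -, hv⟩
        · rw [hα x h] at hxk
          exact h1 (hxk ▸ hμM _)
        · exact hμα (2 * k + 1) (by rw [← hxk]; exact ⟨x, h, rfl⟩)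
        · exact h1 (hv ▸ hμM _))
  have e1 : ρ α y = ρ β y := by
    apply hsf.eq h1 hm
    intro z hz
    rw [hβ z (Or.inl hz), if_neg]
    rcases hz with h | ⟨v, -, rfl⟩
    · exact fun h' => hMZ _ h' h.1
    · exact hfM v
  have e2 : ρ β y = y := by
    apply hsg
    intro z hz
    rcases hz with h | ⟨v, hv, rfl⟩
    · rw [hβ z (Or.inl (Or.inl h))]
      by_cases h' : z ∈ M
      · rw [if_pos h']
      · rw [if_neg h', hα z h]
    · rw [hβ _ (Or.inr ⟨v, hv, rfl⟩), if_pos (hμM _)]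
  rw [e1, e2]

/-- A branch of the binary tree. -/
noncomputable def br (x : Set ℕ) (n : ℕ) : ℕ := by
  classical
  exact 2 * Encodable.encode (List.ofFn fun i : Fin n => decide ((i : ℕ) ∈ x))

theorem br_inj (x y : Set ℕ) (m n : ℕ) (h : br x m = br y n) :
    m = n ∧ ∀ i < m, (i ∈ x ↔ i ∈ y) := by
  classical
  have h1 : (List.ofFn fun i : Fin m => decide ((i : ℕ) ∈ x)) =
      List.ofFn fun i : Fin n => decide ((i : ℕ) ∈ y) := by
    apply Encodable.encode_injective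
    have : 2 * Encodable.encode (List.ofFn fun i : Fin m => decide ((i : ℕ) ∈ x)) =
      2 * Encodable.encode (List.ofFn fun i : Fin n => decide ((i : ℕ) ∈ y)) := h
    omega
  have h2 : m = n := by
    have := congrArg List.length h1
    simpa using this
  subst h2
  refine ⟨rfl, fun i hi => ?_⟩
  have h3 := List.ofFn_injective h1
  have h4 := congrFun h3 ⟨i, hi⟩
  simpa using h4

include h1 hm in
/-- **Small index property.** In an action of the symmetric group of `ℕ` on `ℕ`, every point has a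
finite support. -/
theorem finite_support (y : ℕ) : ∃ A : Finset ℕ, Supp ρ (A : Set ℕ) y := by
  classical
  obtain ⟨Z, hZ, hs⟩ := exists_coinfinite h1 hm y
  have hinf : ∀ S : Set ℕ, (∀ x ∈ S, x % 2 = 0) → Sᶜ.Infinite := by
    intro S hS
    refine (Set.infinite_range_of_injective (f := fun k : ℕ => 2 * k + 1) fun k l h => by
      simpa using h).mono ?_
    rintro _ ⟨k, rfl⟩ hk
    have h4 : (2 * k + 1) % 2 = 0 := hS _ hk
    omega
  have hb : ∀ x : Set ℕ, ∃ β : Perm ℕ, ∀ z ∈ Z, β z = br x z := by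
    intro x
    apply exists_perm Z (br x) (fun a _ b _ h => (br_inj x x a b h).1) hZ
    apply hinf
    rintro _ ⟨n, -, rfl⟩
    simp [br]
  choose β hβ using hb
  have hnc : ¬ Function.Injective (fun x : Set ℕ => ρ (β x) y) := Function.cantor_injective _
  rw [Function.Injective] at hnc
  push Not at hnc
  obtain ⟨x, x', hxy, hne⟩ := hnc
  have hs1 := hs.map h1 hm (β x)
  have hs2 := hs.map h1 hm (β x')
  rw [← hxy] at hs2
  have hs3 := hs1.inter h1 hm hs2 (by
    apply hinf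
    rintro _ (⟨z, hz, rfl⟩ | ⟨z, hz, rfl⟩)
    · rw [hβ x z hz]; simp [br]
    · rw [hβ x' z hz]; simp [br])
  have hs4 := hs3.map h1 hm (β x)⁻¹
  rw [← hm, inv_mul_cancel, h1] at hs4
  have hfin : (β x '' Z ∩ β x' '' Z).Finite := by
    obtain ⟨i, hi⟩ : ∃ i, ¬ (i ∈ x ↔ i ∈ x') := by
      by_contra hcon
      push Not at hcon
      exact hne (Set.ext hcon)
    refine ((Set.finite_lt_nat (i + 1)).image (br x)).subset ?_
    rintro w ⟨⟨z, hz, rfl⟩, ⟨z', hz', h⟩⟩
    rw [hβ x z hz] at h ⊢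
    rw [hβ x' z' hz'] at h
    obtain ⟨h2, h3⟩ := br_inj x x' z z' h.symm
    refine ⟨z, ?_, rfl⟩
    by_contra hlt
    have hlt' : i < z := by
      have : ¬ z < i + 1 := hlt
      omega
    exact hi (h3 i hlt')
  refine ⟨(hfin.image ((β x)⁻¹ : Perm ℕ)).toFinset, ?_⟩
  rw [Set.Finite.coe_toFinset]
  exact hs4

end Pool.Agent.Q299.SmallIndex
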