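import Mathlib
import Pool.Agent.Q299.SmallIndex
import Pool.Agent.Q299.MinTop
import Pool.Agent.H330.Ramsey

/-!
# Clones on `ℕ` containing all permutations: action of the injections
-/

set_option autoImplicit false

namespace Pool.Agent.Q299.EqClone

open Equiv Pool.Agent.Q299.SmallIndex

/-- Operations of arity `n + 1` on `ℕ`. -/
abbrev Op (n : ℕ) : Type := (Fin (n + 1) → ℕ) → ℕ

/-- The unary operation given by a self-map. -/
def un (f : ℕ → ℕ) : Op 0 := fun x => f (x 0)

/-- The situation: `C`, `D` clones on `ℕ` closed under pointwise limits, `C` contains all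
permutations, `X` is an isomorphism of `C` onto `D`. -/
structure Sit (C D : ∀ n, Set (Op n)) (X : ∀ n, Op n → Op n) : Prop where
  cproj : ∀ n (i : Fin (n + 1)), (fun x => x i) ∈ C n
  ccomp : ∀ {n m : ℕ} (f : Op n) (g : Fin (n + 1) → Op m), f ∈ C n → (∀ i, g i ∈ C m) →
    (fun x => f (fun i => g i x)) ∈ C m
  cclosed : ∀ n (f : Op n), (∀ F : Finset (Fin (n + 1) → ℕ), ∃ g ∈ C n, ∀ x ∈ F, g x = f x) → f ∈ C n
  perm : ∀ α : Perm ℕ, un α ∈ C 0
  dclosed : ∀ n (f : Op n), (∀ F : Finset (Fin (n + 1) → ℕ), ∃ g ∈ D n, ∀ x ∈ F, g x = f x) → f ∈ D n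
  mapsTo : ∀ n, ∀ f ∈ C n, X n f ∈ D n
  inj : ∀ n, ∀ f ∈ C n, ∀ g ∈ C n, X n f = X n g → f = g
  surj : ∀ n, ∀ h ∈ D n, ∃ f ∈ C n, X n f = h
  proj : ∀ n (i : Fin (n + 1)), X n (fun x => x i) = fun x => x i
  comp : ∀ {n m : ℕ} (f : Op n) (g : Fin (n + 1) → Op m), f ∈ C n → (∀ i, g i ∈ C m) →
    X m (fun x => f (fun i => g i x)) = fun y => X n f (fun i => X m (g i) y)

theorem exists_perm_finite (A : Set ℕ) (hA : A.Finite) (e : ℕ → ℕ) (he : Function.Injective e) :
    ∃ α : Perm ℕ, ∀ a ∈ A, α a = e a :=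
  exists_perm A e he.injOn hA.infinite_compl (hA.image e).infinite_compl

theorem un_const (F : Op 0) : F = un (fun k => F fun _ => k) := by
  funext x
  change F x = F fun _ => x 0
  congr 1
  funext i
  rw [Subsingleton.elim (α := Fin 1) i 0]

namespace Sit

variable {C D : ∀ n, Set (Op n)} {X : ∀ n, Op n → Op n} (S : Sit C D X)

include S

theorem comp_un {n : ℕ} {t : ℕ → ℕ} {F : Op n} (ht : un t ∈ C 0) (hF : F ∈ C n) :
    (fun x => t (F x)) ∈ C n := S.ccomp (un t) (fun _ => F) ht (fun _ => hF)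

theorem un_proj {n : ℕ} {e : ℕ → ℕ} (he : un e ∈ C 0) (i : Fin (n + 1)) :
    (fun x : Fin (n + 1) → ℕ => e (x i)) ∈ C n := S.comp_un he (S.cproj n i)

theorem comp_in {n : ℕ} {e : ℕ → ℕ} {F : Op n} (he : un e ∈ C 0) (hF : F ∈ C n) :
    (fun x => F (fun i => e (x i))) ∈ C n :=
  S.ccomp F (fun i x => e (x i)) hF (fun i => S.un_proj he i)

theorem un_comp {e f : ℕ → ℕ} (he : un e ∈ C 0) (hf : un f ∈ C 0) : un (e ∘ f) ∈ C 0 := by
  have := S.comp_un (t := e) (F := un f) he hf
  exact this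

omit S in
/-- The action of unary operations. -/
def act (X : ∀ n, Op n → Op n) (f : ℕ → ℕ) (y : ℕ) : ℕ := X 0 (un f) (fun _ => y)

theorem act_out {n : ℕ} {t : ℕ → ℕ} {F : Op n} (ht : un t ∈ C 0) (hF : F ∈ C n)
    (b : Fin (n + 1) → ℕ) : X n (fun x => t (F x)) b = act X t (X n F b) :=
  congrFun (S.comp (un t) (fun _ => F) ht (fun _ => hF)) b

theorem act_in {n : ℕ} {e : ℕ → ℕ} {F : Op n} (he : un e ∈ C 0) (hF : F ∈ C n)
    (b : Fin (n + 1) → ℕ) : X n (fun x => F (fun i => e (x i))) b = X n F (fun i => act X e (b i)) := by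
  have h1 := congrFun (S.comp F (fun i x => e (x i)) hF (fun i => S.un_proj he i)) b
  rw [h1]
  congr 1
  funext i
  rw [S.act_out he (S.cproj n i) b, S.proj]

theorem act_id (y : ℕ) : act X id y = y := by
  have := congrFun (S.proj 0 0) (fun _ => y)
  exact this

theorem act_comp {e f : ℕ → ℕ} (he : un e ∈ C 0) (hf : un f ∈ C 0) (y : ℕ) :
    act X (e ∘ f) y = act X e (act X f y) :=
  S.act_out he hf (fun _ => y)

theorem act_eq {e f : ℕ → ℕ} (he : un e ∈ C 0) (hf : un f ∈ C 0)
    (h : ∀ y, act X e y = act X f y) : e = f := by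
  have h1 : X 0 (un e) = X 0 (un f) := by
    rw [un_const (X 0 (un e)), un_const (X 0 (un f))]
    funext x
    exact h (x 0)
  have h2 := S.inj 0 _ he _ hf h1
  funext k
  exact congrFun h2 fun _ => k

theorem inj_mem {e : ℕ → ℕ} (he : Function.Injective e) : un e ∈ C 0 := by
  classical
  apply S.cclosed
  intro F
  obtain ⟨α, hα⟩ := exists_perm_finite (↑(F.image fun x => x 0)) (Finset.finite_toSet _) e he
  refine ⟨un α, S.perm α, fun x hx => hα _ ?_⟩
  simp only [Finset.coe_image, Set.mem_image, Finset.mem_coe]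
  exact ⟨x, hx, rfl⟩

omit S in
/-- The action of the permutations. -/
def rho (X : ∀ n, Op n → Op n) (α : Perm ℕ) (y : ℕ) : ℕ := act X α y

theorem rho_one (y : ℕ) : rho X 1 y = y := S.act_id y

theorem rho_mul (α β : Perm ℕ) (y : ℕ) : rho X (α * β) y = rho X α (rho X β y) :=
  S.act_comp (S.perm α) (S.perm β) y

theorem rho_inj (α : Perm ℕ) {y z : ℕ} (h : rho X α y = rho X α z) : y = z := by
  have h1 : rho X (α⁻¹ * α) y = rho X (α⁻¹ * α) z := by rw [S.rho_mul, S.rho_mul, h]
  rwa [inv_mul_cancel, S.rho_one, S.rho_one] at h1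

theorem exists_supp (y : ℕ) : ∃ A : Finset ℕ, Supp (rho X) (A : Set ℕ) y :=
  finite_support S.rho_one S.rho_mul y

theorem exists_bar {e : ℕ → ℕ} (he : Function.Injective e) (y : ℕ) :
    ∃ v : ℕ, ∀ A : Set ℕ, A.Finite → Supp (rho X) A y → ∀ β : Perm ℕ, (∀ a ∈ A, β a = e a) →
      rho X β y = v := by
  obtain ⟨A, hA⟩ := S.exists_supp y
  obtain ⟨α, hα⟩ := exists_perm_finite A A.finite_toSet e he
  refine ⟨rho X α y, fun B hBf hB β hβ => ?_⟩
  obtain ⟨γ, hγ⟩ := exists_perm_finite (A ∪ B) (A.finite_toSet.union hBf) e he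
  rw [hB.eq S.rho_one S.rho_mul (α := β) (β := γ) fun z hz => (hβ z hz).trans (hγ z (Or.inr hz)).symm,
    hA.eq S.rho_one S.rho_mul (α := α) (β := γ) fun z hz => (hα z hz).trans (hγ z (Or.inl hz)).symm]

omit S in
open Classical in
/-- The extension of the action of permutations to injections by continuity. -/
noncomputable def bar (X : ∀ n, Op n → Op n) (e : ℕ → ℕ) (y : ℕ) : ℕ :=
  if h : ∃ v : ℕ, ∀ A : Set ℕ, A.Finite → Supp (rho X) A y → ∀ β : Perm ℕ, (∀ a ∈ A, β a = e a) →
      rho X β y = v then h.choose else 0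

theorem bar_eq {e : ℕ → ℕ} (he : Function.Injective e) {y : ℕ} {A : Set ℕ} (hAf : A.Finite)
    (hA : Supp (rho X) A y) {β : Perm ℕ} (hβ : ∀ a ∈ A, β a = e a) : bar X e y = rho X β y := by
  have h := S.exists_bar he y
  rw [bar, dif_pos h]
  exact (h.choose_spec A hAf hA β hβ).symm

theorem bar_perm (α : Perm ℕ) (y : ℕ) : bar X α y = rho X α y := by
  obtain ⟨A, hA⟩ := S.exists_supp y
  exact S.bar_eq α.injective A.finite_toSet hA (β := α) fun _ _ => rfl

theorem bar_comp {s e : ℕ → ℕ} (hs : Function.Injective s) (he : Function.Injective e) (y : ℕ) :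
    bar X (s ∘ e) y = bar X s (bar X e y) := by
  obtain ⟨A, hA⟩ := S.exists_supp y
  obtain ⟨γ, hγ⟩ := exists_perm_finite A A.finite_toSet e he
  obtain ⟨σ, hσ⟩ := exists_perm_finite (γ '' A) (A.finite_toSet.image _) s hs
  rw [S.bar_eq he A.finite_toSet hA hγ,
    S.bar_eq hs (A.finite_toSet.image _) (hA.map S.rho_one S.rho_mul γ) hσ, ← S.rho_mul]
  apply S.bar_eq (hs.comp he) A.finite_toSet hA
  intro a ha
  change σ (γ a) = s (e a)
  rw [hσ _ ⟨a, ha, rfl⟩, hγ a ha]

theorem bar_inj {s : ℕ → ℕ} (hs : Function.Injective s) {y z : ℕ} (h : bar X s y = bar X s z) :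
    y = z := by
  obtain ⟨A, hA⟩ := S.exists_supp y
  obtain ⟨B, hB⟩ := S.exists_supp z
  obtain ⟨γ, hγ⟩ := exists_perm_finite (A ∪ B) (A.finite_toSet.union B.finite_toSet) s hs
  rw [S.bar_eq hs A.finite_toSet hA (β := γ) fun a ha => hγ a (Or.inl ha),
    S.bar_eq hs B.finite_toSet hB (β := γ) fun a ha => hγ a (Or.inr ha)] at h
  exact S.rho_inj γ h

theorem bar_mem {e : ℕ → ℕ} (he : Function.Injective e) : un (bar X e) ∈ D 0 := by
  classical
  apply S.dclosed
  intro F
  choose A hA using S.exists_supp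
  obtain ⟨α, hα⟩ := exists_perm_finite (⋃ x ∈ F, (A (x 0) : Set ℕ))
    (F.finite_toSet.biUnion fun x _ => (A (x 0)).finite_toSet) e he
  refine ⟨X 0 (un α), S.mapsTo 0 _ (S.perm α), fun x hx => ?_⟩
  rw [un_const (X 0 (un α))]
  change rho X α (x 0) = bar X e (x 0)
  rw [S.bar_eq he (A (x 0)).finite_toSet (hA (x 0)) (β := α)]
  intro a ha
  exact hα a (Set.mem_biUnion hx ha)

theorem exists_pre {e : ℕ → ℕ} (he : Function.Injective e) :
    ∃ a : ℕ → ℕ, un a ∈ C 0 ∧ ∀ y, act X a y = bar X e y := by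
  obtain ⟨F, hF, hX⟩ := S.surj 0 _ (S.bar_mem he)
  rw [un_const F] at hF hX
  refine ⟨_, hF, fun y => ?_⟩
  rw [act, hX]
  rfl

theorem act_bar_co {e : ℕ → ℕ} (he : Function.Injective e) (hco : (Set.range e)ᶜ.Infinite) (y : ℕ) :
    act X e y = bar X e y := by
  classical
  obtain ⟨a, ha, hab⟩ := S.exists_pre he
  -- commutation with permutations
  have hcomm : ∀ α β : Perm ℕ, (∀ k, α (e k) = e (β k)) → ∀ k, a (β k) = α (a k) := by
    intro α β hαβ
    have h1 : a ∘ β = α ∘ a := by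
      apply S.act_eq (S.un_comp ha (S.perm β)) (S.un_comp (S.perm α) ha)
      intro y
      rw [S.act_comp ha (S.perm β), S.act_comp (S.perm α) ha, hab, hab]
      change bar X e (rho X β y) = rho X α (bar X e y)
      rw [← S.bar_perm, ← S.bar_perm, ← S.bar_comp he β.injective, ← S.bar_comp α.injective he]
      congr 1
      funext k
      exact (hαβ k).symm
    intro k
    exact congrFun h1 k
  have hrange : ∀ k, a k ∈ Set.range e := by
    intro k
    by_contra hk
    obtain ⟨z, hz, hz'⟩ := hco.exists_notMem_finite (Set.finite_singleton (a k))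
    have h1 := hcomm (Equiv.swap (a k) z) 1 (by
      intro j
      rw [Equiv.swap_apply_of_ne_of_ne]
      · rfl
      · rintro h; exact hk ⟨j, h⟩
      · rintro h; exact hz ⟨j, h⟩) k
    rw [Equiv.swap_apply_left] at h1
    exact hz' h1.symm
  choose h hh using hrange
  have hcomm' : ∀ (β : Perm ℕ) (k : ℕ), h (β k) = β (h k) := by
    intro β k
    obtain ⟨α, hα⟩ := exists_perm (Set.range e) (Function.extend e (e ∘ β) id)
      (by
        rintro _ ⟨i, rfl⟩ _ ⟨j, rfl⟩ hij
        rw [he.extend_apply, he.extend_apply] at hij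
        rw [β.injective (he hij)]) hco
      (by
        refine hco.mono ?_
        intro x hx hx'
        apply hx
        obtain ⟨_, ⟨i, rfl⟩, hi⟩ := hx'
        rw [he.extend_apply] at hi
        exact ⟨β i, hi⟩)
    have hα' : ∀ k, α (e k) = e (β k) := by
      intro k
      rw [hα _ ⟨k, rfl⟩, he.extend_apply]
      rfl
    have h1 := hcomm α β hα' k
    rw [← hh, ← hh k, hα'] at h1
    exact he h1
  have hid : ∀ k, h k = k := by
    intro k
    by_contra hk
    obtain ⟨z, hz⟩ := Set.Infinite.exists_notMem_finite (s := Set.univ) Set.infinite_univ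
      (t := {k, h k}) (by simp)
    have h1 := hcomm' (Equiv.swap (h k) z) k
    rw [Equiv.swap_apply_left, Equiv.swap_apply_of_ne_of_ne (Ne.symm hk) (by
      rintro rfl; exact hz.2 (by simp))] at h1
    exact hz.2 (by simp [h1])
  have hae : a = e := by
    funext k
    rw [← hh, hid]
  rw [← hae] at hab ⊢
  rw [hab]

theorem act_bar {e : ℕ → ℕ} (he : Function.Injective e) (y : ℕ) :
    act X e y = bar X e y := by
  have hs : Function.Injective (fun k : ℕ => 2 * k) := fun k l h => by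
    simp only at h; omega
  have hco : ∀ f : ℕ → ℕ, (Set.range ((fun k : ℕ => 2 * k) ∘ f))ᶜ.Infinite := by
    intro f
    refine (Set.infinite_range_of_injective (f := fun k : ℕ => 2 * k + 1) fun k l h => by
      simpa using h).mono ?_
    rintro _ ⟨k, rfl⟩ ⟨j, hj⟩
    simp only [Function.comp] at hj
    omega
  apply S.bar_inj hs
  rw [← S.bar_comp hs he, ← S.act_bar_co (hs.comp he) (hco e), ← S.act_bar_co hs (hco id),
    S.act_comp (S.inj_mem hs) (S.inj_mem he)]

/-- The action of an injection on `y` depends only on the restriction to a support of `y`. -/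
theorem act_congr {e f : ℕ → ℕ} (he : Function.Injective e) (hf : Function.Injective f) {y : ℕ}
    {A : Set ℕ} (hAf : A.Finite) (hA : Supp (rho X) A y) (h : ∀ a ∈ A, e a = f a) :
    act X e y = act X f y := by
  obtain ⟨γ, hγ⟩ := exists_perm_finite A hAf e he
  rw [S.act_bar he, S.act_bar hf, S.bar_eq he hAf hA hγ,
    S.bar_eq hf hAf hA (β := γ) fun a ha => (hγ a ha).trans (h a ha)]

theorem act_inj {e : ℕ → ℕ} (he : Function.Injective e) {y z : ℕ} (h : act X e y = act X e z) :
    y = z := by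
  rw [S.act_bar he, S.act_bar he] at h
  exact S.bar_inj he h

theorem act_fix {e : ℕ → ℕ} (he : Function.Injective e) {y : ℕ}
    {A : Set ℕ} (hAf : A.Finite) (hA : Supp (rho X) A y) (h : ∀ a ∈ A, e a = a) :
    act X e y = y := by
  rw [S.act_congr he Function.injective_id hAf hA h, S.act_id]

/-- The support of a value, inside the image. -/
theorem supp_value {n : ℕ} {f : Op n} (hf : f ∈ C n) (hco : (Set.range f)ᶜ.Infinite)
    (b : Fin (n + 1) → ℕ) : ∃ B : Set ℕ, B.Finite ∧ B ⊆ Set.range f ∧ Supp (rho X) B (X n f b) := by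
  obtain ⟨K, hK⟩ := S.exists_supp (X n f b)
  have hI : Supp (rho X) (Set.range f) (X n f b) := by
    intro α hα
    change act X α (X n f b) = X n f b
    rw [← S.act_out (S.perm α) hf b]
    congr 1
    funext x
    exact hα _ ⟨x, rfl⟩
  refine ⟨K ∩ Set.range f, K.finite_toSet.inter_of_left _, Set.inter_subset_right, ?_⟩
  apply hK.inter S.rho_one S.rho_mul hI
  intro hfin
  apply hco
  refine (hfin.union K.finite_toSet).subset ?_
  intro x hx
  by_cases h : x ∈ (K : Set ℕ)
  · exact Or.inr h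
  · left
    rintro (h' | h')
    · exact h h'
    · exact hx h'

end Sit

end Pool.Agent.Q299.EqClone
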