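import Mathlib
import Pool.Agent.Q299.EqInj

/-!
# Clones on `ℕ` containing all permutations: isomorphisms are homeomorphisms
-/

set_option autoImplicit false

namespace Pool.Agent.Q299.EqClone

open Equiv Pool.Agent.Q299.SmallIndex Filter

/-- Ramsey's theorem for increasing tuples. -/
theorem ramsey_strict {κ : Type} [Finite κ] (M : ℕ) (c : (Fin M → ℕ) → κ) :
    ∃ h : ℕ → ℕ, StrictMono h ∧ ∃ k, ∀ u : Fin M → ℕ, StrictMono u → c (h ∘ u) = k := by
  classical
  obtain ⟨H, k, hH, hk⟩ := Pool.Agent.H330.infinite_ramsey (A := ℕ) M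
    (fun s : Finset ℕ => if h : s.card = M then c (s.orderEmbOfFin h) else c (fun _ => 0))
  have : Infinite H := hH.to_subtype
  refine ⟨Nat.orderEmbeddingOfSet H, (Nat.orderEmbeddingOfSet H).strictMono, k, fun u hu => ?_⟩
  let s : Finset ℕ := Finset.univ.image (Nat.orderEmbeddingOfSet H ∘ u)
  have hmono : StrictMono (Nat.orderEmbeddingOfSet H ∘ u) :=
    (Nat.orderEmbeddingOfSet H).strictMono.comp hu
  have hs : s.card = M := by
    rw [Finset.card_image_of_injective _ hmono.injective, Finset.card_univ, Fintype.card_fin]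
  have hsub : (s : Set ℕ) ⊆ H := by
    intro x hx
    rw [Finset.mem_coe, Finset.mem_image] at hx
    obtain ⟨i, -, rfl⟩ := hx
    have h3 : (Nat.orderEmbeddingOfSet H) (u i) ∈ Set.range (Nat.orderEmbeddingOfSet H) := ⟨_, rfl⟩
    rwa [Nat.orderEmbeddingOfSet_range] at h3
  have h1 := hk s hs hsub
  rw [dif_pos hs] at h1
  rw [← h1]
  congr 1
  exact Finset.orderEmbOfFin_unique hs (fun i => Finset.mem_image_of_mem _ (Finset.mem_univ i)) hmono

theorem olig_top : MinTop.Olig (⊤ : Subgroup (Perm ℕ)) := by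
  classical
  intro n
  refine ⟨{r | ∀ i, r i < n}, ?_, ?_⟩
  · have : {r : Fin n → ℕ | ∀ i, r i < n} = Set.pi Set.univ (fun _ => Set.Iio n) := by
      ext r
      exact ⟨fun h i _ => h i, fun h i => h i (Set.mem_univ i)⟩
    rw [this]
    exact Set.Finite.pi fun _ => Set.finite_Iio n
  · intro x
    let A : Finset ℕ := Finset.univ.image x
    have hA : A.card ≤ n := by
      refine Finset.card_image_le.trans ?_
      rw [Finset.card_univ, Fintype.card_fin]
    let f : ℕ → ℕ := fun k => if h : k ∈ A then (A.equivFin ⟨k, h⟩ : ℕ) else 0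
    have hf : ∀ k, (h : k ∈ A) → f k = (A.equivFin ⟨k, h⟩ : ℕ) := fun k h => dif_pos h
    obtain ⟨β, hβ⟩ := exists_perm (A : Set ℕ) f
      (by
        intro a ha b hb hab
        rw [hf a ha, hf b hb] at hab
        have := A.equivFin.injective (Fin.ext hab)
        exact congrArg Subtype.val this)
      A.finite_toSet.infinite_compl (A.finite_toSet.image _).infinite_compl
    refine ⟨fun i => β (x i), fun i => ?_, β, Subgroup.mem_top _, fun i => rfl⟩
    have hi : x i ∈ A := Finset.mem_image_of_mem _ (Finset.mem_univ i)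
    change β (x i) < n
    rw [hβ _ hi, hf _ hi]
    exact lt_of_lt_of_le (Fin.is_lt _) hA

/-- The diagonal lemma, for functions on a countable set. -/
theorem diag {A : Type} [Encodable A] [Inhabited A] {ι : Type*} (U : Ultrafilter ι)
    (w : ι → A → ℕ) :
    ∃ (t : ℕ → ℕ) (r : A → ℕ), ∀ (F : Finset ℕ) (F' : Finset A), ∀ᶠ i in (U : Filter ι),
      ∃ g : Perm ℕ, (∀ x ∈ F, g x = t x) ∧ ∀ x ∈ F', g (w i x) = r x := by
  classical
  obtain ⟨t, r, htr⟩ := MinTop.diag olig_top U
    (fun i (m : ℕ) => w i ((Encodable.decode (α := A) m).getD default))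
  refine ⟨t, fun x => r (Encodable.encode x), fun F F' => ?_⟩
  filter_upwards [htr (F ∪ F'.image Encodable.encode)] with i hi
  obtain ⟨g, -, hg⟩ := hi
  refine ⟨g, fun x hx => (hg x (Finset.mem_union_left _ hx)).1, fun x hx => ?_⟩
  have := (hg (Encodable.encode x) (Finset.mem_union_right _ (Finset.mem_image_of_mem _ hx))).2
  simpa using this

/-- The values of a code. -/
def val (a M : ℕ) (u : Fin M → ℕ) : Fin a ⊕ Fin M → ℕ
  | Sum.inl p => p
  | Sum.inr l => a + 2 * u l + 1

/-- The map which is the identity below `a` and goes to the odd part given by `h` above. -/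
def tau (a : ℕ) (h : ℕ → ℕ) (k : ℕ) : ℕ := if k < a then k else a + 2 * h (k - a) + 1

theorem tau_inj (a : ℕ) (h : ℕ → ℕ) (hh : Function.Injective h) :
    Function.Injective (tau a h) := by
  intro x y hxy
  by_cases h1 : x < a <;> by_cases h2 : y < a <;> simp only [tau, h1, h2, if_true, if_false] at hxy
  · exact hxy
  · omega
  · omega
  · have := @hh (x - a) (y - a) (by omega)
    omega

/-- Every operation has the same pattern on a homogeneous set, which is determined by an element of
a finite set. -/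
theorem exists_pattern (n a : ℕ) (f : Op n) :
    ∃ h : ℕ → ℕ, StrictMono h ∧ ∃ P : Set ((Fin (n + 1) → Fin a ⊕ Fin (2 * (n + 1))) ×
      (Fin (n + 1) → Fin a ⊕ Fin (2 * (n + 1)))), ∀ u : Fin (2 * (n + 1)) → ℕ, StrictMono u →
        ∀ v w, (f (fun j => val a _ (h ∘ u) (v j)) = f (fun j => val a _ (h ∘ u) (w j)) ↔
          (v, w) ∈ P) := by
  classical
  obtain ⟨h, hh, P, hP⟩ := ramsey_strict (2 * (n + 1))
    (fun u => {vw : (Fin (n + 1) → Fin a ⊕ Fin (2 * (n + 1))) ×
      (Fin (n + 1) → Fin a ⊕ Fin (2 * (n + 1))) |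
        f (fun j => val a _ u (vw.1 j)) = f (fun j => val a _ u (vw.2 j))})
  refine ⟨h, hh, P, fun u hu v w => ?_⟩
  rw [← hP u hu]
  exact Iff.rfl

theorem exists_code (n a : ℕ) (x y : Fin (n + 1) → ℕ) :
    ∃ (u : Fin (2 * (n + 1)) → ℕ) (v w : Fin (n + 1) → Fin a ⊕ Fin (2 * (n + 1))), StrictMono u ∧
      ∀ h : ℕ → ℕ, (∀ j, tau a h (x j) = val a _ (h ∘ u) (v j)) ∧
        ∀ j, tau a h (y j) = val a _ (h ∘ u) (w j) := by
  classical
  let K : Finset ℕ := (Finset.univ.image fun j => x j - a) ∪ Finset.univ.image fun j => y j - a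
  have hK : K.card ≤ 2 * (n + 1) := by
    refine (Finset.card_union_le _ _).trans ?_
    have h1 := Finset.card_image_le (s := (Finset.univ : Finset (Fin (n + 1)))) (f := fun j => x j - a)
    have h2 := Finset.card_image_le (s := (Finset.univ : Finset (Fin (n + 1)))) (f := fun j => y j - a)
    rw [Finset.card_univ, Fintype.card_fin] at h1 h2
    omega
  obtain ⟨T, hKT, hT⟩ := Infinite.exists_superset_card_eq K _ hK
  have hcode : ∀ k : ℕ, k - a ∈ T → ∃ v : Fin a ⊕ Fin (2 * (n + 1)),
      ∀ h : ℕ → ℕ, tau a h k = val a _ (h ∘ T.orderEmbOfFin hT) v := by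
    intro k hk
    by_cases hka : k < a
    · exact ⟨Sum.inl ⟨k, hka⟩, fun h => by simp [tau, val, hka]⟩
    · have : k - a ∈ Set.range (T.orderEmbOfFin hT) := by
        rw [Finset.range_orderEmbOfFin]
        exact hk
      obtain ⟨l, hl⟩ := this
      refine ⟨Sum.inr l, fun h => ?_⟩
      simp only [tau, val, hka, if_false, Function.comp, hl]
  have hx : ∀ j, x j - a ∈ T := fun j => hKT (Finset.mem_union_left _
    (Finset.mem_image_of_mem (fun j => x j - a) (Finset.mem_univ j)))
  have hy : ∀ j, y j - a ∈ T := fun j => hKT (Finset.mem_union_right _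
    (Finset.mem_image_of_mem (fun j => y j - a) (Finset.mem_univ j)))
  choose v hv using fun j => hcode _ (hx j)
  choose w hw using fun j => hcode _ (hy j)
  exact ⟨_, v, w, (T.orderEmbOfFin hT).strictMono, fun h => ⟨fun j => hv j h, fun j => hw j h⟩⟩

theorem double_inj : Function.Injective (fun k : ℕ => 2 * k) := fun k l h => by
  simp only at h; omega

theorem even_co {A : Type*} (f : A → ℕ) (hf : ∀ x, f x % 2 = 0) : (Set.range f)ᶜ.Infinite := by
  refine (Set.infinite_range_of_injective (f := fun k : ℕ => 2 * k + 1) fun k l h => by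
    simpa using h).mono ?_
  rintro _ ⟨k, rfl⟩ ⟨j, hj⟩
  have := hf j
  rw [hj] at this
  simp only at this
  omega

namespace Sit

variable {C D : ∀ n, Set (Op n)} {X : ∀ n, Op n → Op n} (S : Sit C D X)

include S

theorem cont_aux {n : ℕ} (f : Op n) (hf : f ∈ C n) (hco : (Set.range f)ᶜ.Infinite)
    (b : Fin (n + 1) → ℕ) (F : ℕ → Op n) (hF : ∀ i, F i ∈ C n)
    (hlim : ∀ i x, (∀ j, x j < i) → F i x = f x) (hne : ∀ i, X n (F i) b ≠ X n f b) : False := by
  classical
  -- the bound `a`
  obtain ⟨B, hBf, hBr, hB⟩ := S.supp_value hf hco b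
  choose A hA using fun j => S.exists_supp (b j)
  have hpre : ∀ z ∈ B, ∃ x, f x = z := fun z hz => hBr hz
  choose! pre hpre using hpre
  let a : ℕ := (Finset.univ.sup fun j => (A j).sup id) +
    (hBf.toFinset.sup fun z => Finset.univ.sup (pre z)) + 1
  have ha1 : ∀ j, ∀ z ∈ A j, z < a := by
    intro j z hz
    have h1 : z ≤ (A j).sup id := Finset.le_sup (f := id) hz
    have h2 : (A j).sup id ≤ Finset.univ.sup fun j => (A j).sup id :=
      Finset.le_sup (f := fun j => (A j).sup id) (Finset.mem_univ j)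
    change z < (Finset.univ.sup fun j => (A j).sup id) +
      (hBf.toFinset.sup fun z => Finset.univ.sup (pre z)) + 1
    omega
  have ha2 : ∀ z ∈ B, ∀ j, pre z j < a := by
    intro z hz j
    have h1 : pre z j ≤ Finset.univ.sup (pre z) := Finset.le_sup (Finset.mem_univ j)
    have h2 : Finset.univ.sup (pre z) ≤ hBf.toFinset.sup fun z => Finset.univ.sup (pre z) :=
      Finset.le_sup (f := fun z => Finset.univ.sup (pre z)) (hBf.mem_toFinset.2 hz)
    change pre z j < (Finset.univ.sup fun j => (A j).sup id) +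
      (hBf.toFinset.sup fun z => Finset.univ.sup (pre z)) + 1
    omega
  clear_value a
  have hfix : ∀ e : ℕ → ℕ, Function.Injective e → (∀ k < a, e k = k) → ∀ j, act X e (b j) = b j :=
    fun e he hea j => S.act_fix he (A j).finite_toSet (hA j) fun z hz => hea z (ha1 j z hz)
  -- restricting to an infinite set containing the support
  have hres : ∀ e : ℕ → ℕ, Function.Injective e → (∀ k < a, e k = k) → ∀ G ∈ C n,
      X n (fun x => G (fun i => e (x i))) b = X n G b := by
    intro e he hea G hG
    rw [S.act_in (S.inj_mem he) hG]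
    congr 1
    funext j
    exact hfix e he hea j
  choose h hh P hP using fun i => exists_pattern n a (F i)
  let U : Ultrafilter ℕ := hyperfilter ℕ
  have hUbig : ∀ m : ℕ, ∀ᶠ i in (U : Filter ℕ), m ≤ i := by
    intro m
    apply hyperfilter_le_cofinite
    have := (Set.finite_lt_nat m).compl_mem_cofinite
    refine Filter.mem_of_superset this ?_
    intro i hi
    by_contra hlt
    have hlt' : i < m := not_le.1 hlt
    exact hi hlt'
  obtain ⟨P0, hP0⟩ : ∃ P0, ∀ᶠ i in (U : Filter ℕ), P i = P0 := by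
    have h1 : ∀ᶠ i in (U : Filter ℕ), ∃ P0 ∈ (Set.univ : Set (Set ((Fin (n + 1) → Fin a ⊕
        Fin (2 * (n + 1))) × (Fin (n + 1) → Fin a ⊕ Fin (2 * (n + 1)))))), P i = P0 :=
      Filter.Eventually.of_forall fun i => ⟨_, Set.mem_univ _, rfl⟩
    rw [Ultrafilter.eventually_exists_mem_iff Set.finite_univ] at h1
    obtain ⟨q, -, hq⟩ := h1
    exact ⟨q, hq⟩
  -- the pattern does not depend on `i`
  have hpat : ∀ i, P i = P0 → ∀ x y : Fin (n + 1) → ℕ, ∃ v w,
      (F i (fun j => tau a (h i) (x j)) = F i (fun j => tau a (h i) (y j)) ↔ (v, w) ∈ P0) ∧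
      ∀ i', P i' = P0 → (F i' (fun j => tau a (h i') (x j)) = F i' (fun j => tau a (h i') (y j)) ↔
        (v, w) ∈ P0) := by
    intro i hi x y
    obtain ⟨u, v, w, hu, hvw⟩ := exists_code n a x y
    refine ⟨v, w, ?_, ?_⟩
    · rw [← hi, ← hP i u hu]
      simp only [(hvw (h i)).1, (hvw (h i)).2]
    · intro i' hi'
      rw [← hi', ← hP i' u hu]
      simp only [(hvw (h i')).1, (hvw (h i')).2]
  -- the maps
  let e1 : ℕ → ℕ := fun k => if k < a then k else a + 2 * (k - a)
  let e2 : ℕ → ℕ := tau a id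
  let σ : ℕ → ℕ → ℕ := fun i k => if k < a then k else
    if (k - a) % 2 = 0 then k else a + 2 * h i ((k - a) / 2) + 1
  have he1 : Function.Injective e1 := by
    intro x y hxy
    change (if x < a then x else a + 2 * (x - a)) = if y < a then y else a + 2 * (y - a) at hxy
    split_ifs at hxy <;> omega
  have he2 : Function.Injective e2 := tau_inj a id Function.injective_id
  have hσ : ∀ i, Function.Injective (σ i) := by
    intro i x y hxy
    change (if x < a then x else if (x - a) % 2 = 0 then x else a + 2 * h i ((x - a) / 2) + 1) =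
      (if y < a then y else if (y - a) % 2 = 0 then y else a + 2 * h i ((y - a) / 2) + 1) at hxy
    have hinj : h i ((x - a) / 2) = h i ((y - a) / 2) → (x - a) / 2 = (y - a) / 2 :=
      fun hk => (hh i).injective hk
    split_ifs at hxy
    all_goals first | omega | (have := hinj (by omega); omega)
  have hσ1 : ∀ i k, σ i (e1 k) = e1 k := by
    intro i k
    change (if e1 k < a then e1 k else if (e1 k - a) % 2 = 0 then e1 k else
      a + 2 * h i ((e1 k - a) / 2) + 1) = e1 k
    by_cases hk : k < a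
    · have : e1 k = k := if_pos hk
      rw [this, if_pos hk]
    · have : e1 k = a + 2 * (k - a) := if_neg hk
      rw [this, if_neg (by omega), if_pos (by omega)]
  have hσ2 : ∀ i k, σ i (e2 k) = tau a (h i) k := by
    intro i k
    change (if e2 k < a then e2 k else if (e2 k - a) % 2 = 0 then e2 k else
      a + 2 * h i ((e2 k - a) / 2) + 1) = if k < a then k else a + 2 * h i (k - a) + 1
    by_cases hk : k < a
    · have : e2 k = k := if_pos hk
      rw [this, if_pos hk, if_pos hk]
    · have : e2 k = a + 2 * (k - a) + 1 := if_neg hk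
      rw [this, if_neg (by omega), if_neg (by omega), if_neg hk]
      congr 3
      congr 1
      omega
  let G : ℕ → Op n := fun i x => F i (fun j => σ i (x j))
  have hG : ∀ i, G i ∈ C n := fun i => S.comp_in (S.inj_mem (hσ i)) (hF i)
  obtain ⟨t, r, htr⟩ := diag U G
  have ht : Function.Injective t := by
    intro x y hxy
    obtain ⟨i, g, hg, -⟩ := (htr {x, y} ∅).exists
    rw [← hg x (by simp), ← hg y (by simp)] at hxy
    exact g.injective hxy
  have hr : r ∈ C n := by
    apply S.cclosed
    intro F'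
    obtain ⟨i, g, -, hg⟩ := (htr ∅ F').exists
    exact ⟨fun x => g (G i x), S.comp_un (S.perm g) (hG i), hg⟩
  have hbox1 : ∀ x : Fin (n + 1) → ℕ, r (fun j => e1 (x j)) = t (f (fun j => e1 (x j))) := by
    intro x
    obtain ⟨i, ⟨g, hg1, hg2⟩, hi⟩ := ((htr {f (fun j => e1 (x j))} {fun j => e1 (x j)}).and
      (hUbig (Finset.univ.sup (fun j => e1 (x j)) + 1))).exists
    rw [← hg2 _ (by simp), ← hg1 _ (by simp)]
    congr 1
    change F i (fun j => σ i (e1 (x j))) = _
    simp only [hσ1]
    apply hlim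
    intro j
    have : e1 (x j) ≤ Finset.univ.sup (fun j => e1 (x j)) :=
      Finset.le_sup (f := fun j => e1 (x j)) (Finset.mem_univ j)
    omega
  have hbox2 : ∀ i, P i = P0 → ∀ x y : Fin (n + 1) → ℕ,
      (F i (fun j => tau a (h i) (x j)) = F i (fun j => tau a (h i) (y j)) ↔
        r (fun j => e2 (x j)) = r (fun j => e2 (y j))) := by
    intro i hi x y
    obtain ⟨v, w, h1, h2⟩ := hpat i hi x y
    obtain ⟨i', ⟨g, -, hg⟩, hi'⟩ := ((htr ∅ {(fun j => e2 (x j)), (fun j => e2 (y j))}).and
      hP0).exists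
    rw [h1, ← h2 i' hi', ← hg (fun j => e2 (x j)) (by simp), ← hg (fun j => e2 (y j)) (by simp),
      g.injective.eq_iff]
    change _ ↔ F i' (fun j => σ i' (e2 (x j))) = F i' (fun j => σ i' (e2 (y j)))
    simp only [hσ2]
  obtain ⟨i, hi, hai⟩ := (hP0.and (hUbig a)).exists
  -- the injection `τ'`
  let Φ : Op n := fun x => F i (fun j => tau a (h i) (x j))
  let Ψ : Op n := fun x => 2 * r (fun j => e2 (x j))
  have hΦΨ : ∀ x y, Φ x = Φ y ↔ Ψ x = Ψ y := by
    intro x y
    refine (hbox2 i hi x y).trans ?_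
    change _ ↔ 2 * r (fun j => e2 (x j)) = 2 * r (fun j => e2 (y j))
    omega
  let τ : ℕ → ℕ := fun z => if hz : ∃ x, Φ x = z then Ψ hz.choose else 2 * z + 1
  have hτΦ : ∀ x, τ (Φ x) = Ψ x := by
    intro x
    have hz : ∃ y, Φ y = Φ x := ⟨x, rfl⟩
    change (if hz : ∃ y, Φ y = Φ x then Ψ hz.choose else _) = _
    rw [dif_pos hz]
    exact (hΦΨ _ _).1 hz.choose_spec
  have hτ : Function.Injective τ := by
    have hΨ : ∀ x, Ψ x % 2 = 0 := fun x => by
      change 2 * r (fun j => e2 (x j)) % 2 = 0
      omega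
    have hτo : ∀ z, (¬ ∃ x, Φ x = z) → τ z = 2 * z + 1 := fun z hz => dif_neg hz
    intro y z hyz
    by_cases h1 : ∃ x, Φ x = y
    · obtain ⟨x, rfl⟩ := h1
      by_cases h2 : ∃ x, Φ x = z
      · obtain ⟨x', rfl⟩ := h2
        rw [hτΦ, hτΦ] at hyz
        exact (hΦΨ _ _).2 hyz
      · rw [hτΦ, hτo z h2] at hyz
        have := hΨ x
        omega
    · by_cases h2 : ∃ x, Φ x = z
      · obtain ⟨x', rfl⟩ := h2
        rw [hτΦ, hτo y h1] at hyz
        have := hΨ x'
        omega
      · rw [hτo y h1, hτo z h2] at hyz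
        omega
  have htauinj : Function.Injective (tau a (h i)) := tau_inj a _ (hh i).injective
  have htaufix : ∀ k < a, tau a (h i) k = k := fun k hk => if_pos hk
  have hs := double_inj
  -- the first computation
  have c1 : X n r b = act X t (X n f b) := by
    rw [← hres e1 he1 (fun k hk => if_pos hk) r hr]
    have h1 : (fun x : Fin (n + 1) → ℕ => r (fun i => e1 (x i))) =
        fun x => t (f (fun i => e1 (x i))) := funext hbox1
    rw [h1, S.act_out (F := fun x => f (fun i => e1 (x i))) (S.inj_mem ht)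
      (S.comp_in (S.inj_mem he1) hf), hres e1 he1 (fun k hk => if_pos hk) f hf]
  -- the second computation
  have c2 : act X τ (X n (F i) b) = act X (fun k => 2 * k) (X n r b) := by
    rw [← hres _ htauinj htaufix (F i) (hF i), ← hres e2 he2 (fun k hk => if_pos hk) r hr,
      ← S.act_out (S.inj_mem hτ) (S.comp_in (S.inj_mem htauinj) (hF i)),
      ← S.act_out (S.inj_mem hs) (S.comp_in (S.inj_mem he2) hr)]
    congr 1
    funext x
    exact hτΦ x
  have c3 : act X τ (X n f b) = act X ((fun k => 2 * k) ∘ t) (X n f b) := by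
    apply S.act_congr hτ (hs.comp ht) hBf hB
    intro z hz
    have hx := ha2 z hz
    have hpz := hpre z hz
    have h1 : Φ (pre z) = z := by
      change F i (fun j => tau a (h i) (pre z j)) = z
      have : (fun j => tau a (h i) (pre z j)) = pre z := by
        funext j
        exact htaufix _ (hx j)
      rw [this, hlim i _ (fun j => lt_of_lt_of_le (hx j) hai), hpz]
    have h2 : τ z = Ψ (pre z) := by
      conv_lhs => rw [← h1]
      exact hτΦ _
    rw [h2]
    change 2 * r (fun j => e2 (pre z j)) = 2 * t z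
    have h3 : (fun j => e2 (pre z j)) = fun j => e1 (pre z j) := by
      funext j
      change (if pre z j < a then _ else _) = if pre z j < a then _ else _
      rw [if_pos (hx j), if_pos (hx j)]
    have h4 : (fun j => e1 (pre z j)) = pre z := by
      funext j
      exact if_pos (hx j)
    rw [h3, hbox1, h4, hpz]
  apply hne i
  apply S.act_inj hτ
  rw [c2, c1, c3, S.act_comp (S.inj_mem hs) (S.inj_mem ht)]

/-- Continuity. -/
theorem cont {n : ℕ} (f : Op n) (hf : f ∈ C n) (b : Fin (n + 1) → ℕ) :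
    ∃ F : Finset (Fin (n + 1) → ℕ), ∀ g ∈ C n, (∀ x ∈ F, g x = f x) → X n g b = X n f b := by
  classical
  by_contra hcon
  push Not at hcon
  choose g hg hgf hne using hcon
  have hs := double_inj
  let Fi : ℕ → Finset (Fin (n + 1) → ℕ) := fun i => Fintype.piFinset fun _ => Finset.range i
  refine S.cont_aux (fun x => 2 * f x) (S.comp_un (t := fun k => 2 * k) (S.inj_mem hs) hf)
    (even_co _ fun x => by omega) b (fun i x => 2 * g (Fi i) x)
    (fun i => S.comp_un (t := fun k => 2 * k) (S.inj_mem hs) (hg _)) ?_ ?_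
  · intro i x hx
    have h1 : g (Fi i) x = f x := by
      apply hgf
      simpa [Fi] using hx
    change 2 * g (Fi i) x = 2 * f x
    rw [h1]
  · intro i h1
    have h2 := S.act_out (t := fun k => 2 * k) (S.inj_mem hs) (hg (Fi i)) b
    have h3 := S.act_out (t := fun k => 2 * k) (S.inj_mem hs) hf b
    have h4 := h2.symm.trans (h1.trans h3)
    exact hne _ (S.act_inj hs h4)

/-- Continuity of the inverse. -/
theorem cont_inv {n : ℕ} (f : Op n) (hf : f ∈ C n) (x : Fin (n + 1) → ℕ) :
    ∃ F : Finset (Fin (n + 1) → ℕ), ∀ g ∈ C n, (∀ b ∈ F, X n g b = X n f b) → g x = f x := by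
  classical
  by_contra hcon
  push Not at hcon
  choose g hg hgf hne using hcon
  let Fi : ℕ → Finset (Fin (n + 1) → ℕ) := fun i => Fintype.piFinset fun _ => Finset.range i
  let U : Ultrafilter ℕ := hyperfilter ℕ
  have hUbig : ∀ m : ℕ, ∀ᶠ i in (U : Filter ℕ), m ≤ i := by
    intro m
    apply hyperfilter_le_cofinite
    have := (Set.finite_lt_nat m).compl_mem_cofinite
    refine Filter.mem_of_superset this ?_
    intro i hi
    by_contra hlt
    have hlt' : i < m := not_le.1 hlt
    exact hi hlt'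
  obtain ⟨t, r, htr⟩ := diag U (fun i => g (Fi i))
  have ht : Function.Injective t := by
    intro x y hxy
    obtain ⟨i, g, hg, -⟩ := (htr {x, y} ∅).exists
    rw [← hg x (by simp), ← hg y (by simp)] at hxy
    exact g.injective hxy
  have hr : r ∈ C n := by
    apply S.cclosed
    intro F'
    obtain ⟨i, g', -, hg'⟩ := (htr ∅ F').exists
    exact ⟨fun x => g' (g (Fi i) x), S.comp_un (S.perm g') (hg _), hg'⟩
  have htf : (fun x => t (f x)) ∈ C n := S.comp_un (S.inj_mem ht) hf
  have hrt : r = fun x => t (f x) := by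
    apply S.inj n _ hr _ htf
    funext b
    obtain ⟨F1, hF1⟩ := S.cont r hr b
    obtain ⟨A, hA⟩ := S.exists_supp (X n f b)
    obtain ⟨i, ⟨g', hg1, hg2⟩, hi⟩ := ((htr A F1).and
      (hUbig (Finset.univ.sup b + 1))).exists
    rw [← hF1 _ (S.comp_un (S.perm g') (hg (Fi i))) hg2, S.act_out (S.perm g') (hg _),
      S.act_out (S.inj_mem ht) hf, hgf]
    · exact S.act_congr g'.injective ht A.finite_toSet hA hg1
    · simp only [Fi, Fintype.mem_piFinset, Finset.mem_range]
      intro j
      have : b j ≤ Finset.univ.sup b := Finset.le_sup (Finset.mem_univ j)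
      omega
  obtain ⟨i, g', hg1, hg2⟩ := (htr {f x} {x}).exists
  apply hne (Fi i)
  apply g'.injective
  rw [hg2 x (by simp), hg1 _ (by simp), hrt]

end Sit

end Pool.Agent.Q299.EqClone
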