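import Mathlib

set_option autoImplicit false

namespace Pool.Agent.Q299.FixPt

open Filter

/-- parity of the number of descending steps -/
def cdown (f : ℕ → ℕ) (x : ℕ) : Bool :=
  if h : f x < x then !(cdown f (f x)) else false
termination_by x

/-- number of steps to exceed `N` -/
def steps (F : ℕ → ℕ) (hF : ∀ x, x < F x) (N : ℕ) (x : ℕ) : ℕ :=
  if h : N < x then 0 else steps F hF N (F x) + 1
termination_by N + 1 - x
decreasing_by
  have := hF x
  omega

theorem steps_eq (F : ℕ → ℕ) (hF : ∀ x, x < F x) (N x : ℕ) (h : x ≤ N) :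
    steps F hF N x = steps F hF N (F x) + 1 := by
  rw [steps]
  rw [dif_neg (by omega)]

theorem cdown_eq (f : ℕ → ℕ) (x : ℕ) (h : f x < x) : cdown f x = !(cdown f (f x)) := by
  rw [cdown]
  rw [dif_pos h]

/-- If an ultrafilter on `ℕ` is mapped to itself by `f`, then `f` is the identity on some set of the
ultrafilter. -/
theorem fix (u : Ultrafilter ℕ) (f : ℕ → ℕ) (h : u.map f = u) :
    ∀ᶠ x in (u : Filter ℕ), f x = x := by
  have hpre : ∀ (g : ℕ → ℕ) (p : ℕ → Prop), u.map g = u →
      ((∀ᶠ x in (u : Filter ℕ), p (g x)) ↔ ∀ᶠ x in (u : Filter ℕ), p x) := by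
    intro g p hg
    conv_rhs => rw [← hg]
    exact Iff.rfl
  have hno : ∀ (g : ℕ → ℕ) (p : ℕ → Prop), u.map g = u →
      (∀ᶠ x in (u : Filter ℕ), (p (g x) ↔ ¬ p x)) → False := by
    intro g p hg hp
    have h1 := hpre g p hg
    have h2 : (∀ᶠ x in (u : Filter ℕ), p (g x)) ↔ ∀ᶠ x in (u : Filter ℕ), ¬ p x :=
      Filter.eventually_congr hp
    rw [Ultrafilter.eventually_not] at h2
    rw [h1] at h2
    exact iff_not_self h2
  by_contra hcon
  rw [← Ultrafilter.eventually_not] at hcon
  have h1 : ∀ᶠ x in (u : Filter ℕ), f x < x ∨ x < f x := by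
    filter_upwards [hcon] with x hx
    omega
  rw [Ultrafilter.eventually_or] at h1
  rcases h1 with h1 | h1
  · apply hno f (fun x => cdown f x = true) h
    filter_upwards [h1] with x hx
    rw [cdown_eq f x hx]
    cases cdown f (f x) <;> simp
  · let F : ℕ → ℕ := fun x => if x < f x then f x else x + 1
    have hF : ∀ x, x < F x := by
      intro x
      change x < if x < f x then f x else x + 1
      split_ifs <;> omega
    have hFu : u.map F = u := by
      rw [← h]
      apply Ultrafilter.coe_injective
      rw [h]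
      have : (u.map f : Filter ℕ) = u.map F := by
        refine Filter.map_congr ?_
        filter_upwards [h1] with x hx
        change f x = if x < f x then f x else x + 1
        rw [if_pos hx]
      rw [← this, h]
    apply hno F (fun x => ∀ᶠ N in (hyperfilter ℕ : Filter ℕ), Odd (steps F hF N x)) hFu
    refine Filter.Eventually.of_forall fun x => ?_
    rw [← Ultrafilter.eventually_not]
    refine Filter.eventually_congr ?_
    have h2 : (hyperfilter ℕ : Filter ℕ) ≤ atTop := by
      rw [← Nat.cofinite_eq_atTop]
      exact hyperfilter_le_cofinite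
    apply h2
    filter_upwards [eventually_ge_atTop x] with N hN
    rw [steps_eq F hF N x hN, Nat.odd_add_one, not_not]

end Pool.Agent.Q299.FixPt
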