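import Mathlib
import Pool.Agent.Q299.ClosedMonoids
import Pool.Agent.Q299.DenseUnits2

set_option autoImplicit false

namespace Pool.Agent.Q299.Reconstruct

open Pool.Agent.Q299.ClosedMonoids Topology

/-- The topology of pointwise convergence on `Sym(Ω)`, i.e. the subspace topology of `Ω^Ω`. -/
@[reducible] def permTop (Ω : Type) : TopologicalSpace (Equiv.Perm Ω) :=
  TopologicalSpace.induced (fun g : Equiv.Perm Ω => (g : Ω → Ω)) (pwTop Ω)

/-- `G` is a closed subgroup of `Sym(Ω)`. -/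
def ClosedGroup {Ω : Type} (G : Subgroup (Equiv.Perm Ω)) : Prop :=
  IsClosed[permTop Ω] (G : Set (Equiv.Perm Ω))

/-- The subspace topology of a subgroup of `Sym(Ω)`. -/
@[reducible] def groupTop {Ω : Type} (G : Subgroup (Equiv.Perm Ω)) : TopologicalSpace G :=
  TopologicalSpace.induced (fun g : G => (g : Equiv.Perm Ω)) (permTop Ω)

/-- `f` is in the closure of `G` in `Ω^Ω`. -/
def InClosure {Ω : Type} (G : Subgroup (Equiv.Perm Ω)) (f : Ω → Ω) : Prop :=
  f ∈ @closure (Ω → Ω) (pwTop Ω) {h | ∃ g ∈ G, (g : Ω → Ω) = h}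

theorem inClosure_iff {Ω : Type} (G : Subgroup (Equiv.Perm Ω)) (f : Ω → Ω) :
    InClosure G f ↔ ∀ F : Finset Ω, ∃ g ∈ G, ∀ x ∈ F, g x = f x := by
  unfold InClosure
  rw [@mem_closure_iff _ (pwTop Ω)]
  constructor
  · intro h F
    obtain ⟨_, h1, g, hg, rfl⟩ := h {f' | ∀ x ∈ F, f' x = f x} (by
      rw [isOpen_pw]
      intro f' hf'
      exact ⟨F, fun g hg x hx => (hg x hx).trans (hf' x hx)⟩) (fun x _ => rfl)
    exact ⟨g, hg, h1⟩
  · intro h V hV hfV
    obtain ⟨F, hF⟩ := (isOpen_pw V).1 hV f hfV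
    obtain ⟨g, hg, hgF⟩ := h F
    exact ⟨g, hF g hgF, g, hg, rfl⟩

/-- The closure of the permutation group `G` in `Ω^Ω`, as a submonoid of `Ω^Ω`. -/
def closureMonoid {Ω : Type} (G : Subgroup (Equiv.Perm Ω)) : Submonoid (Function.End Ω) where
  carrier := {f | InClosure G f}
  one_mem' := by
    refine (inClosure_iff G _).2 fun F => ⟨1, G.one_mem, fun x _ => rfl⟩
  mul_mem' := by
    classical
    intro f f' hf hf'
    refine (inClosure_iff G _).2 fun F => ?_
    obtain ⟨g', hg', h'⟩ := (inClosure_iff G f').1 hf' F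
    obtain ⟨g, hg, h⟩ := (inClosure_iff G f).1 hf (F.image f')
    refine ⟨g * g', G.mul_mem hg hg', fun x hx => ?_⟩
    change g (g' x) = f (f' x)
    rw [h' x hx, h _ (Finset.mem_image_of_mem _ hx)]

theorem mem_closureMonoid {Ω : Type} (G : Subgroup (Equiv.Perm Ω)) (f : Function.End Ω) :
    f ∈ closureMonoid G ↔ ∀ F : Finset Ω, ∃ g ∈ G, ∀ x ∈ F, g x = f x :=
  inClosure_iff G f

theorem isOpen_grp {Ω : Type} {G : Subgroup (Equiv.Perm Ω)} (V : Set G) :
    IsOpen[groupTop G] V ↔ ∀ f ∈ V, ∃ F : Finset Ω, ∀ g : G, (∀ x ∈ F, g.1 x = f.1 x) → g ∈ V := by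
  have htop : groupTop G = TopologicalSpace.induced (fun g : G => ((g : Equiv.Perm Ω) : Ω → Ω))
      (pwTop Ω) := by
    unfold groupTop permTop
    rw [induced_compose]
    rfl
  rw [htop]
  constructor
  · rintro ⟨W, hW, rfl⟩ f hf
    obtain ⟨F, hF⟩ := (isOpen_pw W).1 hW _ hf
    exact ⟨F, fun g hg => hF _ hg⟩
  · intro h
    refine ⟨{w | ∃ f ∈ V, ∃ F : Finset Ω, (∀ g : G, (∀ x ∈ F, g.1 x = f.1 x) → g ∈ V) ∧
      ∀ x ∈ F, w x = f.1 x}, ?_, ?_⟩
    · apply (isOpen_pw _).2
      rintro w ⟨f, hf, F, hF, hw⟩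
      exact ⟨F, fun g hg => ⟨f, hf, F, hF, fun x hx => (hg x hx).trans (hw x hx)⟩⟩
    · ext g
      constructor
      · rintro ⟨f, hf, F, hF, hg⟩
        exact hF g hg
      · intro hg
        obtain ⟨F, hF⟩ := h g hg
        exact ⟨g, hg, F, hF, fun x _ => rfl⟩

theorem closedGroup_iff {Ω : Type} {G : Subgroup (Equiv.Perm Ω)} :
    ClosedGroup G ↔ ∀ f : Equiv.Perm Ω, (∀ F : Finset Ω, ∃ g ∈ G, ∀ x ∈ F, g x = f x) → f ∈ G := by
  unfold ClosedGroup
  constructor
  · intro h f hf
    by_contra hfG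
    obtain ⟨W, hW, hWG⟩ := (@isOpen_compl_iff _ _ (permTop Ω)).2 h
    have h1 : (f : Ω → Ω) ∈ W := by
      have : f ∈ (fun g : Equiv.Perm Ω => (g : Ω → Ω)) ⁻¹' W := by
        rw [hWG]
        exact hfG
      exact this
    obtain ⟨F, hF⟩ := (isOpen_pw W).1 hW _ h1
    obtain ⟨g, hg, hgF⟩ := hf F
    have h2 : g ∈ (fun g : Equiv.Perm Ω => (g : Ω → Ω)) ⁻¹' W := hF g hgF
    rw [hWG] at h2
    exact h2 hg
  · intro h
    rw [← @isOpen_compl_iff _ _ (permTop Ω)]
    refine ⟨{w | ∃ F : Finset Ω, ∀ g ∈ G, ∃ x ∈ F, g x ≠ w x}, ?_, ?_⟩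
    · apply (isOpen_pw _).2
      rintro w ⟨F, hF⟩
      refine ⟨F, fun w' hw' => ⟨F, fun g hg => ?_⟩⟩
      obtain ⟨x, hx, hne⟩ := hF g hg
      exact ⟨x, hx, by rw [hw' x hx]; exact hne⟩
    · ext f
      constructor
      · rintro ⟨F, hF⟩ hfG
        obtain ⟨x, -, hx⟩ := hF f hfG
        exact hx rfl
      · intro hf
        by_contra hcon
        apply hf
        apply h
        intro F
        by_contra hF
        push Not at hF
        exact hcon ⟨F, hF⟩

/-- Every isomorphism-independent form of reconstruction: `G` is reconstructible with respect to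
the class of all closed subgroups of `Sym(Ω)`. -/
def GroupReconstructible {Ω : Type} (G : Subgroup (Equiv.Perm Ω)) : Prop :=
  ∀ H : Subgroup (Equiv.Perm Ω), ClosedGroup H → Nonempty (G ≃* H) →
    ∃ φ : G ≃* H, @Continuous G H (groupTop G) (groupTop H) φ ∧
      @Continuous H G (groupTop H) (groupTop G) φ.symm

/-- `S` is reconstructible with respect to the class of all closed submonoids of `Ω^Ω`. -/
def MonoidReconstructible {Ω : Type} (S : Submonoid (Function.End Ω)) : Prop :=
  ∀ T : Submonoid (Function.End Ω), ClosedIn T → Nonempty (S ≃* T) →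
    ∃ φ : S ≃* T, @Continuous S T (subTop S) (subTop T) φ ∧
      @Continuous T S (subTop T) (subTop S) φ.symm

/-! ### Extension of topological isomorphisms to the closures -/

section extend

variable {Ω Ω' : Type} {G : Subgroup (Equiv.Perm Ω)} {H : Subgroup (Equiv.Perm Ω')}

theorem exists_support (φ : G →* H) (hφ : @Continuous G H (groupTop G) (groupTop H) φ) (b : Ω') :
    ∃ A : Finset Ω, ∀ g g' : G, (∀ x ∈ A, g.1 x = g'.1 x) → (φ g).1 b = (φ g').1 b := by
  have h1 := (@continuous_def G H (groupTop G) (groupTop H) φ).1 hφ {h | h.1 b = b} (by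
    rw [isOpen_grp]
    intro h hh
    exact ⟨{b}, fun g hg => (hg b (by simp)).trans hh⟩)
  obtain ⟨A, hA⟩ := (isOpen_grp _).1 h1 1 (by
    change (φ 1).1 b = b
    rw [map_one]
    rfl)
  refine ⟨A, fun g g' hgg => ?_⟩
  have h2 : (φ (g⁻¹ * g')).1 b = b := by
    apply hA
    intro x hx
    change g.1.symm (g'.1 x) = x
    rw [← hgg x hx, Equiv.symm_apply_apply]
  rw [map_mul, map_inv] at h2
  change (φ g).1.symm ((φ g').1 b) = b at h2
  rw [Equiv.symm_apply_eq] at h2
  exact h2.symm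

/-- The support of a point. -/
noncomputable def supp (φ : G →* H) (hφ : @Continuous G H (groupTop G) (groupTop H) φ) (b : Ω') :
    Finset Ω := (exists_support φ hφ b).choose

theorem supp_spec (φ : G →* H) (hφ : @Continuous G H (groupTop G) (groupTop H) φ) (b : Ω')
    (g g' : G) (h : ∀ x ∈ supp φ hφ b, g.1 x = g'.1 x) : (φ g).1 b = (φ g').1 b :=
  (exists_support φ hφ b).choose_spec g g' h

theorem exists_approx (f : closureMonoid G) (A : Finset Ω) : ∃ g : G, ∀ x ∈ A, g.1 x = f.1 x := by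
  obtain ⟨g, hg, h⟩ := (mem_closureMonoid G f.1).1 f.2 A
  exact ⟨⟨g, hg⟩, h⟩

/-- The extension as a map. -/
noncomputable def extFun (φ : G →* H) (hφ : @Continuous G H (groupTop G) (groupTop H) φ)
    (f : closureMonoid G) : Function.End Ω' :=
  fun b => (φ (exists_approx f (supp φ hφ b)).choose).1 b

theorem extFun_spec (φ : G →* H) (hφ : @Continuous G H (groupTop G) (groupTop H) φ)
    (f : closureMonoid G) (b : Ω') (g : G) (h : ∀ x ∈ supp φ hφ b, g.1 x = f.1 x) :
    (φ g).1 b = extFun φ hφ f b := by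
  apply supp_spec φ hφ b
  intro x hx
  rw [h x hx]
  exact ((exists_approx f (supp φ hφ b)).choose_spec x hx).symm

theorem extFun_mem (φ : G →* H) (hφ : @Continuous G H (groupTop G) (groupTop H) φ)
    (f : closureMonoid G) : extFun φ hφ f ∈ closureMonoid H := by
  classical
  rw [mem_closureMonoid]
  intro B
  obtain ⟨g, hg⟩ := exists_approx f (B.biUnion (supp φ hφ))
  refine ⟨(φ g).1, (φ g).2, fun b hb => ?_⟩
  exact extFun_spec φ hφ f b g fun x hx => hg x (Finset.mem_biUnion.2 ⟨b, hb, hx⟩)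

theorem extFun_mul (φ : G →* H) (hφ : @Continuous G H (groupTop G) (groupTop H) φ)
    (f f' : closureMonoid G) : extFun φ hφ (f * f') = extFun φ hφ f * extFun φ hφ f' := by
  classical
  funext b
  change extFun φ hφ (f * f') b = extFun φ hφ f (extFun φ hφ f' b)
  obtain ⟨g', hg'⟩ := exists_approx f' (supp φ hφ b)
  obtain ⟨g, hg⟩ := exists_approx f (supp φ hφ (extFun φ hφ f' b) ∪ (supp φ hφ b).image f'.1)
  rw [← extFun_spec φ hφ (f * f') b (g * g') (by
    intro x hx
    change g.1 (g'.1 x) = f.1 (f'.1 x)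
    rw [hg' x hx]
    exact hg _ (Finset.mem_union_right _ (Finset.mem_image_of_mem _ hx))),
    ← extFun_spec φ hφ f _ g (fun x hx => hg x (Finset.mem_union_left _ hx)),
    ← extFun_spec φ hφ f' b g' hg', map_mul]
  rfl

theorem extFun_inv (φ : G ≃* H) (hφ : @Continuous G H (groupTop G) (groupTop H) φ.toMonoidHom)
    (hφ' : @Continuous H G (groupTop H) (groupTop G) φ.symm.toMonoidHom) (f : closureMonoid G) :
    extFun φ.symm.toMonoidHom hφ' ⟨extFun φ.toMonoidHom hφ f, extFun_mem _ hφ f⟩ = f.1 := by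
  classical
  funext a
  obtain ⟨g, hg⟩ := exists_approx f
    (insert a ((supp φ.symm.toMonoidHom hφ' a).biUnion (supp φ.toMonoidHom hφ)))
  rw [← extFun_spec φ.symm.toMonoidHom hφ' ⟨extFun φ.toMonoidHom hφ f, extFun_mem _ hφ f⟩ a (φ g) (by
    intro b hb
    exact extFun_spec φ.toMonoidHom hφ f b g fun x hx =>
      hg x (Finset.mem_insert_of_mem (Finset.mem_biUnion.2 ⟨b, hb, hx⟩)))]
  change (φ.symm (φ g)).1 a = f.1 a
  rw [φ.symm_apply_apply]
  exact hg a (Finset.mem_insert_self _ _)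

theorem extFun_continuous (φ : G →* H) (hφ : @Continuous G H (groupTop G) (groupTop H) φ) :
    @Continuous (closureMonoid G) (closureMonoid H) (subTop _) (subTop _)
      (fun f => ⟨extFun φ hφ f, extFun_mem φ hφ f⟩) := by
  classical
  rw [@continuous_def _ _ (subTop (closureMonoid G)) (subTop (closureMonoid H))]
  intro V hV
  rw [isOpen_sub]
  intro f hf
  obtain ⟨B, hB⟩ := (isOpen_sub V).1 hV _ hf
  refine ⟨B.biUnion (supp φ hφ), fun f' hf' => hB _ fun b hb => ?_⟩
  obtain ⟨g, hg⟩ := exists_approx f (supp φ hφ b)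
  change extFun φ hφ f' b = extFun φ hφ f b
  rw [← extFun_spec φ hφ f b g hg]
  symm
  apply extFun_spec
  intro x hx
  rw [hg x hx]
  exact (hf' x (Finset.mem_biUnion.2 ⟨b, hb, hx⟩)).symm

/-- A topological isomorphism of permutation groups extends to a topological isomorphism of the
closures. -/
theorem extend (φ : G ≃* H) (hφ : @Continuous G H (groupTop G) (groupTop H) φ)
    (hφ' : @Continuous H G (groupTop H) (groupTop G) φ.symm) :
    ∃ Φ : closureMonoid G ≃* closureMonoid H,
      @Continuous _ _ (subTop (closureMonoid G)) (subTop (closureMonoid H)) Φ ∧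
      @Continuous _ _ (subTop (closureMonoid H)) (subTop (closureMonoid G)) Φ.symm := by
  have h1 : @Continuous G H (groupTop G) (groupTop H) φ.toMonoidHom := hφ
  have h2 : @Continuous H G (groupTop H) (groupTop G) φ.symm.toMonoidHom := hφ'
  refine ⟨{ toFun := fun f => ⟨extFun φ.toMonoidHom h1 f, extFun_mem _ h1 f⟩
            invFun := fun f => ⟨extFun φ.symm.toMonoidHom h2 f, extFun_mem _ h2 f⟩
            left_inv := ?_
            right_inv := ?_
            map_mul' := ?_ }, extFun_continuous _ h1, extFun_continuous _ h2⟩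
  · intro f
    exact Subtype.ext (extFun_inv φ h1 h2 f)
  · intro f
    exact Subtype.ext (extFun_inv φ.symm h2 h1 f)
  · intro f f'
    exact Subtype.ext (extFun_mul _ h1 f f')

end extend

/-! ### The group of units of a closed monoid -/

/-- A permutation as an element of `Ω^Ω`. -/
def toEnd {Ω : Type} (g : Equiv.Perm Ω) : Function.End Ω := fun x => g x

/-- The permutations `g` with `g, g⁻¹ ∈ T`. -/
def unitPerms {Ω : Type} (T : Submonoid (Function.End Ω)) : Subgroup (Equiv.Perm Ω) where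
  carrier := {g | toEnd g ∈ T ∧ toEnd g⁻¹ ∈ T}
  one_mem' := ⟨T.one_mem, T.one_mem⟩
  mul_mem' := by
    intro a b ha hb
    have h1 : toEnd a * toEnd b ∈ T := T.mul_mem ha.1 hb.1
    have h2 : toEnd b⁻¹ * toEnd a⁻¹ ∈ T := T.mul_mem hb.2 ha.2
    refine ⟨h1, ?_⟩
    rw [mul_inv_rev]
    exact h2
  inv_mem' := by
    intro a ha
    refine ⟨ha.2, ?_⟩
    rw [inv_inv]
    exact ha.1

theorem closedGroup_unitPerms {Ω : Type} {T : Submonoid (Function.End Ω)} (hT : ClosedIn T) :
    ClosedGroup (unitPerms T) := by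
  classical
  rw [closedGroup_iff]
  intro f hf
  rw [closedIn_iff] at hT
  constructor
  · apply hT
    intro F
    obtain ⟨g, hg, h⟩ := hf F
    exact ⟨_, hg.1, h⟩
  · apply hT
    intro F
    obtain ⟨g, hg, h⟩ := hf (F.image f.symm)
    refine ⟨_, hg.2, fun x hx => ?_⟩
    change g.symm x = f.symm x
    rw [Equiv.symm_apply_eq, h _ (Finset.mem_image_of_mem _ hx), Equiv.apply_symm_apply]

/-- The group of units of `T` is the group of permutations `g` with `g, g⁻¹ ∈ T`. -/
def unitsEquiv {Ω : Type} (T : Submonoid (Function.End Ω)) : Tˣ ≃* unitPerms T where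
  toFun u := ⟨⟨u.1.1, (u⁻¹).1.1, fun x => DenseUnits.inv_apply u x, fun x => DenseUnits.apply_inv u x⟩,
    u.1.2, (u⁻¹).1.2⟩
  invFun g := ⟨⟨toEnd g.1, g.2.1⟩, ⟨toEnd g.1⁻¹, g.2.2⟩,
    Subtype.ext (funext fun x => g.1.apply_symm_apply x),
    Subtype.ext (funext fun x => g.1.symm_apply_apply x)⟩
  left_inv u := by
    apply Units.ext
    rfl
  right_inv g := by
    apply Subtype.ext
    apply Equiv.ext
    intro x
    rfl
  map_mul' u v := by
    apply Subtype.ext
    apply Equiv.ext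
    intro x
    rfl

theorem unitPerms_closureMonoid {Ω : Type} {G : Subgroup (Equiv.Perm Ω)} (hG : ClosedGroup G) :
    unitPerms (closureMonoid G) = G := by
  ext g
  constructor
  · rintro ⟨h, -⟩
    exact closedGroup_iff.1 hG g ((mem_closureMonoid G _).1 h)
  · intro hg
    exact ⟨(mem_closureMonoid G _).2 fun F => ⟨g, hg, fun _ _ => rfl⟩,
      (mem_closureMonoid G _).2 fun F => ⟨g⁻¹, G.inv_mem hg, fun _ _ => rfl⟩⟩

/-- **Key theorem.** If `T` is a closed submonoid of `Ω'^Ω'` which is isomorphic, as an abstract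
semigroup, to the closure of a permutation group, then `T` is the closure of its group of units. -/
theorem eq_closure {Ω Ω' : Type} [Countable Ω] [Countable Ω'] (G : Subgroup (Equiv.Perm Ω))
    (T : Submonoid (Function.End Ω')) (hT : ClosedIn T) (ψ : closureMonoid G ≃* T) :
    closureMonoid (unitPerms T) = T := by
  have h1 : DenseUnits.HasSeqColimits T :=
    (DenseUnits.exists_colimit G (closureMonoid G) (mem_closureMonoid G)).of_mulEquiv ψ
  ext f
  rw [mem_closureMonoid]
  constructor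
  · intro h
    apply closedIn_iff.1 hT
    intro F
    obtain ⟨g, hg, hgF⟩ := h F
    exact ⟨_, hg.1, hgF⟩
  · intro hf F
    obtain ⟨u, hu⟩ := DenseUnits.dense_units (closedIn_iff.1 hT) h1 ⟨f, hf⟩ F
    exact ⟨(unitsEquiv T u).1, (unitsEquiv T u).2, hu⟩

/-- An abstract isomorphism between the closures restricts to the groups. -/
noncomputable def groupIso {Ω Ω' : Type} {G : Subgroup (Equiv.Perm Ω)} (hG : ClosedGroup G)
    {T : Submonoid (Function.End Ω')} (ψ : closureMonoid G ≃* T) : G ≃* unitPerms T :=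
  ((MulEquiv.subgroupCongr (unitPerms_closureMonoid hG)).symm.trans
    (unitsEquiv (closureMonoid G)).symm).trans ((Units.mapEquiv ψ).trans (unitsEquiv T))

end Pool.Agent.Q299.Reconstruct
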