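import Mathlib

set_option autoImplicit false

namespace Pool.Agent.Q299.TypeSpace

open FirstOrder Filter

/-- A complete `n`-type over `M` (with parameters from `M`, with respect to `Th(M)`), as a set of
formulas: the variables of a formula are elements of `M`, which stand for themselves as parameters,
and the `n` variables of the type. The set is complete, and finitely satisfiable in `M`. -/
def IsCType (L : FirstOrder.Language.{0, 0}) (M : Type) [L.Structure M] (n : ℕ)
    (p : Set (L.Formula (M ⊕ Fin n))) : Prop :=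
  (∀ φ : L.Formula (M ⊕ Fin n), φ ∈ p ∨ φ.not ∈ p) ∧
    ∀ F : Finset (L.Formula (M ⊕ Fin n)), (∀ φ ∈ F, φ ∈ p) →
      ∃ x : Fin n → M, ∀ φ ∈ F, φ.Realize (Sum.elim id x)

/-- The space `S_n(M)` of complete `n`-types over `M`. -/
def TypeSpace (L : FirstOrder.Language.{0, 0}) (M : Type) [L.Structure M] (n : ℕ) : Type :=
  {p : Set (L.Formula (M ⊕ Fin n)) // IsCType L M n p}

variable {L : FirstOrder.Language.{0, 0}} {M : Type} [L.Structure M] {n : ℕ}

theorem mem_congr (p : TypeSpace L M n) {φ ψ : L.Formula (M ⊕ Fin n)}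
    (h : ∀ x : Fin n → M, φ.Realize (Sum.elim id x) ↔ ψ.Realize (Sum.elim id x)) :
    φ ∈ p.1 ↔ ψ ∈ p.1 := by
  classical
  have key : ∀ φ ψ : L.Formula (M ⊕ Fin n),
      (∀ x : Fin n → M, φ.Realize (Sum.elim id x) ↔ ψ.Realize (Sum.elim id x)) →
      φ ∈ p.1 → ψ ∈ p.1 := by
    intro φ ψ h hφ
    rcases p.2.1 ψ with h1 | h1
    · exact h1
    · exfalso
      obtain ⟨x, hx⟩ := p.2.2 {φ, ψ.not} (by
        intro θ hθ
        rcases Finset.mem_insert.1 hθ with rfl | hθ
        · exact hφ
        · rw [Finset.mem_singleton.1 hθ]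
          exact h1)
      have h2 := hx φ (by simp)
      have h3 := hx ψ.not (by simp)
      rw [FirstOrder.Language.Formula.realize_not] at h3
      exact h3 ((h x).1 h2)
  exact ⟨key φ ψ h, key ψ φ fun x => (h x).symm⟩

theorem not_mem_iff (p : TypeSpace L M n) (φ : L.Formula (M ⊕ Fin n)) :
    φ.not ∈ p.1 ↔ φ ∉ p.1 := by
  classical
  constructor
  · intro h1 h2
    obtain ⟨x, hx⟩ := p.2.2 {φ, φ.not} (by
      intro θ hθ
      rcases Finset.mem_insert.1 hθ with rfl | hθ
      · exact h2
      · rw [Finset.mem_singleton.1 hθ]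
        exact h1)
    have h3 := hx φ.not (by simp)
    rw [FirstOrder.Language.Formula.realize_not] at h3
    exact h3 (hx φ (by simp))
  · intro h
    exact (p.2.1 φ).resolve_left h

theorem inf_mem_iff (p : TypeSpace L M n) (φ ψ : L.Formula (M ⊕ Fin n)) :
    φ ⊓ ψ ∈ p.1 ↔ φ ∈ p.1 ∧ ψ ∈ p.1 := by
  classical
  constructor
  · intro h
    constructor
    · by_contra h1
      rw [← not_mem_iff] at h1
      obtain ⟨x, hx⟩ := p.2.2 {φ ⊓ ψ, φ.not} (by
        intro θ hθ
        rcases Finset.mem_insert.1 hθ with rfl | hθ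
        · exact h
        · rw [Finset.mem_singleton.1 hθ]
          exact h1)
      have h3 := hx φ.not (by simp)
      have h4 := hx (φ ⊓ ψ) (by simp)
      rw [FirstOrder.Language.Formula.realize_not] at h3
      rw [FirstOrder.Language.Formula.realize_inf] at h4
      exact h3 h4.1
    · by_contra h1
      rw [← not_mem_iff] at h1
      obtain ⟨x, hx⟩ := p.2.2 {φ ⊓ ψ, ψ.not} (by
        intro θ hθ
        rcases Finset.mem_insert.1 hθ with rfl | hθ
        · exact h
        · rw [Finset.mem_singleton.1 hθ]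
          exact h1)
      have h3 := hx ψ.not (by simp)
      have h4 := hx (φ ⊓ ψ) (by simp)
      rw [FirstOrder.Language.Formula.realize_not] at h3
      rw [FirstOrder.Language.Formula.realize_inf] at h4
      exact h3 h4.2
  · rintro ⟨h1, h2⟩
    by_contra h3
    rw [← not_mem_iff] at h3
    obtain ⟨x, hx⟩ := p.2.2 {φ, ψ, (φ ⊓ ψ).not} (by
      intro θ hθ
      rcases Finset.mem_insert.1 hθ with rfl | hθ
      · exact h1
      rcases Finset.mem_insert.1 hθ with rfl | hθ
      · exact h2
      · rw [Finset.mem_singleton.1 hθ]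
        exact h3)
    have h4 := hx (φ ⊓ ψ).not (by simp)
    rw [FirstOrder.Language.Formula.realize_not, FirstOrder.Language.Formula.realize_inf] at h4
    exact h4 ⟨hx φ (by simp), hx ψ (by simp)⟩

/-- The Stone topology of `S_n(M)`: `U` is open iff with every `p` it contains all types which contain
some fixed formula of `p`. -/
instance instTop : TopologicalSpace (TypeSpace L M n) where
  IsOpen U := ∀ p ∈ U, ∃ φ ∈ p.1, ∀ q : TypeSpace L M n, φ ∈ q.1 → q ∈ U
  isOpen_univ := by
    intro p _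
    obtain ⟨φ, hφ⟩ : ∃ φ : L.Formula (M ⊕ Fin n), φ ∈ p.1 := by
      rcases p.2.1 ⊥ with h | h
      · exact ⟨_, h⟩
      · exact ⟨_, h⟩
    exact ⟨φ, hφ, fun q _ => Set.mem_univ q⟩
  isOpen_inter := by
    rintro U V hU hV p ⟨hpU, hpV⟩
    obtain ⟨φ, h1, h2⟩ := hU p hpU
    obtain ⟨ψ, h3, h4⟩ := hV p hpV
    refine ⟨φ ⊓ ψ, (inf_mem_iff p φ ψ).2 ⟨h1, h3⟩, fun q hq => ?_⟩
    rw [inf_mem_iff] at hq
    exact ⟨h2 q hq.1, h4 q hq.2⟩
  isOpen_sUnion := by
    rintro S hS p ⟨U, hU, hp⟩
    obtain ⟨φ, h1, h2⟩ := hS U hU p hp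
    exact ⟨φ, h1, fun q hq => ⟨U, hU, h2 q hq⟩⟩

theorem isOpen_iff (U : Set (TypeSpace L M n)) : IsOpen U ↔
    ∀ p ∈ U, ∃ φ ∈ p.1, ∀ q : TypeSpace L M n, φ ∈ q.1 → q ∈ U := Iff.rfl

/-- The action of an automorphism on types: `g · p = {φ(x, g b) : φ(x, b) ∈ p}`, that is,
`φ(x, b) ∈ g · p` iff `φ(x, g⁻¹ b) ∈ p`. -/
def act (g : M ≃[L] M) (p : TypeSpace L M n) : TypeSpace L M n :=
  ⟨{φ | φ.relabel (Sum.map g.symm id) ∈ p.1}, by
    classical
    constructor
    · intro φ
      rcases p.2.1 (φ.relabel (Sum.map g.symm id)) with h | h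
      · exact Or.inl h
      · right
        change φ.not.relabel (Sum.map g.symm id) ∈ p.1
        rw [mem_congr p (ψ := (φ.relabel (Sum.map g.symm id)).not)]
        · exact h
        · intro x
          rw [FirstOrder.Language.Formula.realize_relabel, FirstOrder.Language.Formula.realize_not,
            FirstOrder.Language.Formula.realize_not, FirstOrder.Language.Formula.realize_relabel]
    · intro F hF
      obtain ⟨x, hx⟩ := p.2.2 (F.image (fun φ => φ.relabel (Sum.map g.symm id))) (by
        intro θ hθ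
        obtain ⟨φ, hφ, rfl⟩ := Finset.mem_image.1 hθ
        exact hF φ hφ)
      refine ⟨fun i => g (x i), fun φ hφ => ?_⟩
      have h1 := hx _ (Finset.mem_image_of_mem _ hφ)
      rw [FirstOrder.Language.Formula.realize_relabel] at h1
      rw [← FirstOrder.Language.StrongHomClass.realize_formula g φ] at h1
      convert h1 using 1
      funext i
      rcases i with m | i
      · simp
      · simp⟩

theorem mem_act (g : M ≃[L] M) (p : TypeSpace L M n) (φ : L.Formula (M ⊕ Fin n)) :
    φ ∈ (act g p).1 ↔ φ.relabel (Sum.map g.symm id) ∈ p.1 := Iff.rfl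

variable (L M) in
/-- The fixed points on type spaces property: for all `n ≥ 1` each nonempty closed invariant subset
of `S_n(M)` contains a type which is fixed by all automorphisms. -/
def FPT : Prop :=
  ∀ n : ℕ, 1 ≤ n → ∀ X : Set (TypeSpace L M n), X.Nonempty → IsClosed X →
    (∀ g : M ≃[L] M, ∀ p ∈ X, act g p ∈ X) → ∃ p ∈ X, ∀ g : M ≃[L] M, act g p = p

end Pool.Agent.Q299.TypeSpace
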