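import Mathlib
import Pool.Agent.Q299.TypeSpace

set_option autoImplicit false

namespace Pool.Agent.Q299.TypeLim

open FirstOrder Filter Pool.Agent.Q299.TypeSpace

variable {L : FirstOrder.Language.{0, 0}} {M : Type} [L.Structure M] {n : ℕ}

/-- limit of types along an ultrafilter -/
def lim {ι : Type} (U : Ultrafilter ι) (P : ι → TypeSpace L M n) : TypeSpace L M n :=
  ⟨{φ | ∀ᶠ i in (U : Filter ι), φ ∈ (P i).1}, by
    constructor
    · intro φ
      by_cases h : ∀ᶠ k in (U : Filter ι), φ ∈ (P k).1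
      · exact Or.inl h
      · right
        rw [← Ultrafilter.eventually_not] at h
        change ∀ᶠ k in (U : Filter ι), φ.not ∈ (P k).1
        filter_upwards [h] with k hk
        exact (not_mem_iff _ _).2 hk
    · intro F hF
      have h1 : ∀ᶠ k in (U : Filter ι), ∀ φ ∈ F, φ ∈ (P k).1 := by
        rw [Filter.eventually_all_finset]
        exact hF
      obtain ⟨k, hk⟩ := h1.exists
      exact (P k).2.2 F hk⟩

theorem mem_lim {ι : Type} (U : Ultrafilter ι) (P : ι → TypeSpace L M n)
    (φ : L.Formula (M ⊕ Fin n)) : φ ∈ (lim U P).1 ↔ ∀ᶠ i in (U : Filter ι), φ ∈ (P i).1 := Iff.rfl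

theorem lim_mem {ι : Type} (U : Ultrafilter ι) (P : ι → TypeSpace L M n)
    (X : Set (TypeSpace L M n)) (hX : IsClosed X) (hP : ∀ i, P i ∈ X) : lim U P ∈ X := by
  by_contra hqX
  have hopen : IsOpen Xᶜ := hX.isOpen_compl
  obtain ⟨φ, h1, h2⟩ := (isOpen_iff _).1 hopen _ hqX
  have h3 : ∀ᶠ k in (U : Filter ι), φ ∈ (P k).1 := h1
  obtain ⟨k, hk⟩ := h3.exists
  exact h2 (P k) hk (hP k)

/-- realisation of a complete type by an ultrafilter -/
theorem exists_ultra (q : TypeSpace L M n) : ∃ V : Ultrafilter (Fin n → M), ∀ φ, φ ∈ q.1 ↔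
      ∀ᶠ x in (V : Filter (Fin n → M)), φ.Realize (Sum.elim id x) := by
  classical
  let B : Set (Set (Fin n → M)) := {s | ∃ φ ∈ q.1, s = {x | φ.Realize (Sum.elim id x)}}
  have hne : (Filter.generate B).NeBot := by
    rw [Filter.generate_neBot_iff]
    intro t ht hfin
    have : ∀ s ∈ t, ∃ φ ∈ q.1, s = {x | φ.Realize (Sum.elim id x)} := fun s hs => ht hs
    choose! φ hφ1 hφ2 using this
    obtain ⟨x, hx⟩ := q.2.2 (hfin.toFinset.image φ) (by
      intro ψ hψ
      obtain ⟨s, hs, rfl⟩ := Finset.mem_image.1 hψ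
      exact hφ1 s (hfin.mem_toFinset.1 hs))
    refine ⟨x, fun s hs => ?_⟩
    rw [hφ2 s hs]
    exact hx _ (Finset.mem_image_of_mem _ (hfin.mem_toFinset.2 hs))
  have h1 : ∀ φ ∈ q.1, ∀ᶠ x in (Ultrafilter.of (Filter.generate B) : Filter (Fin n → M)),
      φ.Realize (Sum.elim id x) := fun φ hφ =>
    Ultrafilter.of_le _ (Filter.mem_generate_of_mem ⟨φ, hφ, rfl⟩)
  refine ⟨Ultrafilter.of (Filter.generate B), fun φ => ⟨h1 φ, fun h => ?_⟩⟩
  by_contra h2
  rw [← not_mem_iff] at h2
  obtain ⟨x, hx1, hx2⟩ := (h.and (h1 _ h2)).exists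
  rw [FirstOrder.Language.Formula.realize_not] at hx2
  exact hx2 hx1

/-- Every type is realised in an elementary extension. -/
theorem exists_ext [Nonempty M] (q : TypeSpace L M n) :
    ∃ (N : Type) (_ : L.Structure N) (j : M ↪ₑ[L] N) (e : Fin n → N), ∀ φ, φ ∈ q.1 ↔
      φ.Realize (Sum.elim (fun m => j m) e) := by
  classical
  obtain ⟨V, hV⟩ := exists_ultra q
  let N : Type := (V : Filter (Fin n → M)).Product (fun _ => M)
  have hlos : ∀ {β : Type} (φ : L.Formula β) (x : β → (Fin n → M) → M),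
      (φ.Realize fun i => (x i : (V : Filter (Fin n → M)).Product (fun _ => M))) ↔
        ∀ᶠ a in (V : Filter (Fin n → M)), φ.Realize fun i => x i a := fun φ x =>
    FirstOrder.Language.Ultraproduct.realize_formula_cast (u := V) (M := fun _ : Fin n → M => M) φ x
  let j : M ↪ₑ[L] N :=
    { toFun := fun m => ((fun _ => m : (Fin n → M) → M) :
        (V : Filter (Fin n → M)).Product (fun _ => M))
      map_formula' := by
        intro k φ x
        refine (hlos φ (fun i _ => x i)).trans ?_
        rw [Filter.eventually_const] }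
  refine ⟨N, inferInstance, j, fun i => ((fun x => x i : (Fin n → M) → M) :
        (V : Filter (Fin n → M)).Product (fun _ => M)), fun φ => ?_⟩
  rw [hV φ]
  have h1 := hlos φ (Sum.elim (fun m _ => m) (fun i x => x i))
  have h2 : (fun i => ((Sum.elim (fun m _ => m) (fun i x => x i) : M ⊕ Fin n → (Fin n → M) → M) i :
      (V : Filter (Fin n → M)).Product (fun _ => M))) = Sum.elim (fun m => j m)
      (fun i => ((fun x => x i : (Fin n → M) → M) :
        (V : Filter (Fin n → M)).Product (fun _ => M))) := by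
    funext i
    rcases i with i | i <;> rfl
  rw [h2] at h1
  refine Iff.trans ?_ h1.symm
  refine Filter.eventually_congr (Filter.Eventually.of_forall fun x => ?_)
  have h3 : (Sum.elim id x : M ⊕ Fin n → M) = fun i => (Sum.elim (fun m _ => m) (fun i x => x i) :
      M ⊕ Fin n → (Fin n → M) → M) i x := by
    funext i
    rcases i with i | i <;> rfl
  rw [h3]

open Classical in
/-- the parameters of `φ` are in `A` -/
def SuppIn (φ : L.Formula (M ⊕ Fin n)) (A : Finset M) : Prop :=
  ∀ m : M, (Sum.inl m : M ⊕ Fin n) ∈ FirstOrder.Language.BoundedFormula.freeVarFinset φ → m ∈ A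

theorem SuppIn.mono {φ : L.Formula (M ⊕ Fin n)} {A B : Finset M} (h : SuppIn φ A)
    (hAB : ∀ a ∈ A, a ∈ B) : SuppIn φ B := fun m hm => hAB m (h m hm)

theorem exists_suppIn (φ : L.Formula (M ⊕ Fin n)) : ∃ A : Finset M, SuppIn φ A := by
  classical
  have hfin : ({m : M | (Sum.inl m : M ⊕ Fin n) ∈
      FirstOrder.Language.BoundedFormula.freeVarFinset φ} : Set M).Finite :=
    (Finset.finite_toSet (FirstOrder.Language.BoundedFormula.freeVarFinset φ)).preimage
      Sum.inl_injective.injOn
  refine ⟨hfin.toFinset, fun m hm => ?_⟩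
  rw [Set.Finite.mem_toFinset]
  change (Sum.inl m : M ⊕ Fin n) ∈ FirstOrder.Language.BoundedFormula.freeVarFinset φ
  convert hm

theorem realize_congr {N : Type} [L.Structure N] {φ : L.Formula (M ⊕ Fin n)} {A : Finset M}
    (h : SuppIn φ A) (v w : M ⊕ Fin n → N) (h1 : ∀ a ∈ A, v (Sum.inl a) = w (Sum.inl a))
    (h2 : ∀ i, v (Sum.inr i) = w (Sum.inr i)) : φ.Realize v ↔ φ.Realize w := by
  classical
  have h3 : ∀ a : FirstOrder.Language.BoundedFormula.freeVarFinset φ, v a = w a := by
    rintro ⟨m | i, ha⟩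
    · apply h1
      apply h
      convert ha
    · exact h2 i
  have h4 := FirstOrder.Language.BoundedFormula.realize_restrictFreeVar (φ := φ) (f := id)
    (v := fun a => v a) (xs := default) v (fun a => rfl)
  have h5 := FirstOrder.Language.BoundedFormula.realize_restrictFreeVar (φ := φ) (f := id)
    (v := fun a => v a) (xs := default) w (fun a => h3 a)
  exact h4.symm.trans h5

/-- replace the parameters of `φ` by variables -/
theorem exists_restrict (φ : L.Formula (M ⊕ Fin n)) (A : Finset M) (h : SuppIn φ A) (S : Type)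
    (ι : S → M) (hS : ∀ a ∈ A, ∃ s, ι s = a) :
    ∃ ψ : L.Formula (Fin n ⊕ S), ∀ (N : Type) [L.Structure N]
      (e : Fin n → N) (w : M → N), ψ.Realize (Sum.elim e (fun a => w (ι a))) ↔
        φ.Realize (Sum.elim w e) := by
  classical
  choose s hs using hS
  let f : FirstOrder.Language.BoundedFormula.freeVarFinset φ → Fin n ⊕ S := fun x =>
    match hx : x.1 with
    | Sum.inl m => Sum.inr (s m (h m (by
        rw [← hx]
        convert x.2)))
    | Sum.inr i => Sum.inl i
  refine ⟨FirstOrder.Language.BoundedFormula.restrictFreeVar φ f, ?_⟩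
  intro N _ e w
  apply FirstOrder.Language.BoundedFormula.realize_restrictFreeVar (φ := φ) (f := f)
    (v := Sum.elim e (fun a => w (ι a))) (xs := default) (Sum.elim w e)
  rintro ⟨m | i, ha⟩
  · change w (ι (s m _)) = w m
    rw [hs]
  · rfl

theorem relabel_mem_congr (q : TypeSpace L M n) {φ : L.Formula (M ⊕ Fin n)} {A : Finset M}
    (h : SuppIn φ A) (g g' : M → M) (hg : ∀ a ∈ A, g a = g' a) :
    φ.relabel (Sum.map g id) ∈ q.1 ↔ φ.relabel (Sum.map g' id) ∈ q.1 := by
  apply mem_congr
  intro x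
  rw [FirstOrder.Language.Formula.realize_relabel, FirstOrder.Language.Formula.realize_relabel]
  apply realize_congr h
  · intro a ha
    exact hg a ha
  · intro i
    rfl

end Pool.Agent.Q299.TypeLim
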