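import Mathlib

set_option autoImplicit false

namespace Pool.Agent.Q299.UP

open Filter

/-- The ultrapower `ℕ^I / W`, i.e. the nonstandard extension of `ℕ` given by `W`. -/
abbrev Star {I : Type} (W : Ultrafilter I) : Type := Filter.Germ (W : Filter I) ℕ

/-- The ultrafilter `v x = {A | x ∈ *A}` of an element of the ultrapower. -/
def v {I : Type} {W : Ultrafilter I} (x : Star W) : Ultrafilter ℕ :=
  Filter.Germ.liftOn x (fun f => W.map f) (fun f g h => by
    apply Ultrafilter.coe_injective
    exact Filter.map_congr h)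

/-- Nonstandard divisibility. -/
def sdvd {I : Type} {W : Ultrafilter I} (x y : Star W) : Prop := Filter.Germ.LiftRel (· ∣ ·) x y

/-- Every ultrafilter on `ℕ` is `v x` for some `x`, i.e. every monad is nonempty. -/
def MonadsNonempty {I : Type} (W : Ultrafilter I) : Prop :=
  ∀ F : Ultrafilter ℕ, ∃ x : Star W, v x = F

theorem v_coe {I : Type} {W : Ultrafilter I} (f : I → ℕ) : v (f : Star W) = W.map f := rfl

theorem mem_v {I : Type} {W : Ultrafilter I} (f : I → ℕ) (A : Set ℕ) :
    A ∈ v (f : Star W) ↔ ∀ᶠ i in (W : Filter I), f i ∈ A := Iff.rfl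

theorem sdvd_coe {I : Type} {W : Ultrafilter I} (f g : I → ℕ) :
    sdvd (f : Star W) (g : Star W) ↔ ∀ᶠ i in (W : Filter I), f i ∣ g i := Iff.rfl

theorem exists_monadsNonempty : ∃ (I : Type) (W : Ultrafilter I), MonadsNonempty W := by
  classical
  let I := Ultrafilter ℕ → ℕ
  let L : Filter I := Filter.pi (fun F : Ultrafilter ℕ => (F : Filter ℕ))
  have hL : L.NeBot := inferInstance
  refine ⟨I, Ultrafilter.of L, fun F => ⟨((fun i : I => i F) : I → ℕ), ?_⟩⟩
  rw [v_coe]
  apply Ultrafilter.eq_of_le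
  have h1 : Filter.Tendsto (fun i : I => i F) L F :=
    Filter.tendsto_eval_pi (fun F : Ultrafilter ℕ => (F : Filter ℕ)) F
  exact (Filter.map_mono (Ultrafilter.of_le L)).trans h1

/-- The tensor product of two ultrafilters. -/
def tensor {α β : Type} (U : Ultrafilter α) (V : Ultrafilter β) : Ultrafilter (α × β) :=
  U.bind (fun a => V.map (Prod.mk a))

theorem mem_tensor {α β : Type} {U : Ultrafilter α} {V : Ultrafilter β} {A : Set (α × β)} :
    A ∈ tensor U V ↔ ∀ᶠ a in (U : Filter α), ∀ᶠ b in (V : Filter β), (a, b) ∈ A := Iff.rfl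

theorem map_fst_tensor {α β : Type} (U : Ultrafilter α) (V : Ultrafilter β) :
    (tensor U V).map Prod.fst = U := by
  apply Ultrafilter.coe_injective
  ext A
  change (∀ᶠ a in (U : Filter α), ∀ᶠ b in (V : Filter β), a ∈ A) ↔ _
  simp only [Filter.eventually_const]
  rfl

theorem map_snd_tensor {α β : Type} (U : Ultrafilter α) (V : Ultrafilter β) :
    (tensor U V).map Prod.snd = V := by
  apply Ultrafilter.coe_injective
  ext A
  change (∀ᶠ a in (U : Filter α), ∀ᶠ b in (V : Filter β), b ∈ A) ↔ _
  rw [Filter.eventually_const]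
  rfl

end Pool.Agent.Q299.UP
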